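import Mathlib.Data.Nat.Bitwise
import Mathlib.Data.List.Basic

/-! The certificate checker for fixation of the cyclic cellular automaton (definitions only). -/

set_option autoImplicit false

namespace Pool.Agent.P.MP_5517c4_pr.Cca

/-- tensor trees -/
inductive Tn where
  | z : Tn
  | n : ℕ → Tn → Tn → Tn → Tn

/-- certificate data trees -/
inductive DT where
  | o : DT
  | N : ℕ → DT → DT → DT → DT → DT
  | H : ℕ → DT → DT → DT
  | F : ℕ → ℕ → DT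

/-- lists of states -/
inductive SL where
  | nil : SL
  | cons : ℕ → DT → ℕ → SL → SL

/-- trees of lists of states -/
inductive ST where
  | e : ST
  | l : SL → ST
  | b : ST → ST → ST

noncomputable section

def lv (t : Tn) : ℕ := @Tn.rec (fun _ => ℕ) 0 (fun v _ _ _ _ _ _ => v) t
def c0 (t : Tn) : Tn := @Tn.rec (fun _ => Tn) .z (fun _ a _ _ _ _ _ => a) t
def c1 (t : Tn) : Tn := @Tn.rec (fun _ => Tn) .z (fun _ _ b _ _ _ _ => b) t
def c2 (t : Tn) : Tn := @Tn.rec (fun _ => Tn) .z (fun _ _ _ c _ _ _ => c) t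

def tadd (s : Tn) : Tn → Tn :=
  @Tn.rec (fun _ => Tn → Tn) (fun t => t)
    (fun v a b c ia ib ic t => @Tn.rec (fun _ => Tn) (.n v a b c)
      (fun v' a' b' c' _ _ _ => .n (Nat.add v v') (ia a') (ib b') (ic c')) t) s

def tsub (s : Tn) : Tn → Tn :=
  @Tn.rec (fun _ => Tn → Tn) (fun _ => .z)
    (fun v a b c ia ib ic t => @Tn.rec (fun _ => Tn) (.n v a b c)
      (fun v' a' b' c' _ _ _ => .n (Nat.sub v v') (ia a') (ib b') (ic c')) t) s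

def tmul (s : Tn) : Tn → Tn :=
  @Tn.rec (fun _ => Tn → Tn) (fun _ => .z)
    (fun v _ _ _ ia ib ic t => @Tn.rec (fun _ => Tn) .z
      (fun v' a' b' c' _ _ _ => .n (Nat.mul v v') (ia a') (tadd (ia b') (ib a')) (ic c')) t) s

def tsq (s : Tn) : Tn :=
  @Tn.rec (fun _ => Tn) .z
    (fun v a b _ ia _ ic => .n (Nat.mul v v) ia ((fun t => tadd t t) (tmul a b)) ic) s

def tmap (f : ℕ → ℕ) (s : Tn) : Tn :=
  @Tn.rec (fun _ => Tn) .z (fun v _ _ _ ia ib ic => .n (f v) ia ib ic) s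

def on (n : ℕ) : ℕ := Nat.sub (Nat.pow 2 n) 1
def b2 (b : Bool) : ℕ := @Bool.rec (fun _ => ℕ) 0 1 b
def an (a b : Bool) : Bool := @Bool.rec (fun _ => Bool) false b a

def nv (t : DT) : ℕ :=
  @DT.rec (fun _ => ℕ) 0 (fun v _ _ _ _ _ _ _ _ => v) (fun v _ _ _ _ => v) (fun _ _ => 0) t

def isO (t : DT) : Bool :=
  @DT.rec (fun _ => Bool) true (fun _ _ _ _ _ _ _ _ _ => false) (fun _ _ _ _ _ => false)
    (fun _ _ => false) t

def nx (t : DT) (e m : Bool) : DT :=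
  @DT.rec (fun _ => DT) .o (fun _ p q r s _ _ _ _ => @Bool.rec (fun _ => DT)
    (@Bool.rec (fun _ => DT) p q m) (@Bool.rec (fun _ => DT) r s m) e)
    (fun _ p q _ _ => @Bool.rec (fun _ => DT) p q m) (fun _ _ => .o) t

def ni (t : DT) (i : ℕ) (e : Bool) : ℕ :=
  @DT.rec (fun _ => ℕ) i (fun _ _ _ _ _ _ _ _ _ => i)
    (fun _ _ _ _ _ => Nat.add (Nat.mul 2 i) (b2 e)) (fun _ _ => i) t

/-- value at an inner node -/
def vI (o n i : ℕ) : ℕ :=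
  Nat.land (Nat.shiftRight n (Nat.add o (Nat.mul (nat_lit 64) i))) (nat_lit 4294967295)
def hW (h : ℕ) : ℕ := Nat.sub (Nat.pow 2 (Nat.succ h)) 2
def hZ (h : ℕ) : ℕ := Nat.add 20 (Nat.mul 13 (Nat.add (hW h) (Nat.pow 2 h)))
def hG (h : ℕ) : ℕ := Nat.add 52 (Nat.mul 13 (hW h))
/-- entry of a leaf -/
def eL (n i h : ℕ) : ℕ := Nat.shiftRight n (Nat.add (nat_lit 32) (Nat.mul i (hZ h)))
def eG (n i h : ℕ) : ℕ := Nat.shiftRight n (Nat.add (hG h) (Nat.mul i (hZ h)))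
def cd (r : ℕ) : ℕ := Nat.shiftLeft (Nat.land r (nat_lit 255))
  (Nat.land (Nat.shiftRight r (nat_lit 8)) (nat_lit 31))
def w1 (r : ℕ) : ℕ := Nat.shiftLeft (Nat.land r (nat_lit 32767))
  (Nat.land (Nat.shiftRight r (nat_lit 15)) (nat_lit 31))

def lp (L : List ℕ) : ℕ → ℕ :=
  @List.rec ℕ (fun _ => ℕ → ℕ) (fun _ => 0)
    (fun m _ ih r => Nat.add (Nat.mul (Nat.shiftLeft (Nat.land r (nat_lit 255))
      (Nat.land (Nat.shiftRight r (nat_lit 8)) (nat_lit 31))) m)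
      (ih (Nat.shiftRight r (nat_lit 13)))) L

def lq (L : List ℕ) (E : ℕ) : ℕ :=
  @List.rec ℕ (fun _ => ℕ) 0
    (fun m tl _ => Nat.add (Nat.mul (Nat.shiftLeft (Nat.land E (nat_lit 32767))
      (Nat.land (Nat.shiftRight E (nat_lit 15)) (nat_lit 31))) m)
      (lp tl (Nat.shiftRight E (nat_lit 20)))) L

/-- cap bit `b'` of a child at colour difference `δ` whose cap counts are `k` -/
def cf (κ δ : ℕ) (k : ℕ → ℕ) (b' : ℕ) : Bool :=
  (List.range ((b' + 1 + κ - δ) % κ)).all fun b =>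
    decide (2 ≤ k b + if (δ + b + 1) % κ ≤ b' then 1 else 0)

def tp (b : ℕ) (ρ : ℕ → ℕ) : ℕ → ℕ := fun c => if c < b then ρ c else 2
def up (b a : ℕ) (ρ : ℕ → ℕ) : ℕ → ℕ := fun c => if c = b then a else ρ c

def reps : ℕ → ℕ → (ℕ → ℕ) → List (ℕ → ℕ)
  | 0, b, ρ => [tp b ρ]
  | j + 1, b, ρ => ρ :: (reps j (b + 1) (up b 1 ρ) ++ reps j (b + 1) (up b 2 ρ))

def treps : ℕ → ℕ → (ℕ → ℕ) → List (ℕ → ℕ)
  | 0, b, ρ => [tp b ρ]
  | j + 1, b, ρ => treps j (b + 1) (up b 1 ρ) ++ treps j (b + 1) (up b 2 ρ)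

def sc (d W j : ℕ) : ℕ := Nat.mul W (Nat.pow (Nat.succ d) j)

def rv (d W : ℕ) (c : ℕ → Bool) : ℕ → ℕ → ℕ
  | 0, _ => 0
  | q + 1, b => (if c b then sc d W q else 0) + rv d W c q (b + 1)

def mt (d W l : ℕ) (c : ℕ → Bool) : ℕ := 2 ^ rv d W c l 0 + 2 ^ sc d W l
def MR (κ d W l δ h : ℕ) : List ℕ := (reps h 0 fun _ => 0).map fun ρ => mt d W l (cf κ δ ρ)
def MG (κ d W l δ h : ℕ) : List ℕ := (treps h 0 fun _ => 0).map fun ρ => mt d W l (cf κ δ ρ)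
def M1 (h : ℕ) : List ℕ := (reps h 0 fun _ => 0).map fun _ => 1
def M2 (h : ℕ) : List ℕ := (treps h 0 fun _ => 0).map fun _ => 1

def lfR (M : ℕ → List ℕ) (t : DT) (i : ℕ) : ℕ :=
  @DT.rec (fun _ => ℕ) 0 (fun _ _ _ _ _ _ _ _ _ => 0) (fun _ _ _ _ _ => 0)
    (fun h v => lq (M h) (Nat.shiftRight v (Nat.add (nat_lit 32) (Nat.mul i (hZ h))))) t
def lfG (M : ℕ → List ℕ) (t : DT) (i : ℕ) : ℕ :=
  @DT.rec (fun _ => ℕ) 0 (fun _ _ _ _ _ _ _ _ _ => 0) (fun _ _ _ _ _ => 0)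
    (fun h v => lp (M h) (Nat.shiftRight v (Nat.add (hG h) (Nat.mul i (hZ h))))) t

def itS (lf : (ℕ → List ℕ) → DT → ℕ → ℕ) (M : ℕ → ℕ → List ℕ) (o top κ e0 a : ℕ) (t : DT)
    (i : ℕ) : ℕ :=
  (fun e => cond (isO (nx t e false)) (vI o (nv t) i * top)
    (lf (M (Nat.mod (Nat.add a e0) κ)) (nx t e false) (ni t i e) +
      lf (M (Nat.mod (Nat.succ (Nat.add a e0)) κ)) (nx t e true) (ni t i e)))
    (Nat.beq a (Nat.sub κ 1))

def itC (lf : (ℕ → List ℕ) → DT → ℕ → ℕ) (M : ℕ → ℕ → List ℕ) (o top κ e0 : ℕ) (S : SL) : ℕ :=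
  @SL.rec (fun _ => ℕ) 0 (fun a t i _ ih => Nat.add
    (@DT.rec (fun _ => ℕ) (itS lf M o top κ e0 a t i)
      (fun _ _ _ _ _ _ _ _ _ => itS lf M o top κ e0 a t i)
      (fun v p q _ _ => @Bool.rec (fun _ => ℕ)
        ((fun j => Nat.add (lf (M (Nat.mod (Nat.add a e0) κ)) p j)
          (lf (M (Nat.mod (Nat.succ (Nat.add a e0)) κ)) q j))
          (Nat.add (Nat.mul 2 i) (b2 (Nat.beq a (Nat.sub κ 1)))))
        (Nat.mul (Nat.land (Nat.shiftRight v (Nat.add o (Nat.mul (nat_lit 64) i)))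
          (nat_lit 4294967295)) top) (isO p))
      (fun _ _ => itS lf M o top κ e0 a t i) t) ih) S

def itV (o : ℕ) (S : SL) : ℕ :=
  @SL.rec (fun _ => ℕ) 0 (fun _ t i _ ih => Nat.add
    (Nat.land (Nat.shiftRight (@DT.rec (fun _ => ℕ) 0 (fun v _ _ _ _ _ _ _ _ => v)
      (fun v _ _ _ _ => v) (fun _ _ => 0) t) (Nat.add o (Nat.mul (nat_lit 64) i)))
      (nat_lit 4294967295)) ih) S

def kq0 (a0 a1 : ℕ) (t : DT) (i : ℕ) (r : SL) : SL :=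
  @DT.rec (fun _ => SL) (.cons a0 .o i (.cons a1 .o i r))
    (fun _ p q _ _ _ _ _ _ => .cons a0 p i (.cons a1 q i r))
    (fun _ p q _ _ => .cons a0 p (Nat.mul 2 i) (.cons a1 q (Nat.mul 2 i) r))
    (fun _ _ => .cons a0 .o i (.cons a1 .o i r)) t

def kq1 (a0 a1 : ℕ) (t : DT) (i : ℕ) (r : SL) : SL :=
  @DT.rec (fun _ => SL) (.cons a0 .o i (.cons a1 .o i r))
    (fun _ _ _ p q _ _ _ _ => .cons a0 p i (.cons a1 q i r))
    (fun _ p q _ _ => .cons a0 p (Nat.succ (Nat.mul 2 i)) (.cons a1 q (Nat.succ (Nat.mul 2 i)) r))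
    (fun _ _ => .cons a0 .o i (.cons a1 .o i r)) t

def kq2 (κ e0 a : ℕ) (t : DT) (i : ℕ) (r : SL) : SL :=
  @Nat.rec (fun _ => SL) (kq0 0 1 t i r)
    (fun m _ => kq0 (Nat.succ m) (Nat.mod (Nat.succ (Nat.succ m)) κ) t i r)
    (Nat.mod (Nat.add a e0) κ)

def spl1 (c0 c1 : ℕ) (S : SL) : SL :=
  @SL.rec (fun _ => SL) .nil (fun a t i _ ih =>
    @Bool.rec (fun _ => SL) ih (kq0 c0 c1 t i ih) (Nat.beq a (nat_lit 1))) S

def spl0 (κ k1 e0 z0 z1 n0 n1 : ℕ) (S : SL) : SL :=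
  @SL.rec (fun _ => SL) .nil (fun a t i _ ih =>
    @Bool.rec (fun _ => SL) (@Bool.rec (fun _ => SL) (@Bool.rec (fun _ => SL)
      (kq2 κ e0 a t i ih) (kq0 z0 z1 t i ih) (Nat.beq a (nat_lit 0)))
      (kq1 n0 n1 t i ih) (Nat.beq a k1)) ih (Nat.beq a (nat_lit 1))) S

def flt1 (S : SL) : SL :=
  @SL.rec (fun _ => SL) .nil (fun a t i _ ih =>
    @Bool.rec (fun _ => SL) ih (.cons a t i ih) (Nat.beq a (nat_lit 1))) S

def flt0 (S : SL) : SL :=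
  @SL.rec (fun _ => SL) .nil (fun a t i _ ih =>
    @Bool.rec (fun _ => SL) (.cons a t i ih) ih (Nat.beq a (nat_lit 1))) S

def ee (κ : ℕ) (mv : Bool) : ℕ := Nat.sub κ (b2 mv)
def dd (κ : ℕ) (mv : Bool) (a : ℕ) : ℕ := Nat.mod (Nat.add a (ee κ mv)) κ

def bt (κ : ℕ) (c : List Bool) : SL → ST :=
  @List.rec Bool (fun _ => SL → ST) (fun S => .b (.l (flt0 S)) (.l (flt1 S))) (fun mv _ ih S =>
    @SL.rec (fun _ => ST) .e (fun _ _ _ _ _ =>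
      .b (ih (spl0 κ (Nat.sub κ 1) (ee κ mv) (dd κ mv 0) (dd κ mv 1) (dd κ mv (Nat.sub κ 1))
        (dd κ mv κ) S)) (ih (spl1 (dd κ mv 1) (dd κ mv 2) S))) S) c

def rad (d : ℕ) (mv : Bool) : ℕ := @Bool.rec (fun _ => ℕ) 3 (Nat.succ d) mv

def sb (d B : ℕ) (c : List Bool) : ℕ :=
  @List.rec Bool (fun _ => ℕ) B (fun mv _ ih => Nat.mul (rad d mv) ih) c

def fd2 (d B : ℕ) (lf : SL → ℕ) (c : List Bool) : ST → ℕ :=
  @List.rec Bool (fun _ => ST → ℕ)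
    (fun t => @ST.rec (fun _ => ℕ) 0 lf (fun _ _ _ _ => 0) t)
    (fun _ tl ih t => @ST.rec (fun _ => ℕ) 0 (fun _ => 0)
      (fun a b _ _ => Nat.add (ih a) (Nat.shiftLeft (ih b) (sb d B tl))) t) c

def fd1 (f : ST → ℕ) (c : List Bool) : ST → Tn :=
  @List.rec Bool (fun _ => ST → Tn) (fun t => .n (f t) .z .z .z)
    (fun mv _ ih t => @ST.rec (fun _ => Tn) .z (fun _ => .z)
      (fun a b _ _ => (fun s t => .n 0 s t (@Bool.rec (fun _ => Tn) .z (tadd s t) mv))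
        (ih a) (ih b)) t) c

def fdm (lf : SL → ℕ) (t : ST) : ℕ :=
  @ST.rec (fun _ => ℕ) 0 lf (fun _ _ a b => Nat.add a b) t

def rp (q m S : ℕ) : ℕ := @Nat.rec (fun _ => ℕ) 0 (fun _ ih => Nat.add m (Nat.shiftLeft ih S)) q

def mkM (d B : ℕ) (c : List Bool) : ℕ :=
  @List.rec Bool (fun _ => ℕ) (on B) (fun mv tl ih =>
    rp (@Bool.rec (fun _ => ℕ) 2 (Nat.succ d) mv) ih (sb d B tl)) c

def sd (S q : ℕ) : ℕ → ℕ :=
  @Nat.rec (fun _ => ℕ → ℕ) (fun N => N)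
    (fun _ ih N => Nat.add (Nat.land N (on S)) (ih (Nat.shiftRight N S))) q

def dn (κ : ℕ) (mv e : Bool) (D : ℕ) : ℕ :=
  (fun D' => cond mv (D' ||| (((D' <<< 1) &&& on κ) ||| (D' >>> (κ - 1))))
    (D' ||| ((D' >>> 1) ||| ((D' &&& 1) <<< (κ - 1)))))
  (cond e (D &&& 2 ^ (κ - 1)) (D &&& on (κ - 1)))

def go {α : Type} (κ : ℕ) (mv : Bool) (f : α → α → DT → ℕ → ℕ → Bool) (s0 g0 s1 g1 : α) (t : DT)
    (i D : ℕ) : Bool :=
  (fun k : DT → ℕ → DT → ℕ → Bool => @DT.rec (fun _ => Bool) false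
    (fun _ p q r s _ _ _ _ => @Bool.rec (fun _ => Bool) (k p i r i) (k q i s i) mv)
    (fun _ p q _ _ => (fun c => k c (Nat.mul 2 i) c (Nat.succ (Nat.mul 2 i)))
      (@Bool.rec (fun _ => DT) p q mv)) (fun _ _ => false) t)
  fun p i q j => @Bool.rec (fun _ => Bool) false
    (@Nat.rec (fun _ => Bool) true (fun m _ => f s1 g1 q j (Nat.succ m)) (dn κ mv true D))
    (@Nat.rec (fun _ => Bool) true (fun m _ => f s0 g0 p i (Nat.succ m)) (dn κ mv false D))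

def rd2 (κ d B : ℕ) (fin : ℕ → ℕ → DT → ℕ → Bool) (c : List Bool) :
    ℕ → ℕ → DT → ℕ → ℕ → Bool :=
  @List.rec Bool (fun _ => ℕ → ℕ → DT → ℕ → ℕ → Bool) (fun s g t i _ => fin s g t i)
    (fun mv tl ih s g => (fun S m => @Bool.rec (fun _ => DT → ℕ → ℕ → Bool)
      (go κ false ih (Nat.add (Nat.land s m) (Nat.land (Nat.shiftRight s S) m))
        (Nat.add (Nat.land g m) (Nat.land (Nat.shiftRight g S) m)) (Nat.land s m) (Nat.land g m))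
      ((fun s' g' => (fun a b => go κ true ih a b (Nat.add (Nat.land s' m) a)
        (Nat.add (Nat.land g' m) b)) (sd S (Nat.sub d 2) (Nat.shiftRight s' S))
        (sd S (Nat.sub d 2) (Nat.shiftRight g' S))) (Nat.shiftRight s S) (Nat.shiftRight g S)) mv)
      (sb d B tl) (on (sb d B tl))) c

def rd1 (κ : ℕ) (f : ℕ → ℕ → DT → ℕ → ℕ → Bool) (c : List Bool) :
    Tn → Tn → DT → ℕ → ℕ → Bool :=
  @List.rec Bool (fun _ => Tn → Tn → DT → ℕ → ℕ → Bool) (fun s g => f (lv s) (lv g))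
    (fun mv _ ih s g => @Bool.rec (fun _ => DT → ℕ → ℕ → Bool)
      (go κ false ih (tadd (c0 s) (c1 s)) (tadd (c0 g) (c1 g)) (c0 s) (c0 g))
      ((fun s' g' => go κ true ih (tsub s' (c1 s)) (tsub g' (c1 g)) s' g')
        (tsub (c2 s) (c0 s)) (tsub (c2 g) (c0 g))) mv) c

def wv (E p : ℕ) : ℕ :=
  @Nat.rec (fun _ => ℕ) (w1 E) (fun p _ => cd (Nat.shiftRight E (Nat.add 20 (Nat.mul 13 p)))) p

def cp (d W SC E F j : ℕ) : ℕ → ℕ → Bool → ℕ → ℕ → Bool :=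
  @Nat.rec (fun _ => ℕ → ℕ → Bool → ℕ → ℕ → Bool)
    (fun p q _ s g => (fun w => an (Nat.ble s w) (Nat.ble (Nat.add w (Nat.mul d g))
      (Nat.mul (cd (Nat.shiftRight F (Nat.mul 13 q))) SC))) (Nat.mul (wv E p) SC))
    (fun j ih p q rt s g => (fun S m => (fun s' g' =>
      an (@Bool.rec (fun _ => Bool) (Nat.ble (Nat.mod (Nat.land s m) (on W))
          (Nat.mul (wv E p) SC)) true rt)
        (an (ih (Nat.succ p) q false (Nat.land s' m) (Nat.land g' m))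
          (ih (Nat.add p (Nat.pow 2 (Nat.succ j))) (Nat.add q (Nat.pow 2 j)) false
            (sd S (Nat.sub d 2) (Nat.shiftRight s' S)) (sd S (Nat.sub d 2) (Nat.shiftRight g' S)))))
      (Nat.shiftRight s S) (Nat.shiftRight g S)) (sc d W j) (on (sc d W j))) j

def gT (t : DT) (i : ℕ) : ℕ :=
  @DT.rec (fun _ => ℕ) 0 (fun v _ _ _ _ _ _ _ _ => vI 64 v i) (fun v _ _ _ _ => vI 64 v i)
    (fun h v => lp (M2 h) (eG v i h)) t

def gS (t : DT) (i : ℕ) (e : Bool) : Bool :=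
  Nat.ble (Nat.add (gT (nx t e false) (ni t i e)) (gT (nx t e true) (ni t i e))) (vI 64 (nv t) i)

def finI (SC s _g : ℕ) (t : DT) (i : ℕ) : Bool := Nat.ble s (Nat.mul (vI 32 (nv t) i) SC)
def finS (SC s g : ℕ) (t : DT) (i : ℕ) : Bool :=
  an (finI SC s g t i) (an (gS t i false) (gS t i true))
def finC (d SC s g : ℕ) (t : DT) (i : ℕ) : Bool :=
  an (an (isO (nx t false false)) (isO (nx t true false))) (an (finI SC s g t i)
    (Nat.ble (Nat.add (Nat.mul (vI 32 (nv t) i) SC) (Nat.mul d g)) (Nat.mul (vI 64 (nv t) i) SC)))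
def finW (SC s _g : ℕ) (t : DT) (i : ℕ) : Bool := Nat.ble s (Nat.mul (lfR M1 t i) SC)
def finT (d W SC l s g : ℕ) (t : DT) (i : ℕ) : Bool :=
  @DT.rec (fun _ => Bool) false (fun _ _ _ _ _ _ _ _ _ => false) (fun _ _ _ _ _ => false)
    (fun h v => an (Nat.beq h l) (cp d W SC (eL v i l) (eG v i l) l 0 0 true s g)) t

def mkL (x n : ℕ) : ℕ → List Bool :=
  @Nat.rec (fun _ => ℕ → List Bool) (fun _ => [])
    (fun _ ih t => Nat.testBit x t :: ih (Nat.succ t)) n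

def S0 (R : DT) (a : ℕ) : SL := @Nat.rec (fun _ => SL) .nil (fun a ih => .cons a R 0 ih) a

def tm (M : ℕ) (s t : Tn) : Tn := tmap (Nat.land M) (tmul s t)
def pw (d : ℕ) (p r : Tn) : Tn := @Bool.rec (fun _ => Tn) (tsq p) (tmul p r) (Nat.beq d 3)
def pg (d M : ℕ) (p r g : Tn) : Tn :=
  @Bool.rec (fun _ => Tn) (tmul p (tm M r g)) (tmul p g) (Nat.beq d 3)

/-- parameters of a certificate -/
structure Ce where
  κ : ℕ
  d : ℕ
  T : ℕ
  SC : ℕ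
  W : ℕ
  ti : ℕ
  ct : ℕ
  pk : ℕ
  R : DT

def Ce.l (C : Ce) (x : ℕ) : ℕ := Nat.land (Nat.shiftRight C.ti (Nat.mul 3 x)) 7
def Ce.u (C : Ce) (j : ℕ) : ℕ := Nat.land (Nat.shiftRight C.pk (Nat.mul 4 j)) 15
def Ce.st (C : Ce) (k x : ℕ) : ST := bt C.κ (mkL x (Nat.sub k 1) 0) (S0 C.R C.κ)

/-- the check with slots of `B` bits, `u` unpacked times; `r`, `g` evaluate lists of states -/
def Ce.ck (C : Ce) (k x u B : ℕ) (fin : ℕ → ℕ → DT → ℕ → Bool) (r g mr mg : SL → ℕ) (t : ST) :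
    Bool :=
  an (an (Nat.ble u k)
    (Nat.ble (Nat.succ (Nat.pow (Nat.add (fdm mr t) (fdm mg t)) C.d)) (on C.W)))
  ((fun a c => (fun M r g => (fun p => rd1 C.κ (rd2 C.κ C.d B fin c) a (pw C.d p r)
    (pg C.d M p r g) C.R 0 (on C.κ)) (tmap (Nat.land M) (tsq r))) (mkM C.d B c) (fd1 (fd2 C.d B r c) a t)
    (fd1 (fd2 C.d B g c) a t)) (mkL x u 0) (mkL x (Nat.sub k u) u))

def Ce.ckV (C : Ce) (k x : ℕ) (fin : ℕ → ℕ → DT → ℕ → Bool) (t : ST) : Bool :=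
  C.ck k x (C.u (Nat.add (Nat.pow 2 k) x)) C.W fin (itV 32) (itV 64) (itV 32) (itV 64) t

def Ce.ckM (C : Ce) (k x : ℕ) (fin : ℕ → ℕ → DT → ℕ → Bool) (t : ST) : Bool :=
  C.ck k x (C.u (Nat.add (Nat.pow 2 k) x)) C.W fin (itV 32) (fun _ => 0) (itV 32) (fun _ => 0) t

def Ce.ckL (C : Ce) (k x : ℕ) : Bool :=
  cond (Nat.ble C.T (k + 2))
    (cond (an (Nat.beq C.T (k + 1)) (Nat.testBit C.ct x)) (C.ckV k x (finC C.d C.SC) (C.st k x))
      (C.ckM k x (finS C.SC) (C.st k x))) (C.ckM k x (finI C.SC) (C.st k x))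

def lo (B : ℕ) (f : SL → ℕ) (S : SL) : ℕ := Nat.land (f S) (on B)
def hi (B : ℕ) (f : SL → ℕ) (S : SL) : ℕ := Nat.shiftRight (f S) B

def Ce.ckC (C : Ce) (x l : ℕ) (t : ST) : Bool :=
  (fun B top e0 => (fun r g => C.ck C.T x (C.u (Nat.add (Nat.pow 2 (Nat.succ C.T)) x)) B
    (finT C.d C.W C.SC l) (lo B r) (lo B g) (hi B r) (hi B g) t)
    (itC lfR (MR C.κ C.d C.W l) 32 top C.κ e0) (itC lfG (MG C.κ C.d C.W l) 64 top C.κ e0))
    (sc C.d C.W l) (mt C.d C.W l fun _ => true) (ee C.κ (Nat.testBit x (Nat.sub C.T 1)))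

def Ce.ckT (C : Ce) (x : ℕ) : Bool :=
  cond (Nat.testBit C.ct (x % 2 ^ (C.T - 1))) true
    ((fun t => cond (Nat.beq (C.l x) 0) (C.ckV C.T x (finT C.d C.W C.SC 0) t)
      (an (an (Nat.ble (C.l x) (Nat.sub C.κ 1)) (C.ckM C.T x (finW C.SC) t)) (C.ckC x (C.l x) t))) (C.st C.T x))

def allR (f : ℕ → Bool) (a n : ℕ) : Bool :=
  @Nat.rec (fun _ => Bool) true (fun j ih => an (f (Nat.add a j)) ih) n

end

end Pool.Agent.P.MP_5517c4_pr.Cca
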