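import Mathlib
import Pool.Agent.P.MP_5517c4_pr.Cca.Ck

/-! Weighted bags of exponent vectors and their packed representations. -/

set_option autoImplicit false

namespace Pool.Agent.P.MP_5517c4_pr.Cca

open Finset

abbrev V := ℕ → ℕ
abbrev Bg := AddMonoidAlgebra ℕ V

noncomputable def pr (A : Bg) (φ : V → ℕ) : ℕ := A.coeff.sum fun v c => c * φ v

noncomputable abbrev sg (v : V) (c : ℕ) : Bg := AddMonoidAlgebra.single v c

@[simp] theorem pr_zero (φ : V → ℕ) : pr 0 φ = 0 := by simp [pr]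

@[simp] theorem pr_sg (v : V) (c : ℕ) (φ : V → ℕ) : pr (sg v c) φ = c * φ v := by
  simp [pr]

theorem pr_add (A B : Bg) (φ : V → ℕ) : pr (A + B) φ = pr A φ + pr B φ := by
  simp only [pr, AddMonoidAlgebra.coeff_add]
  exact Finsupp.sum_add_index' (by simp) (fun _ _ _ => add_mul _ _ _)

theorem pr_sum {ι : Type} (s : Finset ι) (A : ι → Bg) (φ : V → ℕ) :
    pr (∑ i ∈ s, A i) φ = ∑ i ∈ s, pr (A i) φ := by
  classical
  induction s using Finset.induction_on with
  | empty => simp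
  | insert i s hi ih => rw [sum_insert hi, sum_insert hi, pr_add, ih]

theorem pr_mono (A : Bg) {φ ψ : V → ℕ} (h : ∀ v, φ v ≤ ψ v) : pr A φ ≤ pr A ψ :=
  sum_le_sum fun v _ => Nat.mul_le_mul_left _ (h v)

theorem pr_addf (A : Bg) (φ ψ : V → ℕ) : pr A (fun v => φ v + ψ v) = pr A φ + pr A ψ := by
  simp [pr, Finsupp.sum, mul_add, sum_add_distrib]

theorem pr_mulf (A : Bg) (φ : V → ℕ) (c : ℕ) : pr A (fun v => φ v * c) = pr A φ * c := by
  simp [pr, Finsupp.sum, sum_mul, mul_assoc]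

@[simp] theorem pr_zerof (A : Bg) : pr A (fun _ => 0) = 0 := by simp [pr]

theorem pr_mul (A B : Bg) (φ : V → ℕ) :
    pr (A * B) φ = pr A fun v => pr B fun v' => φ (v + v') := by
  induction A using AddMonoidAlgebra.induction_linear with
  | zero => simp
  | add A A' h h' => rw [add_mul, pr_add, pr_add, h, h']
  | single v c =>
    induction B using AddMonoidAlgebra.induction_linear with
    | zero => simp
    | add B B' h h' =>
      rw [mul_add, pr_add, h, h', ← pr_addf]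
      simp only [pr_add]
    | single v' c' => simp [AddMonoidAlgebra.single_mul_single, mul_assoc]

theorem pr_one (φ : V → ℕ) : pr 1 φ = φ 0 := by simp [AddMonoidAlgebra.one_def]

theorem ext_pr {A B : Bg} (h : ∀ φ, pr A φ = pr B φ) : A = B := by
  classical
  have key : ∀ (A : Bg) v, pr A (fun u => if u = v then 1 else 0) = A.coeff v := by
    intro A v
    simp only [pr, Finsupp.sum, mul_ite, mul_one, mul_zero, sum_ite_eq', Finsupp.mem_support_iff]
    split_ifs with h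
    · rfl
    · exact (not_not.1 h).symm
  ext v
  rw [← key, ← key, h]

noncomputable def Fl (p : V → Prop) [DecidablePred p] (A : Bg) : Bg := .ofCoeff (A.coeff.filter p)

theorem pr_Fl (p : V → Prop) [DecidablePred p] (A : Bg) (φ : V → ℕ) :
    pr (Fl p A) φ = pr A fun v => if p v then φ v else 0 := by
  simp only [pr, Fl, Finsupp.sum, Finsupp.support_filter, sum_filter]
  refine sum_congr rfl fun v _ => ?_
  split_ifs with h
  · rw [Finsupp.filter_apply_pos _ _ h]
  · rfl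

/-- all items of the bag satisfy `p` -/
def Al (A : Bg) (p : V → Prop) : Prop := ∀ φ ψ : V → ℕ, (∀ v, p v → φ v ≤ ψ v) → pr A φ ≤ pr A ψ

theorem Al.eq {A : Bg} {p : V → Prop} (h : Al A p) {φ ψ : V → ℕ} (e : ∀ v, p v → φ v = ψ v) :
    pr A φ = pr A ψ :=
  le_antisymm (h _ _ fun v hv => (e v hv).le) (h _ _ fun v hv => (e v hv).ge)

theorem Al.mono {A : Bg} {p q : V → Prop} (h : Al A p) (e : ∀ v, p v → q v) : Al A q :=
  fun φ ψ k => h φ ψ fun v hv => k v (e v hv)

theorem Al.and {A : Bg} {p q : V → Prop} (h : Al A p) (h' : Al A q) : Al A fun v => p v ∧ q v := by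
  classical
  intro φ ψ k
  refine (h φ (fun v => if p v then φ v else 0) fun v hv => by simp [hv]).trans
    (h' _ _ fun v hv => ?_)
  split_ifs with h1
  exacts [k v ⟨h1, hv⟩, Nat.zero_le _]

theorem Al.zero (p : V → Prop) : Al 0 p := fun _ _ _ => by simp

theorem Al.add {A B : Bg} {p : V → Prop} (h : Al A p) (h' : Al B p) : Al (A + B) p :=
  fun φ ψ k => by rw [pr_add, pr_add]; exact add_le_add (h φ ψ k) (h' φ ψ k)

theorem Al.sg {v : V} {p : V → Prop} (h : p v) (c : ℕ) : Al (sg v c) p :=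
  fun φ ψ k => by simp only [pr_sg]; exact Nat.mul_le_mul_left _ (k v h)

theorem Al.sum {ι : Type} {s : Finset ι} {A : ι → Bg} {p : V → Prop} (h : ∀ i ∈ s, Al (A i) p) :
    Al (∑ i ∈ s, A i) p :=
  fun φ ψ k => by rw [pr_sum, pr_sum]; exact sum_le_sum fun i hi => h i hi φ ψ k

theorem Al.mul {A B : Bg} {p q r : V → Prop} (h : Al A p) (h' : Al B q)
    (e : ∀ v v', p v → q v' → r (v + v')) : Al (A * B) r :=
  fun φ ψ k => by
    rw [pr_mul, pr_mul]
    exact h _ _ fun v hv => h' _ _ fun v' hv' => k _ (e v v' hv hv')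

theorem Al.Fl {A : Bg} {p : V → Prop} (h : Al A p) (q : V → Prop) [DecidablePred q] :
    Al (Fl q A) fun v => p v ∧ q v :=
  fun φ ψ k => by
    rw [pr_Fl, pr_Fl]
    refine h _ _ fun v hv => ?_
    split_ifs with h1
    exacts [k v ⟨hv, h1⟩, le_rfl]

theorem pr_Fl_le (p : V → Prop) [DecidablePred p] (A : Bg) (φ : V → ℕ) :
    pr (Fl p A) φ ≤ pr A φ := by
  rw [pr_Fl]; exact pr_mono _ fun v => by split_ifs <;> simp

theorem Fl_add (p : V → Prop) [DecidablePred p] (A B : Bg) : Fl p (A + B) = Fl p A + Fl p B :=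
  ext_pr fun φ => by simp only [pr_Fl, pr_add]

theorem Fl_zero (p : V → Prop) [DecidablePred p] : Fl p 0 = 0 := ext_pr fun φ => by simp [pr_Fl]

theorem Fl_comm (p q : V → Prop) [DecidablePred p] [DecidablePred q] (A : Bg) :
    Fl p (Fl q A) = Fl q (Fl p A) :=
  ext_pr fun φ => by
    simp only [pr_Fl]; congr 1; funext v; split_ifs <;> rfl

theorem Fl_mul0 (k : ℕ) (A B : Bg) :
    Fl (fun v => v k = 0) (A * B) = Fl (fun v => v k = 0) A * Fl (fun v => v k = 0) B :=
  ext_pr fun φ => by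
    simp only [pr_Fl, pr_mul, Pi.add_apply]
    congr 1; funext v
    by_cases h : v k = 0 <;> simp [h]

theorem Fl_mul1 (k : ℕ) (A B : Bg) :
    Fl (fun v => v k = 1) (A * B) = Fl (fun v => v k = 0) A * Fl (fun v => v k = 1) B +
      Fl (fun v => v k = 1) A * Fl (fun v => v k = 0) B :=
  ext_pr fun φ => by
    simp only [pr_Fl, pr_mul, pr_add, Pi.add_apply]
    rw [← pr_addf]
    congr 1; funext v
    by_cases h : v k = 0
    · simp [h]
    · by_cases h' : v k = 1
      · simp [h']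
      · simp only [h, h', if_false, add_zero]
        refine Eq.trans ?_ (pr_zerof B)
        congr 1; funext v'
        rw [if_neg (by omega)]

/-! ### tensors -/

def rep (ix : V → ℕ) : List Bool → ℕ → Tn → Bg → Prop
  | [], _, t, A => lv t = pr A fun v => 2 ^ ix v
  | mv :: tl, k, t, A => rep ix tl (k + 1) (c0 t) (Fl (fun v => v k = 0) A) ∧
      rep ix tl (k + 1) (c1 t) (Fl (fun v => v k = 1) A) ∧ (mv = true → rep ix tl (k + 1) (c2 t) A)

variable {ix : V → ℕ}

theorem rep_z (c : List Bool) : ∀ k, rep ix c k .z 0 := by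
  induction c with
  | nil => intro k; simp [rep, lv]
  | cons mv tl ih => intro k; simp only [rep, Fl_zero]; exact ⟨ih _, ih _, fun _ => ih _⟩

theorem tadd_z (s : Tn) : tadd s .z = s := by cases s <;> rfl
theorem tsub_z (s : Tn) : tsub s .z = s := by cases s <;> rfl
theorem tmul_z (s : Tn) : tmul s .z = .z := by cases s <;> rfl

theorem tadd_p (s t : Tn) : lv (tadd s t) = lv s + lv t ∧ c0 (tadd s t) = tadd (c0 s) (c0 t) ∧
    c1 (tadd s t) = tadd (c1 s) (c1 t) ∧ c2 (tadd s t) = tadd (c2 s) (c2 t) := by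
  cases s with
  | z => exact ⟨(zero_add _).symm, rfl, rfl, rfl⟩
  | n v a b c =>
    cases t with
    | z => exact ⟨rfl, (tadd_z _).symm, (tadd_z _).symm, (tadd_z _).symm⟩
    | n => exact ⟨rfl, rfl, rfl, rfl⟩

theorem tsub_p (s t : Tn) : lv (tsub s t) = lv s - lv t ∧ c0 (tsub s t) = tsub (c0 s) (c0 t) ∧
    c1 (tsub s t) = tsub (c1 s) (c1 t) ∧ c2 (tsub s t) = tsub (c2 s) (c2 t) := by
  cases s with
  | z => exact ⟨(Nat.zero_sub _).symm, rfl, rfl, rfl⟩
  | n v a b c =>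
    cases t with
    | z => exact ⟨rfl, (tsub_z _).symm, (tsub_z _).symm, (tsub_z _).symm⟩
    | n => exact ⟨rfl, rfl, rfl, rfl⟩

theorem tmul_p (s t : Tn) : lv (tmul s t) = lv s * lv t ∧ c0 (tmul s t) = tmul (c0 s) (c0 t) ∧
    c1 (tmul s t) = tadd (tmul (c0 s) (c1 t)) (tmul (c1 s) (c0 t)) ∧
    c2 (tmul s t) = tmul (c2 s) (c2 t) := by
  cases s with
  | z => exact ⟨(zero_mul _).symm, rfl, rfl, rfl⟩
  | n v a b c =>
    cases t with
    | z =>
      refine ⟨rfl, (tmul_z _).symm, ?_, (tmul_z _).symm⟩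
      change Tn.z = tadd (tmul a .z) (tmul b .z)
      rw [tmul_z, tmul_z]; rfl
    | n => exact ⟨rfl, rfl, rfl, rfl⟩

theorem tsq_p (s : Tn) : lv (tsq s) = lv s * lv s ∧ c0 (tsq s) = tsq (c0 s) ∧
    c1 (tsq s) = tadd (tmul (c0 s) (c1 s)) (tmul (c0 s) (c1 s)) ∧ c2 (tsq s) = tsq (c2 s) := by
  cases s <;> exact ⟨rfl, rfl, rfl, rfl⟩

theorem tmap_p (f : ℕ → ℕ) (hf : f 0 = 0) (s : Tn) : lv (tmap f s) = f (lv s) ∧
    c0 (tmap f s) = tmap f (c0 s) ∧ c1 (tmap f s) = tmap f (c1 s) ∧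
    c2 (tmap f s) = tmap f (c2 s) := by
  cases s with
  | z => exact ⟨hf.symm, rfl, rfl, rfl⟩
  | n => exact ⟨rfl, rfl, rfl, rfl⟩

theorem rep_add (c : List Bool) : ∀ {k s t A B}, rep ix c k s A → rep ix c k t B →
    rep ix c k (tadd s t) (A + B) := by
  induction c with
  | nil => intro k s t A B h h'; rw [rep] at *; rw [(tadd_p s t).1, h, h', pr_add]
  | cons mv tl ih =>
    intro k s t A B h h'
    obtain ⟨-, e0, e1, e2⟩ := tadd_p s t
    rw [rep, e0, e1, e2, Fl_add, Fl_add]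
    exact ⟨ih h.1 h'.1, ih h.2.1 h'.2.1, fun m => ih (h.2.2 m) (h'.2.2 m)⟩

theorem rep_sub (c : List Bool) : ∀ {k s t A B}, rep ix c k s (A + B) → rep ix c k t B →
    rep ix c k (tsub s t) A := by
  induction c with
  | nil => intro k s t A B h h'; rw [rep] at *; rw [(tsub_p s t).1, h, h', pr_add]; simp
  | cons mv tl ih =>
    intro k s t A B h h'
    obtain ⟨-, e0, e1, e2⟩ := tsub_p s t
    rw [rep, Fl_add, Fl_add] at h
    rw [rep, e0, e1, e2]
    exact ⟨ih h.1 h'.1, ih h.2.1 h'.2.1, fun m => ih (h.2.2 m) (h'.2.2 m)⟩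

theorem rep_mul (hix : ∀ v v', ix (v + v') = ix v + ix v') (c : List Bool) :
    ∀ {k s t A B}, rep ix c k s A → rep ix c k t B → rep ix c k (tmul s t) (A * B) := by
  induction c with
  | nil =>
    intro k s t A B h h'
    rw [rep] at *
    rw [(tmul_p s t).1, h, h', pr_mul, ← pr_mulf]
    congr 1; funext v
    rw [mul_comm, ← pr_mulf]
    congr 1; funext v'
    rw [hix, pow_add, mul_comm]
  | cons mv tl ih =>
    intro k s t A B h h'
    obtain ⟨-, e0, e1, e2⟩ := tmul_p s t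
    rw [rep, e0, e1, e2, Fl_mul0, Fl_mul1]
    exact ⟨ih h.1 h'.1, rep_add _ (ih h.1 h'.2.1) (ih h.2.1 h'.1),
      fun m => ih (h.2.2 m) (h'.2.2 m)⟩

theorem rep_sq (hix : ∀ v v', ix (v + v') = ix v + ix v') (c : List Bool) :
    ∀ {k s A}, rep ix c k s A → rep ix c k (tsq s) (A * A) := by
  induction c with
  | nil =>
    intro k s A h
    have := rep_mul hix [] h h
    rw [rep] at *
    rw [(tsq_p s).1, ← this, (tmul_p s s).1]
  | cons mv tl ih =>
    intro k s A h
    obtain ⟨-, e0, e1, e2⟩ := tsq_p s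
    rw [rep, e0, e1, e2, Fl_mul0, Fl_mul1, mul_comm (Fl (fun v => v k = 1) A)]
    exact ⟨ih h.1, rep_add _ (rep_mul hix _ h.1 h.2.1) (rep_mul hix _ h.1 h.2.1),
      fun m => ih (h.2.2 m)⟩

/-- small total weight, all items satisfy `p` -/
def Ok (W : ℕ) (p : V → Prop) (A : Bg) : Prop := pr A (fun _ => 1) < 2 ^ W - 1 ∧ Al A p

theorem Ok.Fl {W : ℕ} {p : V → Prop} {A : Bg} (h : Ok W p A) (q : V → Prop) [DecidablePred q] :
    Ok W p (Fl q A) :=
  ⟨(pr_Fl_le _ _ _).trans_lt h.1, (h.2.Fl q).mono fun _ h => h.1⟩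

theorem Ok.mono {W : ℕ} {p q : V → Prop} {A : Bg} (h : Ok W p A) (e : ∀ v, p v → q v) :
    Ok W q A := ⟨h.1, h.2.mono e⟩

theorem rep_map {W : ℕ} {p q : V → Prop} [DecidablePred q] {f : ℕ → ℕ} (hf : f 0 = 0)
    (h : ∀ A, Ok W p A → f (pr A fun v => 2 ^ ix v) = pr (Fl q A) fun v => 2 ^ ix v)
    (c : List Bool) : ∀ {k s A}, Ok W p A → rep ix c k s A → rep ix c k (tmap f s) (Fl q A) := by
  induction c with
  | nil => intro k s A o r; rw [rep] at *; rw [(tmap_p f hf s).1, r, h A o]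
  | cons mv tl ih =>
    intro k s A o r
    obtain ⟨-, e0, e1, e2⟩ := tmap_p f hf s
    rw [rep, e0, e1, e2, Fl_comm, Fl_comm (fun v => v k = 1)]
    exact ⟨ih (o.Fl _) r.1, ih (o.Fl _) r.2.1, fun m => ih o (r.2.2 m)⟩

/-! ### digits -/

theorem on_eq (n : ℕ) : on n = 2 ^ n - 1 := rfl

theorem land_on (N S : ℕ) : Nat.land N (on S) = N % 2 ^ S := Nat.and_two_pow_sub_one_eq_mod N S

theorem shr_eq (N S : ℕ) : Nat.shiftRight N S = N / 2 ^ S := Nat.shiftRight_eq_div_pow N S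

theorem shl_eq (N S : ℕ) : Nat.shiftLeft N S = N * 2 ^ S := Nat.shiftLeft_eq N S

theorem Ok.lt {W S : ℕ} {A : Bg} (h : Ok W (fun v => ix v + W ≤ S) A) :
    (pr A fun v => 2 ^ ix v) < 2 ^ S := by
  by_cases e : W ≤ S
  · refine (h.2 _ (fun _ => 1 * 2 ^ (S - W)) fun v hv => ?_).trans_lt ?_
    · rw [one_mul]; exact Nat.pow_le_pow_right two_pos (by omega)
    · rw [pr_mulf]
      calc _ < 2 ^ W * 2 ^ (S - W) :=
            Nat.mul_lt_mul_of_pos_right (h.1.trans_le (Nat.sub_le _ _)) (by positivity)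
        _ = _ := by rw [← pow_add]; congr 1; omega
  · exact (h.2 _ (fun _ => 0) fun v hv => by omega).trans_lt (by simp)

noncomputable def dg (ix : V → ℕ) (S k : ℕ) (A : Bg) (j : ℕ) : ℕ :=
  pr A fun v => if j ≤ v k then 2 ^ (S * (v k - j) + ix v) else 0

theorem dg_zero (S k : ℕ) (A : Bg) : dg ix S k A 0 = pr A fun v => 2 ^ (S * v k + ix v) := by
  simp [dg]

theorem dg_eq (S k : ℕ) (A : Bg) (j : ℕ) : dg ix S k A j =
    (pr (Fl (fun v => v k = j) A) fun v => 2 ^ ix v) + dg ix S k A (j + 1) * 2 ^ S := by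
  rw [dg, dg, pr_Fl, ← pr_mulf, ← pr_addf]
  congr 1; funext v
  rcases lt_trichotomy (v k) j with h | h | h
  · rw [if_neg (by omega), if_neg (by omega), if_neg (by omega)]; simp
  · rw [if_pos h.ge, if_pos h, if_neg (by omega), h]; simp
  · obtain ⟨q, hq⟩ : ∃ q, v k = j + 1 + q := ⟨v k - (j + 1), by omega⟩
    rw [if_pos h.le, if_neg h.ne', if_pos (by omega), zero_add, ← pow_add, hq]
    congr 1
    rw [show j + 1 + q - j = q + 1 by omega, show j + 1 + q - (j + 1) = q by omega]; ring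

theorem dg_land {W S : ℕ} {A : Bg} (h : Ok W (fun v => ix v + W ≤ S) A) (k j : ℕ) :
    Nat.land (dg ix S k A j) (on S) = pr (Fl (fun v => v k = j) A) fun v => 2 ^ ix v := by
  rw [land_on, dg_eq, Nat.add_mul_mod_self_right, Nat.mod_eq_of_lt (h.Fl _).lt]

theorem dg_shr {W S : ℕ} {A : Bg} (h : Ok W (fun v => ix v + W ≤ S) A) (k j : ℕ) :
    Nat.shiftRight (dg ix S k A j) S = dg ix S k A (j + 1) := by
  rw [shr_eq, dg_eq, Nat.add_mul_div_right _ _ (by positivity), Nat.div_eq_of_lt (h.Fl _).lt,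
    zero_add]

theorem dg_sd {W S : ℕ} {A : Bg} (h : Ok W (fun v => ix v + W ≤ S) A) (k q : ℕ) : ∀ j,
    Al A (fun v => v k ≤ j + q) →
      sd S q (dg ix S k A j) = pr (Fl (fun v => j ≤ v k) A) fun v => 2 ^ ix v := by
  induction q with
  | zero =>
    intro j hj
    rw [pr_Fl]
    refine hj.eq fun v hv => ?_
    rw [show v k - j = 0 by omega]; simp
  | succ q ih =>
    intro j hj
    change Nat.land _ (on S) + sd S q (Nat.shiftRight _ S) = _
    rw [dg_land h, dg_shr h, ih _ (hj.mono fun v hv => by omega), pr_Fl, pr_Fl, pr_Fl, ← pr_addf]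
    congr 1; funext v
    split_ifs <;> first | rfl | omega

theorem land_split {a b m m' S : ℕ} (ha : a < 2 ^ S) (hm : m < 2 ^ S) :
    Nat.land (m + m' * 2 ^ S) (a + b * 2 ^ S) = Nat.land m a + Nat.land m' b * 2 ^ S := by
  have h3 : Nat.land m a < 2 ^ S := lt_of_le_of_lt Nat.and_le_right ha
  refine Nat.eq_of_testBit_eq fun i => ?_
  change ((m + m' * 2 ^ S) &&& (a + b * 2 ^ S)).testBit i = _
  rw [Nat.testBit_and, add_comm m, add_comm a, add_comm (Nat.land m a), mul_comm m', mul_comm b,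
    mul_comm (Nat.land m' b), Nat.testBit_two_pow_mul_add _ hm, Nat.testBit_two_pow_mul_add _ ha,
    Nat.testBit_two_pow_mul_add _ h3]
  split_ifs
  · exact (Nat.testBit_and _ _ _).symm
  · exact (Nat.testBit_and _ _ _).symm

theorem rp_lt {m S : ℕ} (hm : m < 2 ^ S) (q : ℕ) : rp q m S < 2 ^ (q * S) := by
  induction q with
  | zero => simp [rp]
  | succ q ih =>
    change m + Nat.shiftLeft (rp q m S) S < _
    rw [shl_eq, add_mul, one_mul, pow_add]
    calc _ < 2 ^ S + rp q m S * 2 ^ S := by omega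
      _ = (rp q m S + 1) * 2 ^ S := by ring
      _ ≤ _ := Nat.mul_le_mul_right _ ih

theorem dg_rp {W S m : ℕ} {p g : V → Prop} [DecidablePred g] (hp : ∀ v, p v → ix v + W ≤ S)
    (hm : m < 2 ^ S)
    (h : ∀ A, Ok W p A → Nat.land m (pr A fun v => 2 ^ ix v) = pr (Fl g A) fun v => 2 ^ ix v)
    {A : Bg} (o : Ok W p A) (k q : ℕ) : ∀ j, Nat.land (rp q m S) (dg ix S k A j) =
      dg ix S k (Fl (fun v => g v ∧ v k < j + q) A) j := by
  induction q with
  | zero =>
    intro j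
    rw [dg, dg, pr_Fl]
    refine (Nat.zero_and _).trans ((pr_zerof A).symm.trans ?_)
    congr 1; funext v
    split_ifs <;> first | rfl | omega
  | succ q ih =>
    intro j
    change Nat.land (m + Nat.shiftLeft (rp q m S) S) _ = _
    rw [shl_eq, dg_eq, land_split ((o.mono hp).Fl _).lt hm, ih, h _ (o.Fl _), dg_eq S k _ j,
      show j + 1 + q = j + (q + 1) by omega]
    congr 1
    simp only [pr_Fl]
    congr 1; funext v
    by_cases h1 : v k = j <;> by_cases h2 : g v <;> simp [h1, h2]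

theorem pr_mod {W : ℕ} {A : Bg} (h : Ok W (fun v => W ∣ ix v) A) :
    Nat.mod (pr A fun v => 2 ^ ix v) (on W) = pr A fun _ => 1 := by
  have h1 : ∀ n, 2 ^ (W * n) = 1 + (∑ i ∈ range n, (2 ^ W) ^ i) * (2 ^ W - 1) := by
    intro n
    have := geom_sum_mul_add (2 ^ W - 1) n
    rw [Nat.sub_add_cancel Nat.one_le_two_pow] at this
    rw [pow_mul, ← this, add_comm]
  have h2 : (pr A fun v => 2 ^ ix v) = pr A (fun _ => 1) +
      (pr A fun v => ∑ i ∈ range (ix v / W), (2 ^ W) ^ i) * (2 ^ W - 1) := by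
    rw [← pr_mulf, ← pr_addf]
    exact h.2.eq fun v hv => by rw [← h1, Nat.mul_div_cancel' hv]
  change _ % (2 ^ W - 1) = _
  rw [h2, Nat.add_mul_mod_self_right, Nat.mod_eq_of_lt h.1]

end Pool.Agent.P.MP_5517c4_pr.Cca
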