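import Pool.Agent.P.MP_5517c4_pr.Cca.Bag

/-! Soundness of the construction of the tensors. -/

set_option autoImplicit false

namespace Pool.Agent.P.MP_5517c4_pr.Cca

open Finset
open scoped Classical

noncomputable def ixp (d B : ℕ) (base : V → ℕ) : List Bool → ℕ → V → ℕ
  | [], _, v => base v
  | _ :: tl, k, v => sb d B tl * v k + ixp d B base tl (k + 1) v

def nd (n : ℕ) : List Bool → ℕ → V → Prop
  | [], _, _ => True
  | mv :: tl, k, v => (mv = false → v k ≤ n) ∧ nd n tl (k + 1) v

def Bd (d : ℕ) (c : List Bool) (k : ℕ) (v : V) : Prop := (∀ j, v j ≤ d) ∧ nd 2 c k v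

variable {d B W : ℕ} {base : V → ℕ}

theorem ixp_add (hb : ∀ v v', base (v + v') = base v + base v') (c : List Bool) :
    ∀ k v v', ixp d B base c k (v + v') = ixp d B base c k v + ixp d B base c k v' := by
  induction c with
  | nil => exact fun _ => hb
  | cons mv tl ih => intro k v v'; simp only [ixp, ih, Pi.add_apply]; ring

theorem nd_add {n m : ℕ} (c : List Bool) :
    ∀ {k v v'}, nd n c k v → nd m c k v' → nd (n + m) c k (v + v') := by
  induction c with
  | nil => exact fun _ _ => trivial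
  | cons mv tl ih =>
    exact fun h h' => ⟨fun e => add_le_add (h.1 e) (h'.1 e), ih h.2 h'.2⟩

theorem nd_of {n : ℕ} (c : List Bool) : ∀ {k} {v : V},
    (∀ j < c.length, c.getD j true = false → v (k + j) ≤ n) → nd n c k v := by
  induction c with
  | nil => exact fun _ => trivial
  | cons mv tl ih =>
    intro k v h
    refine ⟨fun e => h 0 (by simp) (by simpa using e), ih fun j hj e => ?_⟩
    rw [add_assoc, add_comm 1]
    exact h (j + 1) (by simpa using hj) (by simpa using e)

theorem nd_left {n : ℕ} (c : List Bool) : ∀ {k} {v v' : V}, nd n c k (v + v') → nd n c k v := by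
  induction c with
  | nil => exact fun _ => trivial
  | cons mv tl ih => exact fun h => ⟨fun e => le_trans (Nat.le_add_right _ _) (h.1 e), ih h.2⟩

theorem Bd.tl {mv : Bool} {tl : List Bool} {k : ℕ} {v : V} (h : Bd d (mv :: tl) k v) :
    Bd d tl (k + 1) v := ⟨h.1, h.2.2⟩

theorem ixp_le (hb : ∀ v : V, (∀ j, v j ≤ d) → base v + W ≤ B) (c : List Bool) :
    ∀ k v, Bd d c k v → ixp d B base c k v + W ≤ sb d B c := by
  induction c with
  | nil => exact fun _ v h => hb v h.1
  | cons mv tl ih =>
    intro k v h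
    have h1 := ih _ _ h.tl
    have h2 : v k + 1 ≤ rad d mv := by
      cases mv
      · exact Nat.succ_le_succ (h.2.1 rfl)
      · exact Nat.succ_le_succ (h.1 k)
    have h3 := Nat.mul_le_mul_right (sb d B tl) h2
    change _ ≤ rad d mv * sb d B tl
    rw [ixp]; nlinarith

theorem mkM_lt (c : List Bool) : mkM d B c < 2 ^ sb d B c := by
  induction c with
  | nil => exact Nat.sub_lt (Nat.two_pow_pos _) one_pos
  | cons mv tl ih =>
    refine (rp_lt ih _).trans_le (Nat.pow_le_pow_right two_pos (Nat.mul_le_mul_right _ ?_))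
    cases mv
    · exact (by decide : 2 ≤ 3)
    · exact le_rfl

theorem mkM_land (hb : ∀ v : V, (∀ j, v j ≤ d) → base v + W ≤ B) (c : List Bool) :
    ∀ k A, Ok W (Bd d c k) A → Nat.land (mkM d B c) (pr A fun v => 2 ^ ixp d B base c k v) =
      pr (Fl (nd 1 c k) A) fun v => 2 ^ ixp d B base c k v := by
  induction c with
  | nil =>
    intro k A o
    rw [pr_Fl]
    refine (Nat.and_comm _ _).trans ((land_on _ _).trans ((Nat.mod_eq_of_lt
      (o.mono (ixp_le hb [] k)).lt).trans ?_))
    simp [nd]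
  | cons mv tl ih =>
    intro k A o
    have := dg_rp (ixp_le hb tl (k + 1)) (mkM_lt tl) (ih (k + 1)) (o.mono fun _ h => h.tl) k
      (@Bool.rec (fun _ => ℕ) 2 (Nat.succ d) mv) 0
    rw [dg_zero, dg_zero] at this
    refine this.trans ?_
    rw [pr_Fl, pr_Fl]
    refine o.2.eq fun v hv => ?_
    have h1 := hv.1 k
    refine if_congr ?_ rfl rfl
    cases mv
    · simp only [nd, forall_const]; rw [and_comm]; exact and_congr_left fun _ => by omega
    · simp only [nd, Bool.true_eq_false, false_imp_iff, true_and, and_iff_left_iff_imp]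
      exact fun _ => by omega

def TB (W : ℕ) (base : V → ℕ) (L M : SL → ℕ) : ℕ → ℕ → ST → Bg → Prop
  | 0, _, t, A => match t with
    | .l S => pr A (fun _ => 1) ≤ M S ∧
      (pr A (fun _ => 1) < 2 ^ W - 1 → L S = pr A fun v => 2 ^ base v)
    | _ => A = 0
  | n + 1, k, t, A => match t with
    | .b s t => ∃ A0 A1, A = A0 + A1 ∧ Al A0 (fun v => v k = 0) ∧ Al A1 (fun v => v k = 1) ∧
      TB W base L M n (k + 1) s A0 ∧ TB W base L M n (k + 1) t A1
    | _ => A = 0

variable {L M : SL → ℕ}

theorem fdm_le (n : ℕ) : ∀ {k t A}, TB W base L M n k t A → pr A (fun _ => 1) ≤ fdm M t := by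
  induction n with
  | zero =>
    intro k t A h
    cases t with
    | l S => exact h.1
    | e => obtain rfl : A = 0 := h; simp
    | b => obtain rfl : A = 0 := h; simp
  | succ n ih =>
    intro k t A h
    cases t with
    | l S => obtain rfl : A = 0 := h; simp
    | e => obtain rfl : A = 0 := h; simp
    | b s t =>
      obtain ⟨A0, A1, rfl, -, -, h0, h1⟩ := h
      rw [pr_add]
      exact add_le_add (ih h0) (ih h1)

theorem fd2_eq (c : List Bool) : ∀ {k t A}, TB W base L M c.length k t A →
    pr A (fun _ => 1) < 2 ^ W - 1 → fd2 d B L c t = pr A fun v => 2 ^ ixp d B base c k v := by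
  induction c with
  | nil =>
    intro k t A h m
    cases t with
    | l S => exact h.2 m
    | e => obtain rfl : A = 0 := h; simp [fd2]
    | b => obtain rfl : A = 0 := h; simp [fd2]
  | cons mv tl ih =>
    intro k t A h m
    cases t with
    | l S => obtain rfl : A = 0 := h; simp [fd2]
    | e => obtain rfl : A = 0 := h; simp [fd2]
    | b s t =>
      obtain ⟨A0, A1, rfl, a0, a1, h0, h1⟩ := h
      rw [pr_add] at m
      change fd2 d B L tl s + Nat.shiftLeft (fd2 d B L tl t) (sb d B tl) = _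
      rw [ih h0 (by omega), ih h1 (by omega), shl_eq, ← pr_mulf, pr_add]
      congr 1
      · exact a0.eq fun v hv => by simp [ixp, hv]
      · exact a1.eq fun v hv => by simp [ixp, hv, pow_add, mul_comm]

theorem fd1_rep (c a : List Bool) : ∀ {k t A}, TB W base L M (a.length + c.length) k t A →
    pr A (fun _ => 1) < 2 ^ W - 1 →
      rep (ixp d B base c (k + a.length)) a k (fd1 (fd2 d B L c) a t) A := by
  induction a with
  | nil => intro k t A h m; exact fd2_eq c (by simpa using h) m
  | cons mv tl ih =>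
    intro k t A h m
    rw [List.length_cons, add_right_comm] at h
    cases t with
    | l S => obtain rfl : A = 0 := h; exact rep_z _ _
    | e => obtain rfl : A = 0 := h; exact rep_z _ _
    | b s t =>
      obtain ⟨A0, A1, rfl, a0, a1, h0, h1⟩ := h
      rw [pr_add] at m
      have r0 := ih h0 (by omega)
      have r1 := ih h1 (by omega)
      rw [List.length_cons, add_comm tl.length, ← add_assoc]
      have e0 : Fl (fun v => v k = 0) (A0 + A1) = A0 := ext_pr fun φ => by
        rw [pr_Fl, pr_add, a0.eq (ψ := φ) fun v hv => if_pos hv,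
          a1.eq (ψ := fun _ => 0) fun v hv => if_neg (by omega), pr_zerof, add_zero]
      have e1 : Fl (fun v => v k = 1) (A0 + A1) = A1 := ext_pr fun φ => by
        rw [pr_Fl, pr_add, a1.eq (ψ := φ) fun v hv => if_pos hv,
          a0.eq (ψ := fun _ => 0) fun v hv => if_neg (by omega), pr_zerof, zero_add]
      rw [rep, e0, e1]
      refine ⟨r0, r1, ?_⟩
      rintro rfl
      exact rep_add _ r0 r1

/-! ### states -/

abbrev St := ℕ × DT × ℕ

noncomputable def sS {β : Type} [AddCommMonoid β] (f : St → β) : SL → β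
  | .nil => 0
  | .cons a t i S => f (a, t, i) + sS f S

noncomputable def adv (κ : ℕ) (mv : Bool) (s : St) (m : Bool) : St :=
  (dd κ mv (s.1 + b2 m), nx s.2.1 (Nat.beq s.1 (κ - 1)) m, ni s.2.1 s.2.2 (Nat.beq s.1 (κ - 1)))

section
variable {β : Type} [AddCommMonoid β] (f : St → β)

theorem sS_kq0 (a0 a1 : ℕ) (t : DT) (i : ℕ) (r : SL) : sS f (kq0 a0 a1 t i r) =
    f (a0, nx t false false, ni t i false) + f (a1, nx t false true, ni t i false) + sS f r := by
  rw [add_assoc]; cases t <;> rfl

theorem sS_kq1 (a0 a1 : ℕ) (t : DT) (i : ℕ) (r : SL) : sS f (kq1 a0 a1 t i r) =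
    f (a0, nx t true false, ni t i true) + f (a1, nx t true true, ni t i true) + sS f r := by
  rw [add_assoc]; cases t <;> rfl

theorem beq_t {a b : ℕ} (h : a = b) : Nat.beq a b = true := h ▸ Nat.beq_refl a
theorem beq_f {a b : ℕ} (h : a ≠ b) : Nat.beq a b = false := by
  cases e : Nat.beq a b
  · rfl
  · exact absurd (Nat.eq_of_beq_eq_true e) h

theorem sS_spl1 {κ : ℕ} (hκ : 3 ≤ κ) (mv : Bool) (S : SL) :
    sS f (spl1 (dd κ mv 1) (dd κ mv 2) S) =
      sS (fun s => if s.1 = 1 then f (adv κ mv s false) + f (adv κ mv s true) else 0) S := by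
  induction S with
  | nil => rfl
  | cons a t i S ih =>
    rw [sS, ← ih]
    change sS f (@Bool.rec (fun _ => SL) _ _ (Nat.beq a 1)) = _
    by_cases h : a = 1
    · rw [beq_t h, if_pos h, sS_kq0]
      subst h
      simp only [adv, beq_f (show 1 ≠ κ - 1 by omega)]
      rfl
    · rw [beq_f h, if_neg h, zero_add]; rfl

theorem sS_spl0 {κ : ℕ} (hκ : 3 ≤ κ) (mv : Bool) (S : SL) :
    sS f (spl0 κ (κ - 1) (ee κ mv) (dd κ mv 0) (dd κ mv 1) (dd κ mv (κ - 1)) (dd κ mv κ) S) =
      sS (fun s => if s.1 = 1 then 0 else f (adv κ mv s false) + f (adv κ mv s true)) S := by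
  induction S with
  | nil => rfl
  | cons a t i S ih =>
    rw [sS, ← ih]
    change sS f (@Bool.rec (fun _ => SL) (@Bool.rec (fun _ => SL) (@Bool.rec (fun _ => SL)
      _ _ (Nat.beq a 0)) _ (Nat.beq a (κ - 1))) _ (Nat.beq a 1)) = _
    by_cases h : a = 1
    · rw [beq_t h, if_pos h, zero_add]; rfl
    rw [beq_f h, if_neg h]
    by_cases h1 : a = κ - 1
    · simp only [adv, beq_t h1]
      rw [sS_kq1, h1, show κ - 1 + b2 true = κ from Nat.sub_add_cancel (by omega)]
      rfl
    simp only [adv, beq_f h1]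
    by_cases h2 : a = 0
    · rw [beq_t h2, sS_kq0, h2]; rfl
    rw [beq_f h2]
    have e1 : dd κ mv (a + b2 true) = (dd κ mv a + 1) % κ := by
      change (a + 1 + ee κ mv) % κ = ((a + ee κ mv) % κ + 1) % κ
      rw [Nat.mod_add_mod, add_right_comm]
    rw [e1]
    change sS f (@Nat.rec (fun _ => SL) _ _ (dd κ mv a)) = f (dd κ mv a, _) + _ + _
    cases dd κ mv a with
    | zero => rw [zero_add, Nat.mod_eq_of_lt (by omega : 1 < κ)]; exact sS_kq0 ..
    | succ m => exact sS_kq0 ..

theorem sS_flt1 (S : SL) : sS f (flt1 S) = sS (fun s => if s.1 = 1 then f s else 0) S := by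
  induction S with
  | nil => rfl
  | cons a t i S ih =>
    rw [sS, ← ih]
    change sS f (@Bool.rec (fun _ => SL) _ _ (Nat.beq a 1)) = _
    by_cases h : a = 1
    · rw [beq_t h, if_pos h]; rfl
    · rw [beq_f h, if_neg h, zero_add]; rfl

theorem sS_flt0 (S : SL) : sS f (flt0 S) = sS (fun s => if s.1 = 1 then 0 else f s) S := by
  induction S with
  | nil => rfl
  | cons a t i S ih =>
    rw [sS, ← ih]
    change sS f (@Bool.rec (fun _ => SL) _ _ (Nat.beq a 1)) = _
    by_cases h : a = 1
    · rw [beq_t h, if_pos h, zero_add]; rfl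
    · rw [beq_f h, if_neg h]; rfl

theorem sS_add (g : St → β) (S : SL) : sS (fun s => f s + g s) S = sS f S + sS g S := by
  induction S with
  | nil => exact (add_zero _).symm
  | cons a t i S ih => rw [sS, sS, sS, ih, add_add_add_comm]

theorem sS_S0 (R : DT) (n : ℕ) : sS f (S0 R n) = ∑ a ∈ range n, f (a, R, 0) := by
  induction n with
  | zero => rfl
  | succ n ih => rw [sum_range_succ, ← ih]; exact add_comm _ _

end

theorem Al.sS {f : St → Bg} {p : V → Prop} (h : ∀ s, Al (f s) p) (S : SL) : Al (sS f S) p := by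
  induction S with
  | nil => exact Al.zero p
  | cons a t i S ih => exact (h _).add ih

def us (u : V) (k a : ℕ) : V := if a = 1 then u + Pi.single k 1 else u

noncomputable def cont (κ : ℕ) (lb : V → St → Bg) : List Bool → ℕ → V → St → Bg
  | [], k, u, s => lb (us u k s.1) s
  | mv :: tl, k, u, s => cont κ lb tl (k + 1) (us u k s.1) (adv κ mv s false) +
      cont κ lb tl (k + 1) (us u k s.1) (adv κ mv s true)

variable {κ T : ℕ} {lb : V → St → Bg}

theorem us_ne {u : V} {k a j : ℕ} (h : j ≠ k) : us u k a j = u j := by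
  rw [us]; split_ifs <;> simp [h]

theorem cont_al (hl : ∀ u s, Al (lb u s) fun v => ∀ j < T, v j = u j) (c : List Bool) :
    ∀ k u s j, j < k → j < T → Al (cont κ lb c k u s) fun v => v j = u j := by
  induction c with
  | nil => exact fun k u s j h h' => (hl _ _).mono fun v hv => (hv j h').trans (us_ne h.ne)
  | cons mv tl ih =>
    exact fun k u s j h h' => ((ih _ _ _ j (by omega) h').add (ih _ _ _ j (by omega) h')).mono
      fun v hv => hv.trans (us_ne h.ne)

theorem bt_TB (hκ : 3 ≤ κ) (hl : ∀ u s, Al (lb u s) fun v => ∀ j < T, v j = u j)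
    (hL : ∀ u : V, (∀ j, T ≤ j → u j = 0) → ∀ S, TB W base L M 0 0 (.l S) (sS (lb u) S))
    (c : List Bool) : ∀ k (u : V) S, k + c.length < T → (∀ j, k ≤ j → u j = 0) →
      TB W base L M (c.length + 1) k (bt κ c S) (sS (cont κ lb c k u) S) := by
  have hu : ∀ k (u : V), (∀ j, k ≤ j → u j = 0) → ∀ j, k + 1 ≤ j →
      (u + Pi.single k 1 : V) j = 0 := fun k u h j hj => by
    simp [h j (by omega), show j ≠ k by omega]
  induction c with
  | nil =>
    intro k u S hk h
    have hk' : k < T := hk
    refine ⟨sS (lb u) (flt0 S), sS (lb (u + Pi.single k 1)) (flt1 S), ?_,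
      Al.sS (fun s => (hl _ _).mono fun v hv => by rw [hv k hk', h k le_rfl]) _,
      Al.sS (fun s => (hl _ _).mono fun v hv => by simp [hv k hk', h k le_rfl]) _,
      hL _ (fun j hj => h j (by omega)) _, hL _ (fun j hj => hu k u h j (by omega)) _⟩
    rw [sS_flt0, sS_flt1, ← sS_add]
    congr 1; funext s
    rw [cont, us]; split_ifs <;> simp
  | cons mv tl ih =>
    intro k u S hk h
    rw [List.length_cons] at hk ⊢
    cases S with
    | nil => exact rfl
    | cons a t i S =>
      refine ⟨_, _, ?_,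
        Al.sS (fun s => (cont_al hl tl _ _ s k (by omega) (by omega)).mono fun v hv => by
          rw [hv, h k le_rfl]) _,
        Al.sS (fun s => (cont_al hl tl _ _ s k (by omega) (by omega)).mono fun v hv => by
          rw [hv]; simp [h k le_rfl]) _,
        ih _ u _ (by omega) fun j hj => h j (by omega), ih _ _ _ (by omega) (hu k u h)⟩
      refine Eq.trans ?_ (congrArg₂ (· + ·) (sS_spl0 _ hκ mv _) (sS_spl1 _ hκ mv _)).symm
      rw [← sS_add]
      congr 1; funext s
      rw [cont, us]; split_ifs <;> simp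

noncomputable def run (κ : ℕ) (R : DT) (a x y : ℕ) : ℕ → St
  | 0 => (a, R, 0)
  | t + 1 => adv κ (y.testBit t) (run κ R a x y t) (x.testBit t)

noncomputable def uv (κ : ℕ) (R : DT) (a x y : ℕ) : ℕ → V
  | 0 => 0
  | t + 1 => us (uv κ R a x y t) t (run κ R a x y t).1

theorem run_congr {R : DT} {a x x' y : ℕ} (t : ℕ) (h : ∀ s < t, x.testBit s = x'.testBit s) :
    run κ R a x y t = run κ R a x' y t ∧ uv κ R a x y t = uv κ R a x' y t := by
  induction t with
  | zero => exact ⟨rfl, rfl⟩
  | succ t ih =>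
    obtain ⟨h1, h2⟩ := ih fun s hs => h s (by omega)
    rw [run, run, uv, uv, h1, h2, h t (by omega)]
    exact ⟨rfl, rfl⟩

theorem mkL_len (x n : ℕ) : ∀ k, (mkL x n k).length = n := by
  induction n with
  | zero => exact fun _ => rfl
  | succ n ih => exact fun k => congrArg (· + 1) (ih _)

theorem sum_two_pow {β : Type} [AddCommMonoid β] (f : ℕ → β) (j : ℕ) :
    ∑ x ∈ range (2 ^ (j + 1)), f x = ∑ x ∈ range (2 ^ j), (f x + f (2 ^ j + x)) := by
  rw [pow_succ, mul_two, sum_range_add, sum_add_distrib]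

theorem tb_add {x j s : ℕ} (h : s < j) : (2 ^ j + x).testBit s = x.testBit s :=
  Nat.testBit_two_pow_add_gt h x

theorem tb_top {x j : ℕ} (h : x < 2 ^ j) : (2 ^ j + x).testBit j = true := by
  rw [Nat.testBit_two_pow_add_eq, Nat.testBit_lt_two_pow h]; rfl

theorem cont_sum (R : DT) (a y : ℕ) (j : ℕ) : ∀ n, ∑ x ∈ range (2 ^ j),
    cont κ lb (mkL y n j) j (uv κ R a x y j) (run κ R a x y j) =
      cont κ lb (mkL y (j + n) 0) 0 0 (a, R, 0) := by
  induction j with
  | zero => intro n; simp [uv, run]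
  | succ j ih =>
    intro n
    rw [add_right_comm, add_assoc, ← ih, sum_two_pow]
    refine sum_congr rfl fun x hx => ?_
    have hx' := mem_range.1 hx
    obtain ⟨h1, h2⟩ := run_congr (κ := κ) (R := R) (a := a) (y := y) j
      fun s hs => tb_add (x := x) hs
    rw [uv, uv, run, run, h1, h2, tb_top hx', Nat.testBit_lt_two_pow hx']
    rfl

/-- the bag of all children of a vertex with moves `y`, up to level `k + 1` -/
noncomputable def bag (κ : ℕ) (R : DT) (lb : V → St → Bg) (k y : ℕ) : Bg :=
  ∑ a ∈ range κ, ∑ x ∈ range (2 ^ k), lb (uv κ R a x y (k + 1)) (run κ R a x y k)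

theorem st_TB (hκ : 3 ≤ κ) (hl : ∀ u s, Al (lb u s) fun v => ∀ j < T, v j = u j)
    (hL : ∀ u : V, (∀ j, T ≤ j → u j = 0) → ∀ S, TB W base L M 0 0 (.l S) (sS (lb u) S))
    (R : DT) {k : ℕ} (hk : k < T) (y : ℕ) :
    TB W base L M (k + 1) 0 (bt κ (mkL y k 0) (S0 R κ)) (bag κ R lb k y) := by
  have := bt_TB hκ hl hL (mkL y k 0) 0 0 (S0 R κ) (by rw [mkL_len]; omega) fun _ _ => rfl
  rw [mkL_len, sS_S0] at this
  convert this using 1
  exact sum_congr rfl fun a _ => cont_sum R a y k 0

end Pool.Agent.P.MP_5517c4_pr.Cca
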