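import Pool.Agent.P.MP_5517c4_pr.Cca.Rd

/-! Soundness of the cap part of the checker. -/

set_option autoImplicit false

namespace Pool.Agent.P.MP_5517c4_pr.Cca

open Finset
open scoped Classical

noncomputable def ic (d W T : ℕ) : ℕ → ℕ → V → ℕ
  | 0, _, _ => 0
  | q + 1, b, v => sc d W q * v (T + b) + ic d W T q (b + 1) v

variable {d W T : ℕ}

theorem ic_add (q : ℕ) : ∀ b v v', ic d W T q b (v + v') = ic d W T q b v + ic d W T q b v' := by
  induction q with
  | zero => exact fun _ _ _ => rfl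
  | succ q ih => intro b v v'; simp only [ic, ih, Pi.add_apply]; ring

theorem ic_le (q : ℕ) : ∀ b (v : V), (∀ j, v (T + j) ≤ d) → ic d W T q b v + W ≤ sc d W q := by
  induction q with
  | zero => intro b v _; simp [ic, sc]
  | succ q ih =>
    intro b v h
    have h1 := ih (b + 1) v h
    have h2 := Nat.mul_le_mul_left (sc d W q) (h b)
    have h3 : sc d W (q + 1) = sc d W q * d + sc d W q := by
      change W * (d + 1) ^ (q + 1) = W * (d + 1) ^ q * d + W * (d + 1) ^ q; ring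
    rw [ic]; omega

theorem ic_dvd (q : ℕ) : ∀ b (v : V), W ∣ ic d W T q b v := by
  induction q with
  | zero => exact fun _ _ => dvd_zero _
  | succ q ih => exact fun b v => dvd_add ((dvd_mul_right W _).mul_right _) (ih _ _)

def ls {α β : Type} [AddCommMonoid β] : List α → (α → ℕ → β) → ℕ → β
  | [], _, _ => 0
  | a :: L, f, p => f a p + ls L f (p + 1)

theorem ls_append {α β : Type} [AddCommMonoid β] (L L' : List α) (f : α → ℕ → β) :
    ∀ p, ls (L ++ L') f p = ls L f p + ls L' f (p + L.length) := by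
  induction L with
  | nil => intro p; simp [ls]
  | cons a L ih =>
    intro p
    rw [List.cons_append, ls, ls, ih, add_assoc (f a p), List.length_cons, add_assoc p, add_comm 1]

theorem ls_mono {α : Type} {f g : α → ℕ → ℕ} (h : ∀ a p, f a p ≤ g a p) (L : List α) :
    ∀ p, ls L f p ≤ ls L g p := by
  induction L with
  | nil => exact fun _ => le_rfl
  | cons a L ih => exact fun p => add_le_add (h _ _) (ih _)

theorem ls_mul {α : Type} (f : α → ℕ → ℕ) (c : ℕ) (L : List α) :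
    ∀ p, ls L (fun a i => f a i * c) p = ls L f p * c := by
  induction L with
  | nil => intro p; simp [ls]
  | cons a L ih => intro p; rw [ls, ls, ih, add_mul]

theorem ls_add {α : Type} (f g : α → ℕ → ℕ) (L : List α) :
    ∀ p, ls L (fun a i => f a i + g a i) p = ls L f p + ls L g p := by
  induction L with
  | nil => intro p; simp [ls]
  | cons a L ih => intro p; rw [ls, ls, ls, ih, add_add_add_comm]

theorem pr_ls {α : Type} (f : α → ℕ → Bg) (φ : V → ℕ) (L : List α) :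
    ∀ p, pr (ls L f p) φ = ls L (fun a i => pr (f a i) φ) p := by
  induction L with
  | nil => intro p; simp [ls]
  | cons a L ih => intro p; rw [ls, ls, pr_add, ih]

theorem Al.ls {α : Type} {f : α → ℕ → Bg} {q : V → Prop} (h : ∀ a i, Al (f a i) q) (L : List α) :
    ∀ p, Al (ls L f p) q := by
  induction L with
  | nil => exact fun _ => Al.zero _
  | cons a L ih => exact fun p => (h _ _).add (ih _)

theorem reps_len (j : ℕ) : ∀ b ρ, (reps j b ρ).length + 1 = 2 ^ (j + 1) := by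
  induction j with
  | zero => exact fun _ _ => rfl
  | succ j ih =>
    intro b ρ
    have := ih (b + 1) (up b 1 ρ)
    have := ih (b + 1) (up b 2 ρ)
    rw [reps, List.length_cons, List.length_append, pow_succ]; omega

theorem treps_len (j : ℕ) : ∀ b ρ, (treps j b ρ).length = 2 ^ j := by
  induction j with
  | zero => exact fun _ _ => rfl
  | succ j ih => intro b ρ; rw [treps, List.length_append, ih, ih, pow_succ, mul_two]

/-- the cap counts `ρ` are at least as dangerous as `k` -/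
def Pc (k ρ : ℕ → ℕ) : Prop :=
  ∀ (r : ℕ) (ε : ℕ → ℕ), (∀ b, ε b ≤ 1) → (∀ b < r, 2 ≤ k b + ε b) → ∀ b < r, 2 ≤ ρ b + ε b

def Pf (T b : ℕ) (ρ : ℕ → ℕ) (v : V) : Prop := ∀ c < b, v (T + c) ≤ ρ c ∨ 2 ≤ ρ c

def bad (L : ℕ) (k : ℕ → ℕ) : Prop := ∀ b < L, 1 ≤ k b

theorem cp_z (d W SC E F p q : ℕ) (rt : Bool) (s g : ℕ) : cp d W SC E F 0 p q rt s g =
    an (Nat.ble s (wv E p * SC)) (Nat.ble (wv E p * SC + d * g)
      (cd (Nat.shiftRight F (13 * q)) * SC)) := rfl

theorem cp_s (d W SC E F j p q : ℕ) (rt : Bool) (s g : ℕ) : cp d W SC E F (j + 1) p q rt s g =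
    an (@Bool.rec (fun _ => Bool) (Nat.ble (Nat.mod (Nat.land s (on (sc d W j))) (on W))
      (wv E p * SC)) true rt) (an (cp d W SC E F j (p + 1) q false
        (Nat.land (Nat.shiftRight s (sc d W j)) (on (sc d W j)))
        (Nat.land (Nat.shiftRight g (sc d W j)) (on (sc d W j))))
      (cp d W SC E F j (p + 2 ^ (j + 1)) (q + 2 ^ j) false
        (sd (sc d W j) (d - 2) (Nat.shiftRight (Nat.shiftRight s (sc d W j)) (sc d W j)))
        (sd (sc d W j) (d - 2) (Nat.shiftRight (Nat.shiftRight g (sc d W j)) (sc d W j))))) := rfl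

theorem pr_3 (A : Bg) (k : ℕ) (φ : V → ℕ) : pr A φ = pr (Fl (fun v => v k = 0) A) φ +
    (pr (Fl (fun v => v k = 0 + 1) A) φ + pr (Fl (fun v => 0 + 1 + 1 ≤ v k) A) φ) := by
  simp only [pr_Fl, ← pr_addf]
  congr 1; funext v; split_ifs <;> omega

theorem cp_sound (hd : 2 ≤ d) {SC E F L : ℕ} (j : ℕ) : ∀ b ρ p q rt A G,
    Ok W (fun v => (∀ c, v c ≤ d) ∧ Pf T b ρ v) A → Ok W (fun v => (∀ c, v c ≤ d) ∧ Pf T b ρ v) G →
    b + j ≤ L → cp d W SC E F j p q rt (pr A fun v => 2 ^ ic d W T j b v)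
      (pr G fun v => 2 ^ ic d W T j b v) = true → ∀ θ : (ℕ → ℕ) → ℕ, (∀ k ρ, Pc k ρ → θ k ≤ θ ρ) →
    ((rt = true → j ≠ 0 → θ ρ = 0) → pr A (fun v => θ fun c => v (T + c)) ≤
      ls (reps j b ρ) (fun ρ i => wv E i * θ ρ) p * SC) ∧
    pr A (fun v => if bad L fun c => v (T + c) then θ fun c => v (T + c) else 0) +
      d * pr G (fun v => if bad L fun c => v (T + c) then θ fun c => v (T + c) else 0) ≤
      ls (treps j b ρ) (fun ρ i => cd (Nat.shiftRight F (13 * i)) * θ ρ) q * SC := by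
  induction j with
  | zero =>
    intro b ρ p q rt A G oA oG _ h θ hθ
    rw [cp_z, an_iff, ble_iff, ble_iff] at h
    simp only [ic, pow_zero] at h
    have k : ∀ v, (∀ c, v c ≤ d) ∧ Pf T b ρ v → (θ fun c => v (T + c)) ≤ 1 * θ (tp b ρ) := by
      intro v hv
      rw [one_mul]
      refine hθ _ _ fun r ε _ h c hc => ?_
      have := h c hc
      rw [tp]
      split_ifs with e
      · rcases hv.2 c e with e | e <;> omega
      · omega
    have k' : ∀ v, (∀ c, v c ≤ d) ∧ Pf T b ρ v → (if bad L fun c => v (T + c) then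
        θ fun c => v (T + c) else 0) ≤ 1 * θ (tp b ρ) := fun v hv => by
      split_ifs
      exacts [k v hv, Nat.zero_le _]
    have k1 := oA.2 _ _ k
    have k2 := oA.2 _ _ k'
    have k3 := oG.2 _ _ k'
    rw [pr_mulf] at k1 k2 k3
    simp only [reps, treps, ls, add_zero]
    have h1 := Nat.mul_le_mul_right (θ (tp b ρ)) h.1
    have h2 := Nat.mul_le_mul_right (θ (tp b ρ)) h.2
    have h3 := Nat.mul_le_mul_left d k3
    exact ⟨fun _ => by nlinarith, by nlinarith⟩
  | succ j ih =>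
    intro b ρ p q rt A G oA oG hL h θ hθ
    have qA := oA.mono fun v hv => ic_le (W := W) (T := T) j (b + 1) v fun _ => hv.1 _
    have qG := oG.mono fun v hv => ic_le (W := W) (T := T) j (b + 1) v fun _ => hv.1 _
    have e : ∀ v : V, (∀ c, v c ≤ d) ∧ Pf T b ρ v → v (T + b) ≤ 0 + 1 + 1 + (d - 2) :=
      fun v hv => (hv.1 _).trans (by omega)
    simp only [ic, ← dg_zero] at h
    rw [cp_s, an_iff, an_iff] at h
    simp only [dg_shr qA, dg_shr qG, dg_land qA, dg_land qG, dg_sd qA _ _ _ (oA.2.mono e),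
      dg_sd qG _ _ _ (oG.2.mono e)] at h
    obtain ⟨h0, h1, h2⟩ := h
    have o1 : ∀ {X}, Ok W (fun v => (∀ c, v c ≤ d) ∧ Pf T b ρ v) X →
        Ok W (fun v => (∀ c, v c ≤ d) ∧ Pf T (b + 1) (up b 1 ρ) v)
          (Fl (fun v => v (T + b) = 0 + 1) X) := fun o =>
      ⟨(o.Fl _).1, (o.2.Fl _).mono fun v hv => ⟨hv.1.1, fun c hc => by
        rw [up]; split_ifs with e
        · rw [e, hv.2]; simp
        · exact hv.1.2 c (by omega)⟩⟩
    have o2 : ∀ {X}, Ok W (fun v => (∀ c, v c ≤ d) ∧ Pf T b ρ v) X →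
        Ok W (fun v => (∀ c, v c ≤ d) ∧ Pf T (b + 1) (up b 2 ρ) v)
          (Fl (fun v => 0 + 1 + 1 ≤ v (T + b)) X) := fun o =>
      ⟨(o.Fl _).1, (o.2.Fl _).mono fun v hv => ⟨hv.1.1, fun c hc => by
        rw [up]; split_ifs with e
        · simp
        · exact hv.1.2 c (by omega)⟩⟩
    obtain ⟨a1, g1⟩ := ih _ _ _ _ _ _ _ (o1 oA) (o1 oG) (by omega) h1 θ hθ
    obtain ⟨a2, g2⟩ := ih _ _ _ _ _ _ _ (o2 oA) (o2 oG) (by omega) h2 θ hθ
    have z : ∀ X, pr (Fl (fun v => v (T + b) = 0) X) (fun v => if bad L fun c => v (T + c) then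
        θ fun c => v (T + c) else 0) = 0 := fun X => by
      rw [pr_Fl]
      refine Eq.trans (congrArg _ (funext fun v => ?_)) (pr_zerof X)
      split_ifs with e1 e2
      · have := e2 b (by omega); simp only [e1] at this; omega
      · rfl
      · rfl
    refine ⟨fun hr => ?_, ?_⟩
    · have a0 : pr (Fl (fun v => v (T + b) = 0) A) (fun v => θ fun c => v (T + c)) ≤
          wv E p * θ ρ * SC := by
        refine ((oA.2.Fl _) _ (fun _ => 1 * θ ρ) fun v hv => ?_).trans ?_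
        · rw [one_mul]
          refine hθ _ _ fun r ε hε h c hc => ?_
          have h3 : r ≤ b := not_lt.1 fun k => by
            have := h b k; have := hε b; have := hv.2; omega
          have := h c hc
          rcases hv.1.2 c (by omega) with e | e <;> omega
        · rw [pr_mulf]
          cases rt
          · rw [pr_mod ((oA.Fl _).mono fun v _ => ic_dvd j (b + 1) v)] at h0
            have := Nat.mul_le_mul_right (θ ρ) (ble_iff.1 h0)
            nlinarith
          · simp [hr rfl (by omega)]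
      have hl := reps_len j (b + 1) (up b 1 ρ)
      rw [pr_3 A (T + b), reps, ls, ls_append, add_mul, add_mul,
        show p + 1 + (reps j (b + 1) (up b 1 ρ)).length = p + 2 ^ (j + 1) by omega]
      exact add_le_add a0 (add_le_add (a1 (by simp)) (a2 (by simp)))
    · rw [pr_3 A (T + b), pr_3 G (T + b), z, z, treps, ls_append, add_mul, treps_len]
      linarith

/-! ### leaves -/

theorem lp_eq {α : Type} (m : α → ℕ) (r : ℕ) (L : List α) : ∀ p,
    lp (L.map m) (Nat.shiftRight r (13 * p)) =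
      ls L (fun a i => cd (Nat.shiftRight r (13 * i)) * m a) p := by
  induction L with
  | nil => exact fun _ => rfl
  | cons a L ih =>
    intro p
    rw [ls, ← ih, mul_add, mul_one]
    exact congrArg (_ + lp _ ·) (Nat.shiftRight_add r _ 13).symm

theorem ls_succ {α β : Type} [AddCommMonoid β] (f : α → ℕ → β) (L : List α) :
    ∀ p, ls L f (p + 1) = ls L (fun a i => f a (i + 1)) p := by
  induction L with
  | nil => exact fun _ => rfl
  | cons a L ih => intro p; rw [ls, ls, ih]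

theorem lq_eq {α : Type} (m : α → ℕ) (E : ℕ) (L : List α) :
    lq (L.map m) E = ls L (fun a i => wv E i * m a) 0 := by
  cases L with
  | nil => rfl
  | cons a L =>
    rw [ls, ls_succ]
    have := lp_eq m (Nat.shiftRight E 20) L 0
    refine (congrArg (w1 E * m a + ·) this).trans ?_
    congr 2; funext a i
    exact congrArg (cd · * m a) (Nat.shiftRight_add E 20 _).symm

/-- sum over the classes of a leaf -/
noncomputable def lfs {β : Type} [AddCommMonoid β] (rp : ℕ → List (ℕ → ℕ)) (val : ℕ → ℕ → ℕ → ℕ → ℕ)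
    (f : (ℕ → ℕ) → ℕ → β) : DT → ℕ → β
  | .F h v, i => ls (rp h) (fun ρ p => f ρ (val v i h p)) 0
  | _, _ => 0

def rR (h : ℕ) : List (ℕ → ℕ) := reps h 0 fun _ => 0
def rG (h : ℕ) : List (ℕ → ℕ) := treps h 0 fun _ => 0
noncomputable def vR (v i h p : ℕ) : ℕ := wv (eL v i h) p
noncomputable def vG (v i h p : ℕ) : ℕ := cd (Nat.shiftRight (eG v i h) (13 * p))

theorem lfR_eq (m : (ℕ → ℕ) → ℕ) (t : DT) (i : ℕ) :
    lfR (fun h => (rR h).map m) t i = lfs rR vR (fun ρ w => w * m ρ) t i := by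
  cases t
  exacts [rfl, rfl, rfl, lq_eq _ _ _]

theorem lfG_eq (m : (ℕ → ℕ) → ℕ) (t : DT) (i : ℕ) :
    lfG (fun h => (rG h).map m) t i = lfs rG vG (fun ρ w => w * m ρ) t i := by
  cases t
  exacts [rfl, rfl, rfl, lp_eq _ _ _ 0]

theorem pr_lfs (rp : ℕ → List (ℕ → ℕ)) (val : ℕ → ℕ → ℕ → ℕ → ℕ) (f : (ℕ → ℕ) → V) (φ : V → ℕ)
    (t : DT) (i : ℕ) : pr (lfs rp val (fun ρ w => sg (f ρ) w) t i) φ =
      lfs rp val (fun ρ w => w * φ (f ρ)) t i := by
  cases t <;> simp [lfs, pr_ls]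

theorem Al.lfs {rp : ℕ → List (ℕ → ℕ)} {val : ℕ → ℕ → ℕ → ℕ → ℕ} {f : (ℕ → ℕ) → V} {q : V → Prop}
    (h : ∀ ρ, q (f ρ)) (t : DT) (i : ℕ) : Al (lfs rp val (fun ρ w => Cca.sg (f ρ) w) t i) q := by
  cases t
  exacts [Al.zero _, Al.zero _, Al.zero _, Al.ls (fun _ _ => Al.sg (h _) _) _ _]

def capv (T : ℕ) (c : ℕ → Bool) : V := fun j => if T ≤ j ∧ c (j - T) = true then 1 else 0

noncomputable def lbV (T o : ℕ) (u : V) (s : St) : Bg :=
  sg (u + capv T fun _ => true) (vI o (nv s.2.1) s.2.2)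

noncomputable def lbF (κ T : ℕ) (rp : ℕ → List (ℕ → ℕ)) (val : ℕ → ℕ → ℕ → ℕ → ℕ) (u : V)
    (s : St) : Bg := lfs rp val (fun ρ w => sg (u + capv T (cf κ s.1 ρ)) w) s.2.1 s.2.2

noncomputable def lbC (κ T o : ℕ) (rp : ℕ → List (ℕ → ℕ)) (val : ℕ → ℕ → ℕ → ℕ → ℕ) (mv : Bool)
    (u : V) (s : St) : Bg :=
  if isO (adv κ mv s false).2.1 = true then lbV T o u s
  else lbF κ T rp val u (adv κ mv s false) + lbF κ T rp val u (adv κ mv s true)

theorem lbC_al {κ o : ℕ} {rp : ℕ → List (ℕ → ℕ)} {val : ℕ → ℕ → ℕ → ℕ → ℕ} {mv : Bool} {u : V}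
    {q : V → Prop} (h : ∀ c, q (u + capv T c)) (s : St) : Al (lbC κ T o rp val mv u s) q := by
  rw [lbC]
  split_ifs
  exacts [Al.sg (h _) _, (Al.lfs (fun _ => h _) _ _).add (Al.lfs (fun _ => h _) _ _)]

theorem capv_lo (u : V) (c : ℕ → Bool) (j : ℕ) (h : j < T) : (u + capv T c) j = u j := by
  simp [capv, show ¬T ≤ j by omega]

theorem capv_hi {u : V} (hu : ∀ j, T ≤ j → u j = 0) (c : ℕ → Bool) (b : ℕ) :
    (u + capv T c) (T + b) = if c b = true then 1 else 0 := by
  simp [capv, hu]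

theorem ic_capv {u : V} (hu : ∀ j, T ≤ j → u j = 0) (c : ℕ → Bool) (q : ℕ) :
    ∀ b, ic d W T q b (u + capv T c) = rv d W c q b := by
  induction q with
  | zero => exact fun _ => rfl
  | succ q ih => intro b; rw [ic, rv, ih, capv_hi hu]; split_ifs <;> simp

theorem pr_sS (f : St → Bg) (φ : V → ℕ) (S : SL) : pr (sS f S) φ = sS (fun s => pr (f s) φ) S := by
  induction S with
  | nil => exact pr_zero _
  | cons a t i S ih => rw [sS, sS, pr_add, ih]

theorem itV_TB (o : ℕ) (u : V) (S : SL) :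
    TB W (fun _ => 0) (itV o) (itV o) 0 0 (.l S) (sS (lbV T o u) S) := by
  have : itV o S = pr (sS (lbV T o u) S) fun _ => 1 := by
    rw [pr_sS]
    induction S with
    | nil => rfl
    | cons a t i S ih => rw [sS, ← ih, lbV, pr_sg, mul_one]; rfl
  exact ⟨this.ge, fun _ => this⟩

theorem itC_TB (hd : 1 ≤ d) {κ o l : ℕ} {rp : ℕ → List (ℕ → ℕ)} {val : ℕ → ℕ → ℕ → ℕ → ℕ}
    {lf : (ℕ → List ℕ) → DT → ℕ → ℕ}
    (hlf : ∀ m t i, lf (fun h => (rp h).map m) t i = lfs rp val (fun ρ w => w * m ρ) t i)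
    (mv : Bool) (u : V) (hu : ∀ j, T ≤ j → u j = 0) (S : SL) :
    TB W (ic d W T l 0)
      (lo (sc d W l) (itC lf (fun δ h => (rp h).map fun ρ => mt d W l (cf κ δ ρ)) o
        (mt d W l fun _ => true) κ (ee κ mv)))
      (hi (sc d W l) (itC lf (fun δ h => (rp h).map fun ρ => mt d W l (cf κ δ ρ)) o
        (mt d W l fun _ => true) κ (ee κ mv))) 0 0 (.l S) (sS (lbC κ T o rp val mv u) S) := by
  have h1 : itC lf (fun δ h => (rp h).map fun ρ => mt d W l (cf κ δ ρ)) o
      (mt d W l fun _ => true) κ (ee κ mv) S = pr (sS (lbC κ T o rp val mv u) S)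
        fun v => 2 ^ ic d W T l 0 v + 1 * 2 ^ sc d W l := by
    rw [pr_sS]
    induction S with
    | nil => rfl
    | cons a t i S ih =>
      rw [sS, ← ih]
      have : pr (lbC κ T o rp val mv u (a, t, i)) (fun v => 2 ^ ic d W T l 0 v + 1 * 2 ^ sc d W l) =
          itS lf (fun δ h => (rp h).map fun ρ => mt d W l (cf κ δ ρ)) o
            (mt d W l fun _ => true) κ (ee κ mv) a t i := by
        rw [lbC, itS]
        change _ = cond (isO (adv κ mv (a, t, i) false).2.1) _ _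
        cases isO (adv κ mv (a, t, i) false).2.1
        · simp only [Bool.false_eq_true, if_false, pr_add, lbF, pr_lfs, ic_capv hu, one_mul, hlf,
            cond_false]
          rw [show Nat.succ (Nat.add a (ee κ mv)) = a + 1 + ee κ mv from add_right_comm a _ 1]
          rfl
        · simp only [if_true, lbV, pr_sg, ic_capv hu, one_mul]; rfl
      rw [this]
      cases t with
      | H v p q => cases p <;> rfl
      | _ => rfl
  rw [pr_addf, pr_mulf] at h1
  refine ⟨?_, fun h => ?_⟩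
  · rw [hi, h1, shr_eq, Nat.add_mul_div_right _ _ (Nat.two_pow_pos _)]; exact Nat.le_add_left _ _
  · rw [lo, h1, land_on, Nat.add_mul_mod_self_right, Nat.mod_eq_of_lt]
    refine Ok.lt ⟨h, Al.sS (fun s => lbC_al (fun c => ic_le _ _ _ fun j => ?_) s) S⟩
    rw [capv_hi hu]; split_ifs <;> omega

theorem uv_le {κ : ℕ} {R : DT} {a x y : ℕ} (t : ℕ) :
    ∀ j, uv κ R a x y t j ≤ 1 ∧ (t ≤ j → uv κ R a x y t j = 0) := by
  induction t with
  | zero => exact fun _ => ⟨zero_le_one, fun _ => rfl⟩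
  | succ t ih =>
    intro j
    by_cases e : j = t
    · subst e
      have := (ih j).2 le_rfl
      rw [uv, us]; split_ifs <;> simp [this]
    · rw [uv, us_ne e]; exact ⟨(ih j).1, fun h => (ih j).2 (by omega)⟩

theorem bag_al {κ : ℕ} {R : DT} {lb : V → St → Bg}
    (h : ∀ u s q, (∀ c, q (u + capv T c)) → Al (lb u s) q) {k : ℕ} (hk : k < T) (y : ℕ) :
    Al (bag κ R lb k y) fun v => ∀ j, v j ≤ 1 := by
  refine Al.sum fun a _ => Al.sum fun x _ => h _ _ _ fun c j => ?_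
  rcases lt_or_ge j T with e | e
  · rw [capv_lo _ _ _ e]; exact (uv_le _ _).1
  · rw [Pi.add_apply, (uv_le _ _).2 (by omega), capv]; split_ifs <;> simp

/-- conclusion of one check -/
def Cc (C : Ce) (k x : ℕ) (A G : Bg) (base : V → ℕ) (fin : ℕ → ℕ → DT → ℕ → Bool) : Prop :=
  ∀ a < C.κ, ∀ y, ∃ A' G', Ok C.W (fun v => ∀ j, v j ≤ C.d) A' ∧
    Ok C.W (fun v => ∀ j, v j ≤ C.d) G' ∧
    (∀ φ : V → ℕ, pr (A ^ C.d) (fun v => if cn C.κ C.R a x y k 0 v then φ v else 0) ≤ pr A' φ) ∧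
    (∀ φ : V → ℕ, pr (A ^ (C.d - 1) * G) (fun v => if cn C.κ C.R a x y k 0 v then φ v else 0) ≤
      pr G' φ) ∧
    fin (pr A' fun v => 2 ^ base v) (pr G' fun v => 2 ^ base v)
      (run C.κ C.R a x y k).2.1 (run C.κ C.R a x y k).2.2 = true

variable {C : Ce} {k x : ℕ} {fin : ℕ → ℕ → DT → ℕ → Bool}

theorem stV (hκ : 3 ≤ C.κ) (hk : k < C.T) (o : ℕ) : TB C.W (fun _ => 0) (itV o) (itV o) (k + 1) 0
    (C.st (k + 1) x) (bag C.κ C.R (lbV C.T o) k x) :=
  st_TB hκ (fun _ _ => Al.sg (capv_lo _ _) _) (fun u _ S => itV_TB o u S) _ hk _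

theorem alV (hk : k < C.T) (o : ℕ) : Al (bag C.κ C.R (lbV C.T o) k x) fun v => ∀ j, v j ≤ 1 :=
  bag_al (fun _ _ _ h => Al.sg (h _) _) hk _

theorem ckV_sound (hκ : 3 ≤ C.κ) (hd : C.d = 3 ∨ C.d = 4) (hk : k < C.T)
    (h : C.ckV (k + 1) x fin (C.st (k + 1) x) = true) :
    Cc C (k + 1) x (bag C.κ C.R (lbV C.T 32) k x) (bag C.κ C.R (lbV C.T 64) k x) (fun _ => 0) fin :=
  fun _ ha y => ck_sound C hκ hd (fun _ _ => rfl) (fun _ _ => (zero_add _).le) (stV hκ hk 32)
    (stV hκ hk 64) (alV hk _) (alV hk _) h ha y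

theorem ckM_sound (hκ : 3 ≤ C.κ) (hd : C.d = 3 ∨ C.d = 4) (hk : k < C.T)
    (h : C.ckM (k + 1) x fin (C.st (k + 1) x) = true) :
    Cc C (k + 1) x (bag C.κ C.R (lbV C.T 32) k x) 0 (fun _ => 0) fin :=
  fun _ ha y => ck_sound C hκ hd (fun _ _ => rfl) (fun _ _ => (zero_add _).le) (stV hκ hk 32)
    (TB_zero _ _ _) (alV hk _) (Al.zero _) h ha y

theorem ckC_sound (hκ : 3 ≤ C.κ) (hd : C.d = 3 ∨ C.d = 4) (hk : C.T = k + 1) {l : ℕ}
    (h : C.ckC x l (C.st C.T x) = true) :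
    Cc C (k + 1) x (bag C.κ C.R (lbC C.κ C.T 32 rR vR (x.testBit k)) k x)
      (bag C.κ C.R (lbC C.κ C.T 64 rG vG (x.testBit k)) k x) (ic C.d C.W C.T l 0)
      (finT C.d C.W C.SC l) := by
  intro a ha y
  have e : Nat.sub C.T 1 = k := by rw [hk]; rfl
  rw [Ce.ckC, Ce.st, e] at h
  have hk' : k < C.T := by omega
  have h1 := st_TB hκ (fun _ s => lbC_al (capv_lo _) s) (itC_TB (W := C.W) (T := C.T) (d := C.d)
    (κ := C.κ) (o := 32) (l := l) (by omega) lfR_eq (x.testBit k)) C.R hk' x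
  have h2 := st_TB hκ (fun _ s => lbC_al (capv_lo _) s) (itC_TB (W := C.W) (T := C.T) (d := C.d)
    (κ := C.κ) (o := 64) (l := l) (by omega) lfG_eq (x.testBit k)) C.R hk' x
  refine ck_sound C hκ hd (u := C.u (2 ^ (C.T + 1) + x)) (ic_add _ _)
    (fun v hv => ic_le _ _ _ fun _ => hv _) h1 h2
    (bag_al (fun _ s _ h => lbC_al h s) hk' _) (bag_al (fun _ s _ h => lbC_al h s) hk' _) ?_ ha y
  rw [← hk]
  exact h

end Pool.Agent.P.MP_5517c4_pr.Cca
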