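import Pool.Agent.P.MP_5517c4_pr.Cca.Cp
import Pool.Agent.P.MP_5517c4_pr.Tree
import Pool.Agent.P.MP_5517c4_pr.Defs

/-! Forced trajectories on the rooted tree, labels, and the deterministic part of the proof. -/

set_option autoImplicit false

namespace Pool.Agent.P.MP_5517c4_pr.Cca

open Finset Filter
open scoped Classical

abbrev Om (d κ : ℕ) := List (Fin d) → ZMod κ

variable {d κ : ℕ}

def col (a : ZMod κ) (x : ℕ) : ℕ → ZMod κ
  | 0 => a
  | t + 1 => col a x t + if x.testBit t = true then 1 else 0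

def sub (σ : Om d κ) (i : Fin d) : Om d κ := fun l => σ (i :: l)

/-- code of the first `k` moves of the root when the parent follows `y` -/
noncomputable def mv : ℕ → Om d κ → (ℕ → ZMod κ) → ℕ
  | 0, _, _ => 0
  | k + 1, σ, y => (if 2 ≤ (if y k = col (σ []) (mv k σ y) k + 1 then 1 else 0) +
      (univ.filter fun i => col (sub σ i []) (mv k (sub σ i) (col (σ []) (mv k σ y))) k =
        col (σ []) (mv k σ y) k + 1).card then 2 ^ k else 0) + mv k σ y

noncomputable def X (σ : Om d κ) (y : ℕ → ZMod κ) (t : ℕ) : ZMod κ := col (σ []) (mv t σ y) t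

theorem col_congr (a : ZMod κ) {x x' : ℕ} (t : ℕ) (h : ∀ s < t, x.testBit s = x'.testBit s) :
    col a x t = col a x' t := by
  induction t with
  | zero => rfl
  | succ t ih => rw [col, col, ih fun s hs => h s (by omega), h t (by omega)]

theorem mv_lt (σ : Om d κ) (y : ℕ → ZMod κ) (k : ℕ) : mv k σ y < 2 ^ k := by
  induction k with
  | zero => exact one_pos
  | succ k ih => rw [mv, pow_succ]; split_ifs <;> omega

theorem mv_congr (σ : Om d κ) {y y' : ℕ → ZMod κ} (k : ℕ) (h : ∀ s < k, y s = y' s) :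
    mv k σ y = mv k σ y' := by
  induction k with
  | zero => rfl
  | succ k ih => rw [mv, mv, ih fun s hs => h s (by omega), h k (by omega)]

theorem mv_bit (σ : Om d κ) (y : ℕ → ZMod κ) {s t : ℕ} (h : s < t) {k : ℕ} (hk : t ≤ k) :
    (mv k σ y).testBit s = (mv t σ y).testBit s := by
  induction k, hk using Nat.le_induction with
  | base => rfl
  | succ k hk ih =>
    rw [← ih, mv]
    generalize (if y k = _ then 1 else 0) + _ = c
    split_ifs
    · exact tb_add (by omega)
    · rw [zero_add]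

theorem col_mv (σ : Om d κ) (y : ℕ → ZMod κ) {t k : ℕ} (h : t ≤ k) :
    col (σ []) (mv k σ y) t = X σ y t := col_congr _ _ fun _ hs => mv_bit σ y hs h

theorem X_congr (σ : Om d κ) {y y' : ℕ → ZMod κ} (t : ℕ) (h : ∀ s < t, y s = y' s) :
    X σ y t = X σ y' t := by rw [X, X, mv_congr σ t h]

theorem mv_iff (σ : Om d κ) (y : ℕ → ZMod κ) {t k : ℕ} (h : t < k) {z : ℕ → ZMod κ}
    (hz : ∀ s ≤ t, z s = X σ y s) : (mv k σ y).testBit t = true ↔
      2 ≤ (if y t = z t + 1 then 1 else 0) +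
        (univ.filter fun i => X (sub σ i) z t = z t + 1).card := by
  have e : ∀ i, col (sub σ i []) (mv t (sub σ i) (col (σ []) (mv t σ y))) t = X (sub σ i) z t :=
    fun i => X_congr _ t fun s hs => (col_mv σ y hs.le).trans (hz s hs.le).symm
  rw [mv_bit σ y t.lt_succ_self h, mv, hz t le_rfl]
  simp only [e]
  change _ ↔ 2 ≤ (if y t = col (σ []) (mv t σ y) t + 1 then 1 else 0) +
    (univ.filter fun i => X (sub σ i) z t = col (σ []) (mv t σ y) t + 1).card
  generalize (if y t = _ then 1 else 0) + _ = c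
  split_ifs with h1
  · simp [tb_top (mv_lt σ y t), h1]
  · simp [Nat.testBit_lt_two_pow (mv_lt σ y t), h1]

theorem X_succ (σ : Om d κ) (y : ℕ → ZMod κ) (t : ℕ) : X σ y (t + 1) =
    if 2 ≤ (if y t = X σ y t + 1 then 1 else 0) +
      (univ.filter fun i => X (sub σ i) (X σ y) t = X σ y t + 1).card
    then X σ y t + 1 else X σ y t := by
  rw [X, col, col_mv σ y t.le_succ]
  simp only [mv_iff σ y t.lt_succ_self fun _ _ => rfl]
  split_ifs <;> simp

/-! ### labels -/

def vec {N : ℕ} (l : Fin N → Bool) : V :=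
  fun j => if h : j < N then (if l ⟨j, h⟩ = true then 1 else 0) else 0

noncomputable def mkl (T : ℕ) (a : ZMod κ) (x : ℕ) (y : ℕ → ZMod κ) (k : ℕ → ℕ) :
    Fin (T + κ) → Bool := fun c =>
  if c.1 < T then decide (col a x c = y c + 1) else cf κ (col a x T - y T).val k (c - T)

noncomputable def kv (T : ℕ) : ℕ → Om d κ → ℕ → ℕ → ℕ
  | 0, _, _ => fun _ => 0
  | n + 1, σ, x => fun b => (∑ i, vec (mkl T (sub σ i []) (mv T (sub σ i) (col (σ []) x))
      (col (σ []) x) (kv T n (sub σ i) (mv T (sub σ i) (col (σ []) x))))) (T + b)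

noncomputable def lab (T n : ℕ) (σ : Om d κ) (y : ℕ → ZMod κ) : Fin (T + κ) → Bool :=
  mkl T (σ []) (mv T σ y) y (kv T n σ (mv T σ y))

/-- a chain of bad vertices of length `m + 1` starts at the root -/
def Bc (T : ℕ) : ℕ → ℕ → Om d κ → ℕ → Prop
  | 0, _, _, _ => False
  | n + 1, 0, σ, x => bad (κ - 1) (kv T (n + 1) σ x)
  | n + 1, m + 1, σ, x => bad (κ - 1) (kv T (n + 1) σ x) ∧
      ∃ i, Bc T n m (sub σ i) (mv T (sub σ i) (col (σ []) x))

theorem vec_lo {T : ℕ} (a : ZMod κ) (x : ℕ) (y : ℕ → ZMod κ) (k : ℕ → ℕ) {j : ℕ} (h : j < T) :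
    vec (mkl T a x y k) j = if col a x j = y j + 1 then 1 else 0 := by
  simp [vec, mkl, h, show j < T + κ by omega]

theorem vec_hi {T : ℕ} (a : ZMod κ) (x : ℕ) (y : ℕ → ZMod κ) (k : ℕ → ℕ) (b : ℕ) :
    vec (mkl T a x y k) (T + b) =
      if b < κ ∧ cf κ (col a x T - y T).val k b = true then 1 else 0 := by
  by_cases h : b < κ <;> simp [vec, mkl, h]

def Vd (y : ℕ → ZMod κ) : Prop := ∀ t, y (t + 1) = y t ∨ y (t + 1) = y t + 1

noncomputable def mc (y : ℕ → ZMod κ) (T : ℕ) : ℕ → ℕ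
  | 0 => 0
  | t + 1 => mc y T t + if y (T + t + 1) = y (T + t) then 0 else 1

theorem mc_eq {y : ℕ → ZMod κ} (h : Vd y) (T t : ℕ) : y (T + t) = y T + mc y T t := by
  induction t with
  | zero => simp [mc]
  | succ t ih =>
    rw [mc, ← add_assoc]
    split_ifs with e
    · rw [e, ih]; simp
    · rw [(h _).resolve_left e, ih]; push_cast; ring

theorem mc_mono (y : ℕ → ZMod κ) (T : ℕ) : Monotone (mc y T) :=
  monotone_nat_of_le_succ fun _ => Nat.le_add_right _ _

theorem mc_add (y : ℕ → ZMod κ) (T t : ℕ) : mc y 0 (T + t) = mc y 0 T + mc y T t := by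
  induction t with
  | zero => rfl
  | succ t ih => rw [← add_assoc, mc, mc, ih, zero_add, add_assoc]

theorem mc_le (y : ℕ → ZMod κ) (T t : ℕ) : mc y T t ≤ t := by
  induction t with
  | zero => rfl
  | succ t ih => rw [mc]; split_ifs <;> omega

theorem X_vd (σ : Om d κ) (y : ℕ → ZMod κ) : Vd (X σ y) := fun t => by
  rw [X_succ]; split_ifs <;> simp

theorem cf_iff (δ : ℕ) (k : ℕ → ℕ) (b' : ℕ) : cf κ δ k b' = true ↔
    ∀ b < (b' + 1 + κ - δ) % κ, 2 ≤ k b + if (δ + b + 1) % κ ≤ b' then 1 else 0 := by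
  simp [cf]

def Stop (d κ T n : ℕ) : Prop := ∀ (σ : Om d κ) y b ε, b < κ → kv T n σ (mv T σ y) b + ε ≤ 1 →
  ∀ t ≤ n, (∀ s < t, mc (X σ y) T s = b → y (T + s) = X σ y (T + s) + 1 → 1 ≤ ε) →
    mc (X σ y) T t ≤ b

theorem guar [NeZero κ] {T n : ℕ} (h : Stop d κ T n) (σ : Om d κ) {y : ℕ → ZMod κ} (hy : Vd y)
    {t : ℕ} (ht : t ≤ n) (e : X σ y (T + t) = y (T + t) + 1) :
    cf κ (X σ y T - y T).val (kv T n σ (mv T σ y)) (mc y T t) = true := by
  rw [cf_iff]
  intro b hb
  set δ := (X σ y T - y T).val with hδ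
  have h0 : δ < κ := ZMod.val_lt _
  have h1 : (δ : ZMod κ) = X σ y T - y T := ZMod.natCast_zmod_val _
  by_contra hc
  have h2 := h σ y b _ (hb.trans (Nat.mod_lt _ (NeZero.pos κ))) (Nat.lt_succ_iff.1 (not_le.1 hc))
    t ht fun s hs k1 k2 => by
      rw [mc_eq hy, mc_eq (X_vd σ y), k1] at k2
      have k3 : ((δ + b + 1 : ℕ) : ZMod κ) = (mc y T s : ℕ) := by
        push_cast; rw [h1]; linear_combination -k2
      rw [ZMod.natCast_eq_natCast_iff'] at k3
      rw [if_pos (k3.le.trans ((Nat.mod_le _ _).trans (mc_mono y T hs.le)))]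
  rw [mc_eq hy, mc_eq (X_vd σ y)] at e
  have k3 : ((mc y T t + 1 + κ - δ : ℕ) : ZMod κ) = (mc (X σ y) T t : ℕ) := by
    rw [Nat.cast_sub (by omega)]
    push_cast; rw [h1, ZMod.natCast_self]; linear_combination -e
  rw [ZMod.natCast_eq_natCast_iff'] at k3
  have := Nat.mod_le (mc (X σ y) T t) κ
  omega

theorem stop [NeZero κ] (T n : ℕ) : Stop d κ T n := by
  induction n with
  | zero => intro σ y b ε _ _ t ht _; rw [Nat.le_zero.1 ht]; exact Nat.zero_le _
  | succ n ih =>
    intro σ y b ε hb hk t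
    induction t with
    | zero => exact fun _ _ => Nat.zero_le _
    | succ t iht =>
      intro ht h
      have h1 := iht (by omega) fun s hs => h s (by omega)
      rw [mc]
      split_ifs with e
      · exact h1
      refine Nat.succ_le_of_lt (lt_of_le_of_ne h1 fun h2 => e ?_)
      rw [X_succ, if_neg]
      have h3 : (univ.filter fun i => X (sub σ i) (X σ y) (T + t) = X σ y (T + t) + 1).card ≤
          kv T (n + 1) σ (mv T σ y) b := by
        simp only [kv]
        rw [Finset.sum_apply, card_filter]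
        refine sum_le_sum fun i _ => ?_
        split_ifs with h4
        · have h5 := guar ih (sub σ i) (X_vd σ y) (by omega : t ≤ n) h4
          have h6 : mv T (sub σ i) (col (σ []) (mv T σ y)) = mv T (sub σ i) (X σ y) :=
            mv_congr _ _ fun s hs => col_mv σ y hs.le
          rw [vec_hi, h6, if_pos ⟨hb, h2 ▸ h5⟩]
        · exact Nat.zero_le _
      split_ifs with h4
      · have := h t (by omega) h2 h4; omega
      · omega

/-! ### the dynamics on the graph -/

noncomputable def sp (u p : ℕ → ZMod κ) : ℕ → ℕ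
  | 0 => 0
  | t + 1 => sp u p t + if p (t + 1) ≠ p t ∧ u t = p t + 1 then 1 else 0

theorem edge (hκ : 3 ≤ κ) {u p : ℕ → ZMod κ} (hu : Vd u) (hp : Vd p) (t : ℕ) :
    κ * (sp u p t + sp p u t) + (p t - u t).val ≤ (κ - 1) * mc u 0 t + mc p 0 t + κ := by
  obtain ⟨n, rfl⟩ : ∃ n, κ = n + 1 := ⟨κ - 1, by omega⟩
  have : Fact (1 < n + 1) := ⟨by omega⟩
  induction t with
  | zero => simpa [sp, mc] using (ZMod.val_lt _).le
  | succ t ih =>
    have h1 : (1 : ZMod (n + 1)) ≠ 0 := one_ne_zero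
    have h2 : (1 + 1 : ZMod (n + 1)) ≠ 0 := by
      have : ((2 : ℕ) : ZMod (n + 1)) ≠ 0 := fun h => by
        have := Nat.le_of_dvd (by norm_num) ((ZMod.natCast_eq_zero_iff _ _).1 h); omega
      rwa [Nat.cast_ofNat, ← one_add_one_eq_two] at this
    simp only [sp, mc, zero_add, Nat.add_sub_cancel, mul_add] at ih ⊢
    rcases hu t with a | a <;> rcases hp t with b | b <;> rw [a, b]
    · simpa using ih
    · have k1 := ZMod.val_add_le (p t - u t) 1
      rw [ZMod.val_one, sub_add_eq_add_sub] at k1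
      by_cases e : u t = p t + 1
      · have k2 : (p t - u t).val = n := by rw [e, sub_add_cancel_left, ZMod.val_neg_one]
        simp [e, h1] at ih ⊢
        rw [e] at k2; simp at k2; omega
      · simp [e, h1]; omega
    · have k1 := ZMod.val_lt (p t - (u t + 1))
      by_cases e : p t = u t + 1
      · simp [e, h1, ZMod.val_one] at ih ⊢; omega
      · simp [e, h1]; omega
    · rw [add_sub_add_right_eq_sub]
      by_cases e : p t = u t + 1
      · have e' : u t ≠ p t + 1 := fun e' => h2 (by linear_combination -e - e')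
        simp only [e', and_false, if_false]
        simp [h1]; split_ifs <;> omega
      · simp only [e, and_false, if_false]
        simp [h1]; split_ifs <;> omega

variable {U : Type} {G : SimpleGraph U}

noncomputable def tj (G : SimpleGraph U) (γ : U → ZMod κ) (v : U) (t : ℕ) : ZMod κ :=
  (ccaStep G κ 2)^[t] γ v

theorem tj_succ (hr : ∀ v, (G.neighborSet v).ncard = d + 1) (γ : U → ZMod κ) {p w : U}
    (h : G.Adj p w) (t : ℕ) : tj G γ w (t + 1) =
      if 2 ≤ (if tj G γ p t = tj G γ w t + 1 then 1 else 0) +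
        (univ.filter fun i => tj G γ (ch G d p w i) t = tj G γ w t + 1).card
      then tj G γ w t + 1 else tj G γ w t := by
  rw [tj, Function.iterate_succ_apply', ccaStep, ncard_nbr hr h]
  rfl

theorem tj_vd (γ : U → ZMod κ) (v : U) : Vd (tj G γ v) := fun t => by
  rw [tj, Function.iterate_succ_apply', ccaStep]; split_ifs <;> simp [tj]

theorem X_tj (hr : ∀ v, (G.neighborSet v).ncard = d + 1) (γ : U → ZMod κ) (t : ℕ) :
    ∀ p w, G.Adj p w → X (fun l => γ (emb G d p w l)) (tj G γ p) t = tj G γ w t := by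
  induction t using Nat.strong_induction_on with
  | _ t ih =>
    intro p w h
    cases t with
    | zero => rfl
    | succ t =>
      have e : ∀ i, X (sub (fun l => γ (emb G d p w l)) i)
          (X (fun l => γ (emb G d p w l)) (tj G γ p)) t = tj G γ (ch G d p w i) t := fun i =>
        (X_congr _ t fun s hs => ih s (by omega) p w h).trans
          (ih t (by omega) w _ (ch_adj hr h i).1)
      rw [X_succ, tj_succ hr γ h]
      simp only [e, ih t (by omega) p w h]

theorem supp (hr : ∀ v, (G.neighborSet v).ncard = d + 1) (γ : U → ZMod κ) {p w : U}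
    (h : G.Adj p w) (t : ℕ) : 2 * mc (tj G γ w) 0 t ≤ sp (tj G γ p) (tj G γ w) t +
      ∑ i, sp (tj G γ (ch G d p w i)) (tj G γ w) t := by
  induction t with
  | zero => exact Nat.zero_le _
  | succ t ih =>
    simp only [mc, sp, zero_add, sum_add_distrib]
    by_cases e : tj G γ w (t + 1) = tj G γ w t
    · simpa [e] using ih
    · have := tj_succ hr γ h t
      rw [card_filter] at this
      simp only [e, if_false, ne_eq, not_false_eq_true, true_and]
      split_ifs at this ⊢ <;> first | omega | exact absurd this e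

def Qe (u p : ℕ → ZMod κ) : Prop := ∃ C, ∀ t, κ * sp u p t ≤ mc p 0 t + C

theorem sum_Qe {u : Fin d → ℕ → ZMod κ} {p : ℕ → ZMod κ} (h : ∀ i, Qe (u i) p) :
    ∃ C, ∀ t, κ * ∑ i, sp (u i) p t ≤ d * mc p 0 t + C := by
  choose C hC using h
  refine ⟨∑ i, C i, fun t => ?_⟩
  have := sum_le_sum fun i (_ : i ∈ univ) => hC i t
  simpa [mul_sum, sum_add_distrib] using this

theorem good (hκ : 3 ≤ κ) (hd : d ≤ κ) (hr : ∀ v, (G.neighborSet v).ncard = d + 1)
    (γ : U → ZMod κ) (T m : ℕ) : ∀ p w, G.Adj p w → (∀ a, ∃ n, a ≤ n ∧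
      ¬Bc T n m (fun l => γ (emb G d p w l)) (mv T (fun l => γ (emb G d p w l)) (tj G γ p))) →
      Qe (tj G γ w) (tj G γ p) := by
  have : NeZero κ := ⟨by omega⟩
  have nb : ∀ p w, G.Adj p w → (∀ a, ∃ n, a ≤ n ∧ ¬bad (κ - 1) (kv T n (fun l => γ (emb G d p w l))
      (mv T (fun l => γ (emb G d p w l)) (tj G γ p)))) → Qe (tj G γ w) (tj G γ p) := by
    intro p w h k
    refine ⟨(κ - 1) * (T + κ) + κ, fun t => ?_⟩
    obtain ⟨n, hn, k⟩ := k t
    simp only [bad, not_forall] at k
    obtain ⟨b, hb, k⟩ := k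
    have h1 := stop T n (fun l => γ (emb G d p w l)) (tj G γ p) b 1 (by omega) (by omega) t hn
      fun _ _ _ _ => le_rfl
    rw [show X _ _ = tj G γ w from funext fun t => X_tj hr γ t p w h] at h1
    have h2 := mc_mono (tj G γ w) 0 (Nat.le_add_left t T)
    have h3 := mc_le (tj G γ w) 0 T
    rw [mc_add] at h2
    have h4 := edge hκ (tj_vd (G := G) γ w) (tj_vd (G := G) γ p) t
    have h5 := Nat.mul_le_mul_left (κ - 1) (show mc (tj G γ w) 0 t ≤ T + κ by omega)
    rw [mul_add] at h4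
    omega
  induction m with
  | zero =>
    refine fun p w h k => nb p w h fun a => ?_
    obtain ⟨n, hn, k⟩ := k (a + 1)
    obtain ⟨n, rfl⟩ : ∃ j, n = j + 1 := ⟨n - 1, by omega⟩
    exact ⟨_, by omega, k⟩
  | succ m ih =>
    intro p w h k
    by_contra hc
    have h1 := _root_.mt (nb p w h) hc
    push Not at h1
    obtain ⟨a0, h1⟩ := h1
    obtain ⟨C, hC⟩ := sum_Qe fun i => ih w _ (ch_adj hr h i).1 fun a => by
      obtain ⟨n, hn, k⟩ := k (a + a0 + 1)
      obtain ⟨n, rfl⟩ : ∃ j, n = j + 1 := ⟨n - 1, by omega⟩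
      refine ⟨n, by omega, fun k' => k ⟨h1 _ (by omega), i, ?_⟩⟩
      rwa [mv_congr _ T fun s hs => (col_mv _ _ hs.le).trans (X_tj hr γ s p w h)]
    refine hc ⟨C + κ, fun t => ?_⟩
    have h2 := hC t
    have h3 := Nat.mul_le_mul_left κ (supp hr γ h t)
    have h4 := edge hκ (tj_vd (G := G) γ w) (tj_vd (G := G) γ p) t
    have h5 := Nat.mul_le_mul_right (mc (tj G γ w) 0 t) hd
    have h6 := Nat.mul_le_mul_right (mc (tj G γ w) 0 t) (Nat.sub_le κ 1)
    rw [mul_add] at h3 h4
    rw [mul_left_comm] at h3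
    omega

theorem fixes (hκ : 3 ≤ κ) (hd : d ≤ κ) (hr : ∀ v, (G.neighborSet v).ncard = d + 1)
    (γ : U → ZMod κ) (h : ∀ p w, G.Adj p w → Qe (tj G γ w) (tj G γ p)) (v : U) :
    ∃ c, ∀ᶠ t in atTop, (ccaStep G κ 2)^[t] γ v = c := by
  obtain ⟨p, hp⟩ := exists_adj hr v
  obtain ⟨C, hC⟩ := sum_Qe fun i => h v _ (ch_adj hr hp i).1
  obtain ⟨C', hC'⟩ := h v p hp.symm
  have hb : ∀ t, mc (tj G γ v) 0 t ≤ C + C' := by
    intro t
    have h2 := hC t
    have h4 := hC' t
    have h3 := Nat.mul_le_mul_left κ (supp hr γ hp t)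
    have h5 := Nat.mul_le_mul_right (mc (tj G γ v) 0 t) hd
    have h6 := Nat.mul_le_mul_right (mc (tj G γ v) 0 t) hκ
    rw [mul_add, mul_left_comm] at h3
    omega
  obtain ⟨b, N, hN⟩ := converges_of_monotone_of_bounded (mc_mono (tj G γ v) 0) hb
  refine ⟨tj G γ v 0 + b, eventually_atTop.2 ⟨N, fun t ht => ?_⟩⟩
  have := mc_eq (tj_vd (G := G) γ v) 0 t
  rwa [zero_add, hN t ht] at this

end Pool.Agent.P.MP_5517c4_pr.Cca
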