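import Pool.Agent.P.MP_5517c4_pr.Cca.Ms

/-! Fibres of the forced trajectories and their domination by bags. -/

set_option autoImplicit false
set_option linter.unusedSectionVars false

namespace Pool.Agent.P.MP_5517c4_pr.Cca

open Finset Filter MeasureTheory
open scoped Classical ENNReal

variable {d κ : ℕ} [NeZero κ] {R : DT} {a x y T K k n : ℕ} {c : ZMod κ}

def Le (T k : ℕ) (v v' : V) : Prop := (∀ j < k, v j = v' j) ∧ ∀ b, v (T + b) ≤ v' (T + b)

def Fb (k : ℕ) (c : ZMod κ) (y a x : ℕ) : Set (Om d κ) :=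
  {σ | σ [] = c + a ∧ mv k σ (col c y) = x}

noncomputable def Fx (K : ℕ) (S : Set (Om d κ)) (F : Om d κ → ℕ) : ℝ≥0∞ :=
  K * ∫⁻ σ in S, (F σ : ℕ) ∂mu d κ

theorem m_Fb : MeasurableSet (Fb (d := d) k c y a x) :=
  (m_root (measurableSet_singleton _)).inter (m_mv k _ (measurableSet_singleton x))

theorem Fx_mono {S : Set (Om d κ)} (hS : MeasurableSet S) {F G : Om d κ → ℕ}
    (h : ∀ σ ∈ S, F σ ≤ G σ) : Fx K S F ≤ Fx K S G :=
  mul_le_mul_right (setLIntegral_mono' hS fun σ hσ => Nat.cast_le.2 (h σ hσ)) _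

theorem Fx_mul (S : Set (Om d κ)) (F : Om d κ → ℕ) (m : ℕ) :
    Fx K S (fun σ => F σ * m) = Fx K S F * m := by
  simp only [Fx, Nat.cast_mul, mul_assoc]
  rw [lintegral_mul_const' _ _ (ENNReal.natCast_ne_top _)]

theorem Fx_add (S : Set (Om d κ)) {F : Om d κ → ℕ} (hF : Measurable F) (G : Om d κ → ℕ) :
    Fx K S (fun σ => F σ + G σ) = Fx K S F + Fx K S G := by
  simp only [Fx, Nat.cast_add]
  rw [lintegral_add_left (f := fun σ => (F σ : ℝ≥0∞)) (measurable_from_top.comp hF), mul_add]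

theorem Fx_split (F : Om d κ → ℕ) : Fx K (Fb k c y a x) F ≤
    Fx K (Fb (k + 1) c y a x) F + Fx K (Fb (k + 1) c y a (2 ^ k + x)) F := by
  rw [Fx, Fx, Fx, ← mul_add]
  refine mul_le_mul_right ((lintegral_mono_set fun σ h => ?_).trans (lintegral_union_le _ _ _)) _
  simp only [Fb, Set.mem_union, Set.mem_ofPred_eq, h.1, true_and, mv, h.2]
  split_ifs <;> simp

theorem run_col (hκ : 3 ≤ κ) (c : ZMod κ) (t : ℕ) :
    ((run κ R a x y t).1 : ZMod κ) = col (c + (a : ZMod κ)) x t - col c y t := by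
  induction t with
  | zero => simp [run, col]
  | succ t ih =>
    change (((_ + b2 (x.testBit t) + (κ - b2 (y.testBit t))) % κ : ℕ) : ZMod κ) = _
    rw [ZMod.natCast_mod, Nat.cast_add, Nat.cast_add, ih, col, col]
    cases x.testBit t <;> cases y.testBit t <;> simp [b2, show 1 ≤ κ by omega] <;> ring

theorem run_val (hκ : 3 ≤ κ) (ha : a < κ) (c : ZMod κ) (t : ℕ) :
    (col (c + (a : ZMod κ)) x t - col c y t).val = (run κ R a x y t).1 := by
  rw [← run_col (R := R) hκ, ZMod.val_natCast, Nat.mod_eq_of_lt (run_lt hκ ha t)]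

theorem run_iff (hκ : 3 ≤ κ) (ha : a < κ) (c : ZMod κ) (t : ℕ) {j : ℕ} (hj : j < κ) :
    (run κ R a x y t).1 = j ↔ col (c + (a : ZMod κ)) x t - col c y t = j := by
  rw [← run_col (R := R) hκ, ZMod.natCast_eq_natCast_iff', Nat.mod_eq_of_lt (run_lt hκ ha t),
    Nat.mod_eq_of_lt hj]

theorem uv_eq {j : ℕ} (t : ℕ) (h : j < t) :
    uv κ R a x y t j = if (run κ R a x y j).1 = 1 then 1 else 0 := by
  induction t with
  | zero => omega
  | succ t ih =>
    by_cases e : j = t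
    · subst e
      have := (uv_le (κ := κ) (R := R) (a := a) (x := x) (y := y) j j).2 le_rfl
      rw [uv, us]; split_ifs <;> simp [this]
    · rw [uv, us_ne e, ih (by omega)]

theorem cn_iff (n : ℕ) : ∀ k v, cn κ R a x y n k v ↔ ∀ j < n,
    qc (x.testBit (k + j)) (Nat.beq (run κ R a x y (k + j)).1 (κ - 1)) (k + j) v := by
  induction n with
  | zero => simp [cn]
  | succ n ih =>
    intro k v
    rw [cn, ih, Nat.forall_lt_succ_left]
    simp only [add_assoc, add_comm 1, add_zero]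

theorem Fb.col {σ : Om d κ} (h : σ ∈ Fb k c y a x) {s : ℕ} (hs : s ≤ k) :
    col (c + (a : ZMod κ)) x s = X σ (col c y) s := by
  rw [← h.1, ← h.2, col_mv _ _ hs]

theorem lab_lo (σ : Om d κ) (z : ℕ → ZMod κ) {j : ℕ} (hj : j < T) :
    vec (lab T n σ z) j = if X σ z j = z j + 1 then 1 else 0 := by
  rw [lab, vec_lo _ _ _ _ hj, col_mv _ _ hj.le]

theorem lab_uv (hκ : 3 ≤ κ) (ha : a < κ) {σ : Om d κ} (h : σ ∈ Fb k c y a x) {j t : ℕ} (hj : j < T)
    (hk : j ≤ k) (ht : j < t) : vec (lab T n σ (col c y)) j = uv κ R a x y t j := by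
  rw [lab_lo _ _ hj, uv_eq _ ht, ← Fb.col h hk]
  simp only [run_iff hκ ha c j (show 1 < κ by omega), Nat.cast_one, sub_eq_iff_eq_add']

noncomputable def lv' (T n : ℕ) (z : ℕ → ZMod κ) (σ : Om d κ) : V := vec (lab T n σ z)

noncomputable def sv (T n : ℕ) (z : ℕ → ZMod κ) (σ : Om d κ) : V := ∑ i, lv' T n z (sub σ i)

theorem Fb.cn (hκ : 3 ≤ κ) (ha : a < κ) (hk : k ≤ T) {σ : Om d κ} (h : σ ∈ Fb k c y a x) :
    cn κ R a x y k 0 (sv T n (Cca.col (c + (a : ZMod κ)) x) σ) := by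
  rw [cn_iff]
  intro j hj
  rw [zero_add, qc]
  have h1 := mv_iff σ (Cca.col c y) hj (z := Cca.col (c + (a : ZMod κ)) x) fun s hs => Fb.col h (hs.trans hj.le)
  rw [h.2] at h1
  rw [h1, sv, Finset.sum_apply, card_filter, add_comm]
  simp only [lv', lab_lo _ _ (hj.trans_le hk)]
  have h2 := run_iff (R := R) (x := x) (y := y) hκ ha c j (show κ - 1 < κ by omega)
  rw [Nat.cast_sub (by omega), ZMod.natCast_self, Nat.cast_one] at h2
  by_cases e : (run κ R a x y j).1 = κ - 1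
  · rw [beq_t e, if_pos (by linear_combination -h2.1 e)]; rfl
  · rw [beq_f e, if_neg fun k => e (h2.2 (by linear_combination -k))]; rfl

theorem step (hκ : 3 ≤ κ) (ha : a < κ) (hk : k ≤ T) {h : Fin d → Om d κ → ℕ}
    (hh : ∀ i, Measurable (h i)) {A : Fin d → Bg}
    (hD : ∀ i, Dm (mu d κ) K (Le T k) (lv' T n (col (c + (a : ZMod κ)) x)) (h i) (A i)) {φ : V → ℕ}
    (hφ : Mo (Le T k) φ) :
    Fx (K ^ d * κ) (Fb k c y a x) (fun σ => (∏ i, h i (sub σ i)) * φ (sv T n (col (c + (a : ZMod κ)) x) σ)) ≤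
      pr (∏ i, A i) fun v => if cn κ R a x y k 0 v then φ v else 0 := by
  have h1 := tens (mu d κ) _ (fun u v v' e => ⟨fun j hj => congrArg (u j + ·) (e.1 j hj),
    fun b => Nat.add_le_add_left (e.2 b) _⟩) d h A hD
    (fun v => if cn κ R a x y k 0 v then φ v else 0) fun v v' e => by
      dsimp only
      split_ifs with h1 h2
      · exact hφ _ _ e
      · refine absurd ?_ h2
        simp only [cn_iff, qc, zero_add] at h1 ⊢
        exact fun j hj => e.1 j hj ▸ h1 j hj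
      all_goals exact Nat.zero_le _
  refine le_trans ?_ h1
  rw [← law (c + (a : ZMod κ)), Fx, Nat.cast_mul, mul_assoc]
  · refine mul_le_mul_right (mul_le_mul_right ((setLIntegral_mono' m_Fb fun σ hσ => ?_).trans
      (lintegral_mono_set fun σ hσ => hσ.1)) _) _
    rw [if_pos (show cn κ R a x y k 0 (∑ i, _) from Fb.cn hκ ha hk hσ)]; rfl
  · refine measurable_from_top.comp (Measurable.mul (Finset.measurable_prod _ fun i _ =>
      (hh i).comp (measurable_pi_apply i)) ?_)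
    exact (measurable_of_countable fun l : Fin d → Fin (T + κ) → Bool =>
      if cn κ R a x y k 0 (∑ i, vec (l i)) then φ (∑ i, vec (l i)) else 0).comp
      (measurable_pi_lambda _ fun i => (m_lab T n _).comp (measurable_pi_apply i))

theorem dom_of {lb : V → St → Bg} {L : V → V → Prop} {g : Om d κ → V} {h : Om d κ → ℕ}
    (H : ∀ a < κ, ∀ x < 2 ^ k, ∀ ψ, Mo L ψ → Fx K (Fb k c y a x) (fun σ => h σ * ψ (g σ)) ≤
      pr (lb (uv κ R a x y (k + 1)) (run κ R a x y k)) ψ) :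
    Dm (mu d κ) K L g h (bag κ R lb k y) := by
  intro ψ hψ
  have h1 := cover (mu d κ) (fun σ => (h σ * ψ (g σ) : ℕ))
    (fun z : ℕ × ℕ => Fb k c y z.1 z.2) (range κ ×ˢ range (2 ^ k))
  rw [Set.eq_univ_of_forall (s := ⋃ _, _) fun σ => Set.mem_iUnion₂.2
    ⟨((σ [] - c).val, mv k σ (col c y)), by simp [ZMod.val_lt, mv_lt], by simp [Fb]⟩,
    Measure.restrict_univ] at h1
  refine (mul_le_mul_right h1 _).trans ?_
  simp only [bag, pr_sum, Nat.cast_sum, sum_product, mul_sum]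
  exact sum_le_sum fun a ha => sum_le_sum fun x hx => H a (mem_range.1 ha) x (mem_range.1 hx) ψ hψ

theorem vec_le {N : ℕ} (l : Fin N → Bool) (j : ℕ) : vec l j ≤ 1 := by
  rw [vec]; split_ifs <;> simp

theorem fibV (hκ : 3 ≤ κ) (ha : a < κ) (hk : k < T) {o : ℕ} {h : Om d κ → ℕ}
    (H : Fx K (Fb k c y a x) h ≤ vI o (nv (run κ R a x y k).2.1) (run κ R a x y k).2.2)
    {ψ : V → ℕ} (hψ : Mo (Le T (k + 1)) ψ) :
    Fx K (Fb k c y a x) (fun σ => h σ * ψ (lv' T n (col c y) σ)) ≤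
      pr (lbV T o (uv κ R a x y (k + 1)) (run κ R a x y k)) ψ := by
  rw [lbV, pr_sg, Nat.cast_mul]
  refine (Fx_mono m_Fb fun σ hσ => Nat.mul_le_mul_left _ (hψ _ _ ⟨fun j hj => ?_, fun b => ?_⟩)).trans
    ((Fx_mul _ _ _).trans_le (mul_le_mul_left H _))
  · rw [capv_lo _ _ _ (by omega)]; exact lab_uv hκ ha hσ (by omega) (by omega) hj
  · rw [capv_hi fun j hj => (uv_le _ _).2 (by omega)]; exact vec_le _ _

def Pm (θ : (ℕ → ℕ) → ℕ) : Prop := ∀ k ρ, Pc k ρ → θ k ≤ θ ρ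

theorem fibF (hκ : 3 ≤ κ) (ha : a < κ) {rp : ℕ → List (ℕ → ℕ)} {val : ℕ → ℕ → ℕ → ℕ → ℕ}
    {h : Om d κ → ℕ} (H : ∀ θ, Pm θ → Fx K (Fb T c y a x) (fun σ => h σ * θ (kv T n σ x)) ≤
      lfs rp val (fun ρ w => w * θ ρ) (run κ R a x y T).2.1 (run κ R a x y T).2.2)
    {ψ : V → ℕ} (hψ : Mo (Le T T) ψ) :
    Fx K (Fb T c y a x) (fun σ => h σ * ψ (lv' T n (col c y) σ)) ≤
      pr (lbF κ T rp val (uv κ R a x y T) (run κ R a x y T)) ψ := by
  have hu : ∀ j, T ≤ j → uv κ R a x y T j = 0 := fun j => (uv_le _ _).2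
  rw [lbF, pr_lfs]
  refine le_trans (Fx_mono m_Fb fun σ hσ => Nat.mul_le_mul_left _
    (hψ _ _ ⟨fun j hj => ?_, fun b => ?_⟩)) (H _ fun k ρ e => hψ _ _ ⟨fun j hj => ?_, fun b => ?_⟩)
  · rw [capv_lo _ _ _ hj]; exact lab_uv hκ ha hσ hj hj.le hj
  · rw [capv_hi hu, lv', lab, vec_hi, hσ.1, hσ.2, run_val (R := R) hκ ha]
    split_ifs <;> simp_all
  · rw [capv_lo _ _ _ hj, capv_lo _ _ _ hj]
  · rw [capv_hi hu, capv_hi hu]
    split_ifs with h1 h2 <;> try simp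
    rw [cf_iff] at h1 h2
    exact h2 (e _ _ (fun b => by split_ifs <;> simp) h1)

theorem run_top (hx : x < 2 ^ k) :
    run κ R a x y (k + 1) = adv κ (y.testBit k) (run κ R a x y k) false ∧
    run κ R a (2 ^ k + x) y (k + 1) = adv κ (y.testBit k) (run κ R a x y k) true ∧
    uv κ R a (2 ^ k + x) y (k + 1) = uv κ R a x y (k + 1) := by
  obtain ⟨h1, h2⟩ := run_congr (κ := κ) (R := R) (a := a) (y := y) k fun s hs => tb_add (x := x) hs
  rw [run, run, uv, uv, h1, h2, tb_top hx, Nat.testBit_lt_two_pow hx]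
  exact ⟨rfl, rfl, rfl⟩

theorem fibC (hκ : 3 ≤ κ) (ha : a < κ) (hx : x < 2 ^ k) {o : ℕ} {rp : ℕ → List (ℕ → ℕ)}
    {val : ℕ → ℕ → ℕ → ℕ → ℕ} {h : Om d κ → ℕ}
    (H1 : Fx K (Fb k c y a x) h ≤ vI o (nv (run κ R a x y k).2.1) (run κ R a x y k).2.2)
    (H : isO (run κ R a x y (k + 1)).2.1 ≠ true → ∀ x', x' = x ∨ x' = 2 ^ k + x → ∀ θ, Pm θ →
      Fx K (Fb (k + 1) c y a x') (fun σ => h σ * θ (kv (k + 1) n σ x')) ≤
      lfs rp val (fun ρ w => w * θ ρ) (run κ R a x' y (k + 1)).2.1 (run κ R a x' y (k + 1)).2.2)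
    {ψ : V → ℕ} (hψ : Mo (Le (k + 1) (k + 1)) ψ) :
    Fx K (Fb k c y a x) (fun σ => h σ * ψ (lv' (k + 1) n (col c y) σ)) ≤
      pr (lbC κ (k + 1) o rp val (y.testBit k) (uv κ R a x y (k + 1)) (run κ R a x y k)) ψ := by
  obtain ⟨h1, h2, h3⟩ := run_top (κ := κ) (R := R) (a := a) (y := y) hx
  rw [lbC, ← h1, ← h2]
  split_ifs with e
  · exact fibV hκ ha k.lt_succ_self H1 hψ
  · rw [pr_add, Nat.cast_add]
    exact (Fx_split _).trans (add_le_add (fibF hκ ha (H e _ (.inl rfl)) hψ)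
      (h3 ▸ fibF hκ ha (H e _ (.inr rfl)) hψ))

end Pool.Agent.P.MP_5517c4_pr.Cca
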