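import Pool.Agent.P.MP_5517c4_pr.Cca.Dyn

/-! Measurability, the product law and tensorisation. -/

set_option autoImplicit false
set_option linter.unusedSectionVars false

namespace Pool.Agent.P.MP_5517c4_pr.Cca

open Finset Filter MeasureTheory
open scoped Classical ENNReal

def Mo (L : V → V → Prop) (ψ : V → ℕ) : Prop := ∀ v v', L v v' → ψ v ≤ ψ v'

/-- the bag `A` dominates the law of `g` with weight `h` -/
def Dm {Ω : Type} [MeasurableSpace Ω] (μ : Measure Ω) (K : ℕ) (L : V → V → Prop) (g : Ω → V)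
    (h : Ω → ℕ) (A : Bg) : Prop :=
  ∀ ψ, Mo L ψ → (K : ℝ≥0∞) * ∫⁻ ω, (h ω * ψ (g ω) : ℕ) ∂μ ≤ pr A ψ

theorem tens {Ω : Type} [MeasurableSpace Ω] (μ : Measure Ω) [IsProbabilityMeasure μ] (g : Ω → V)
    {K : ℕ} {L : V → V → Prop} (hL : ∀ u v v', L v v' → L (u + v) (u + v')) (m : ℕ) :
    ∀ (h : Fin m → Ω → ℕ) (A : Fin m → Bg), (∀ i, Dm μ K L g (h i) (A i)) →
      Dm (Measure.pi fun _ => μ) (K ^ m) L (fun τ => ∑ i, g (τ i)) (fun τ => ∏ i, h i (τ i))
        (∏ i, A i) := by
  induction m with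
  | zero => intro h A _ ψ _; simp [pr_one]
  | succ m ih =>
    intro h A hD ψ hψ
    have h1 := hD 0 (fun v => pr (∏ i : Fin m, A i.succ) fun v' => ψ (v + v')) fun v v' e =>
      pr_mono _ fun u => by rw [add_comm v, add_comm v']; exact hψ _ _ (hL u _ _ e)
    rw [Fin.prod_univ_succ, pr_mul]
    refine le_trans ?_ h1
    rw [((measurePreserving_piFinSuccAbove (fun _ : Fin (m + 1) => μ) 0).symm _).lintegral_map_equiv,
      pow_succ', Nat.cast_mul, mul_assoc]
    refine mul_le_mul_right ((mul_le_mul_right (lintegral_prod_le _) _).trans ?_) _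
    rw [← lintegral_const_mul' _ _ (ENNReal.natCast_ne_top _)]
    refine lintegral_mono fun ω => ?_
    have h2 := ih (fun i => h i.succ) (fun i => A i.succ) (fun i => hD _) (fun v => ψ (g ω + v))
      fun v v' e => hψ _ _ (hL _ _ _ e)
    rw [Nat.cast_mul]
    refine le_trans (le_of_eq ?_) (mul_le_mul_right h2 _)
    rw [mul_left_comm, ← lintegral_const_mul' (h 0 ω : ℝ≥0∞) _ (ENNReal.natCast_ne_top _)]
    congr 2; funext τ
    simp [Fin.prod_univ_succ, Fin.sum_univ_succ, mul_assoc]

theorem cover {Ω ι : Type} [MeasurableSpace Ω] (μ : Measure Ω) (f : Ω → ℝ≥0∞) (S : ι → Set Ω)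
    (s : Finset ι) : ∫⁻ ω in ⋃ i ∈ s, S i, f ω ∂μ ≤ ∑ i ∈ s, ∫⁻ ω in S i, f ω ∂μ := by
  induction s using Finset.induction_on with
  | empty => simp
  | insert i s hi ih =>
    rw [set_biUnion_insert, sum_insert hi]
    exact (lintegral_union_le _ _ _).trans (add_le_add le_rfl ih)

theorem bindm {Ω α β : Type} [MeasurableSpace Ω] [MeasurableSpace α] [MeasurableSpace β]
    [Countable α] [MeasurableSingletonClass α] {g : Ω → α} (hg : Measurable g) (F : α → Ω → β)
    (hF : ∀ a, Measurable (F a)) : Measurable fun ω => F (g ω) ω :=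
  (measurable_from_prod_countable_left (f := fun z : Ω × α => F z.2 z.1) hF).comp
    (measurable_id.prodMk hg)

variable {d κ : ℕ} [NeZero κ]

theorem m_sub (i : Fin d) : Measurable fun σ : Om d κ => sub σ i := by unfold sub; fun_prop

theorem m_root : Measurable fun σ : Om d κ => σ [] := measurable_pi_apply _

theorem m_kids {α β : Type} [MeasurableSpace α] [MeasurableSpace β] [Countable α]
    [MeasurableSingletonClass α] {X : Om d κ → α} (hX : Measurable X) (F : (Fin d → α) → β) :
    Measurable fun σ : Om d κ => F fun i => X (sub σ i) :=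
  (measurable_of_countable F).comp (measurable_pi_lambda _ fun i => hX.comp (m_sub i))

theorem m_mv (k : ℕ) : ∀ y, Measurable fun σ : Om d κ => mv k σ y := by
  induction k with
  | zero => exact fun _ => measurable_const
  | succ k ih =>
    exact fun y => bindm (m_root.prodMk (ih y)) (fun z σ => (if 2 ≤ (if y k = col z.1 z.2 k + 1
      then 1 else 0) + (univ.filter fun i => col (sub σ i []) (mv k (sub σ i) (col z.1 z.2)) k =
        col z.1 z.2 k + 1).card then 2 ^ k else 0) + z.2) fun z =>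
      m_kids (m_root.prodMk (ih (col z.1 z.2))) fun l => (if 2 ≤ (if y k = col z.1 z.2 k + 1
      then 1 else 0) + (univ.filter fun i => col (l i).1 (l i).2 k =
        col z.1 z.2 k + 1).card then 2 ^ k else 0) + z.2

theorem m_lab (T n : ℕ) : ∀ y, Measurable fun σ : Om d κ => lab T n σ y := by
  induction n with
  | zero =>
    exact fun y => (measurable_of_countable fun z : ZMod κ × ℕ => mkl T z.1 z.2 y fun _ => 0).comp
      (m_root.prodMk (m_mv T y))
  | succ n ih =>
    exact fun y => bindm (m_root.prodMk (m_mv T y)) (fun z σ => mkl T z.1 z.2 y fun b =>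
      (∑ i, vec (lab T n (sub σ i) (col z.1 z.2))) (T + b)) fun z =>
      m_kids (ih (col z.1 z.2)) fun l => mkl T z.1 z.2 y fun b => (∑ i, vec (l i)) (T + b)

theorem m_kv (T n x : ℕ) (θ : (ℕ → ℕ) → ℕ) : Measurable fun σ : Om d κ => θ (kv T n σ x) := by
  cases n with
  | zero => exact measurable_const (a := θ fun _ => 0)
  | succ n =>
    exact bindm m_root (fun c σ => θ fun b => (∑ i, vec (lab T n (sub σ i) (col c x))) (T + b))
      fun c => m_kids (m_lab T n (col c x)) fun l => θ fun b => (∑ i, vec (l i)) (T + b)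

/-- size of the bad cluster of the root -/
noncomputable def cl (T : ℕ) : ℕ → Om d κ → ℕ → ℕ
  | 0, _, _ => 0
  | n + 1, σ, x => (1 + ∑ i, cl T n (sub σ i) (mv T (sub σ i) (col (σ []) x))) *
      if bad (κ - 1) (kv T (n + 1) σ x) then 1 else 0

noncomputable def hw (T n : ℕ) (y : ℕ → ZMod κ) (σ : Om d κ) : ℕ := cl T n σ (mv T σ y)

theorem m_hw (T n : ℕ) : ∀ y, Measurable (hw (d := d) (κ := κ) T n y) := by
  induction n with
  | zero => exact fun _ => measurable_const
  | succ n ih =>
    exact fun y => bindm (m_root.prodMk (m_mv T y)) (fun z σ =>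
      (1 + ∑ i, hw T n (col z.1 z.2) (sub σ i)) * if bad (κ - 1) (kv T (n + 1) σ z.2) then 1 else 0)
      fun z => (m_kids (ih (col z.1 z.2)) fun l => 1 + ∑ i, l i).mul
        (m_kv T (n + 1) z.2 fun k => if bad (κ - 1) k then 1 else 0)

theorem Bc_cl (T n : ℕ) : ∀ m (σ : Om d κ) x, Bc T n m σ x → m < cl T n σ x := by
  induction n with
  | zero => exact fun _ _ _ h => h.elim
  | succ n ih =>
    intro m σ x h
    cases m with
    | zero => rw [cl, if_pos (show bad _ _ from h)]; omega
    | succ m =>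
      obtain ⟨h1, i, h2⟩ := h
      have := single_le_sum (f := fun i => cl T n (sub σ i) (mv T (sub σ i) (col (σ []) x)))
        (fun _ _ => Nat.zero_le _) (mem_univ i)
      have := ih _ _ _ h2
      rw [cl, if_pos h1]; omega

noncomputable abbrev mu (d κ : ℕ) : Measure (Om d κ) := PP (List (Fin d)) (ZMod κ)

theorem mu_rect (c : ZMod κ) {A : Fin d → Set (Om d κ)} (hA : ∀ i, MeasurableSet (A i)) :
    κ * mu d κ {σ | σ [] = c ∧ ∀ i, sub σ i ∈ A i} = ∏ i, mu d κ (A i) := by
  have h := prod_law c hA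
  rw [ZMod.card, eq_inv_mul_iff_mul_eq₀ (Nat.cast_ne_zero.2 (NeZero.ne κ))] at h
  refine (ENNReal.toReal_eq_toReal_iff' (by finiteness) (ENNReal.prod_ne_top fun _ _ => by finiteness)).1 ?_
  rw [ENNReal.toReal_mul, ENNReal.toReal_prod]
  exact h

theorem law (c : ZMod κ) {F : (Fin d → Om d κ) → ℝ≥0∞} (hF : Measurable F) :
    κ * ∫⁻ σ in {σ | σ [] = c}, F (sub σ) ∂mu d κ = ∫⁻ τ, F τ ∂Measure.pi fun _ => mu d κ := by
  have hm : Measurable (sub : Om d κ → _) := measurable_pi_lambda _ m_sub
  have : (Measure.pi fun _ => mu d κ) =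
      (κ : ℝ≥0∞) • ((mu d κ).restrict {σ | σ [] = c}).map sub := by
    refine Measure.pi_eq fun s hs => ?_
    have h1 := MeasurableSet.univ_pi hs
    rw [Measure.smul_apply, Measure.map_apply hm h1, Measure.restrict_apply (hm h1), smul_eq_mul,
      ← mu_rect c hs]
    congr 2; ext σ; simp [and_comm]
  rw [this, lintegral_smul_measure, lintegral_map hF hm, smul_eq_mul]

end Pool.Agent.P.MP_5517c4_pr.Cca
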