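import Pool.Agent.P.MP_5517c4_pr.Cca.Fib

/-! A valid certificate implies almost sure fixation. -/

set_option autoImplicit false
set_option linter.unusedSectionVars false

namespace Pool.Agent.P.MP_5517c4_pr.Cca

open Finset Filter MeasureTheory
open scoped Classical ENNReal

/-- a valid certificate -/
structure Gd (C : Ce) (K k : ℕ) : Prop where
  hκ : 3 ≤ C.κ
  hd : C.d = 3 ∨ C.d = 4
  hT : C.T = k + 3
  hS : C.SC ≠ 0
  hK : K ^ C.d * C.κ = C.SC * K
  h0 : K ≤ C.κ * vI 32 (nv C.R) 0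
  hL : ∀ j, j + 1 < C.T → ∀ x < 2 ^ (j + 1), C.ckL (j + 1) x = true
  hC : ∀ x < 2 ^ C.T, C.ckT x = true

variable {C : Ce} [NeZero C.κ] {K k a x y n : ℕ} {c : ZMod C.κ}

theorem canc (g : Gd C K k) {u : ℝ≥0∞} {m : ℕ} (h : u * C.SC ≤ (m * C.SC : ℕ)) : u ≤ m := by
  rw [Nat.cast_mul] at h
  exact (ENNReal.mul_le_mul_iff_left (Nat.cast_ne_zero.2 g.hS) (ENNReal.natCast_ne_top _)).1 h

theorem use_cc (g : Gd C K k) {j : ℕ} (hj : j ≤ C.T) {A G : Bg} {base : V → ℕ}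
    {fin : ℕ → ℕ → DT → ℕ → Bool} (hc : Cc C j x A G base fin) (ha : a < C.κ) (y : ℕ)
    (hA : Dm (mu C.d C.κ) K (Le C.T j) (lv' C.T n (col (c + (a : ZMod C.κ)) x)) (fun _ => 1) A) :
    ∃ A' G', Ok C.W (fun v => ∀ j, v j ≤ C.d) A' ∧ Ok C.W (fun v => ∀ j, v j ≤ C.d) G' ∧
      (∀ φ, Mo (Le C.T j) φ → Fx K (Fb j c y a x)
        (fun σ : Om C.d C.κ => φ (sv C.T n (col (c + (a : ZMod C.κ)) x) σ)) * C.SC ≤ pr A' φ) ∧
      (∀ h, Measurable h →
        Dm (mu C.d C.κ) K (Le C.T j) (lv' C.T n (col (c + (a : ZMod C.κ)) x)) h G →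
        ∀ φ, Mo (Le C.T j) φ → Fx K (Fb j c y a x) (fun σ : Om C.d C.κ => (∑ i, h (sub σ i)) *
          φ (sv C.T n (col (c + (a : ZMod C.κ)) x) σ)) * C.SC ≤ (C.d * pr G' φ : ℕ)) ∧
      fin (pr A' fun v => 2 ^ base v) (pr G' fun v => 2 ^ base v)
        (run C.κ C.R a x y j).2.1 (run C.κ C.R a x y j).2.2 = true := by
  obtain ⟨A', G', oA, oG, h1, h2, h3⟩ := hc a ha y
  have e : ∀ (S : Set (Om C.d C.κ)) F, Fx K S F * C.SC = Fx (K ^ C.d * C.κ) S F := fun S F => by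
    rw [g.hK, Fx, Fx, Nat.cast_mul, mul_comm, mul_assoc]
  refine ⟨A', G', oA, oG, fun φ hφ => ?_, fun h hh hG φ hφ => ?_, h3⟩
  · have := step (R := C.R) (y := y) g.hκ ha hj (fun _ => measurable_const) (fun _ => hA) hφ
    simp only [prod_const, card_univ, Fintype.card_fin, one_pow, one_mul] at this
    exact (e _ _).trans_le (this.trans (Nat.cast_le.2 (h1 φ)))
  · have h4 : ∀ i : Fin C.d, Fx (K ^ C.d * C.κ) (Fb j c y a x) (fun σ : Om C.d C.κ =>
        h (sub σ i) * φ (sv C.T n (col (c + (a : ZMod C.κ)) x) σ)) ≤ pr G' φ := fun i => by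
      have := step (R := C.R) (y := y) g.hκ ha hj (h := fun i' => if i' = i then h else fun _ => 1)
        (A := Function.update (fun _ => A) i G)
        (fun i' => by split_ifs; exacts [hh, measurable_const]) (fun i' => by
          rw [Function.update_apply]; split_ifs; exacts [hG, hA]) hφ
      rw [prod_update_of_mem (mem_univ i), prod_const, card_univ_sdiff, mul_comm G] at this
      simp only [ite_apply, prod_ite_eq', mem_univ, if_true, Fintype.card_fin, card_singleton] at this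
      exact this.trans (Nat.cast_le.2 (h2 φ))
    have h5 := sum_le_sum fun i (_ : i ∈ univ) => h4 i
    rw [sum_const, card_univ, Fintype.card_fin, nsmul_eq_mul, ← Nat.cast_mul] at h5
    refine (e _ _).trans_le (le_trans (le_of_eq ?_) h5)
    simp only [Fx, sum_mul, Nat.cast_sum, ← mul_sum]
    rw [lintegral_finsetSum]
    exact fun i _ => measurable_from_top.comp ((hh.comp (m_sub i)).mul
      (m_kids (m_lab C.T n _) fun l => φ (∑ i, vec (l i))))

theorem mo_one (L : V → V → Prop) : Mo L fun _ => 1 := fun _ _ _ => le_rfl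

/-- bound at the inner nodes of level `j` -/
def Mk (C : Ce) (K o j : ℕ) (h : (ℕ → ZMod C.κ) → Om C.d C.κ → ℕ) : Prop :=
  ∀ (c : ZMod C.κ) y, ∀ a < C.κ, ∀ x < 2 ^ j, Fx K (Fb j c y a x) (h (col c y)) ≤
    vI o (nv (run C.κ C.R a x y j).2.1) (run C.κ C.R a x y j).2.2

theorem Mk.dm (g : Gd C K k) {o j : ℕ} {h : (ℕ → ZMod C.κ) → Om C.d C.κ → ℕ} (H : Mk C K o j h)
    (hj : j < C.T) (c : ZMod C.κ) (y : ℕ) : Dm (mu C.d C.κ) K (Le C.T (j + 1))
      (lv' C.T n (col c y)) (h (col c y)) (bag C.κ C.R (lbV C.T o) j y) :=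
  dom_of fun a ha x hx _ hψ => fibV g.hκ ha hj (H c y a ha x hx) hψ

theorem ckL_cut (g : Gd C K k) (hx : x < 2 ^ (k + 2)) (h : C.ct.testBit x = true) :
    Cc C (k + 2) x (bag C.κ C.R (lbV C.T 32) (k + 1) x) (bag C.κ C.R (lbV C.T 64) (k + 1) x)
      (fun _ => 0) (finC C.d C.SC) := by
  have := g.hL (k + 1) (by rw [g.hT]; omega) x hx
  rw [Ce.ckL, ble_iff.2 (by rw [g.hT]; omega), beq_t g.hT, h] at this
  exact ckV_sound g.hκ g.hd (by rw [g.hT]; omega) this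

theorem ckL_S (g : Gd C K k) {j : ℕ} (hx : x < 2 ^ (j + 1))
    (h : j = k ∨ j = k + 1 ∧ C.ct.testBit x = false) :
    Cc C (j + 1) x (bag C.κ C.R (lbV C.T 32) j x) 0 (fun _ => 0) (finS C.SC) := by
  have hT := g.hT
  have := g.hL j (by omega) x hx
  rw [Ce.ckL, ble_iff.2 (by omega)] at this
  refine ckM_sound g.hκ g.hd (by omega) ?_
  rcases h with h | ⟨-, h⟩
  · rwa [beq_f (by omega)] at this
  · rw [h] at this; revert this; cases Nat.beq C.T (j + 1 + 1) <;> exact id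

theorem ckL_I (g : Gd C K k) {j : ℕ} (hj : j + 1 < C.T) (hx : x < 2 ^ (j + 1)) :
    ∃ G fin, Cc C (j + 1) x (bag C.κ C.R (lbV C.T 32) j x) G (fun _ => 0) fin ∧
      ∀ s g t i, fin s g t i = true → finI C.SC s g t i = true := by
  have := g.hL j hj x hx
  rw [Ce.ckL] at this
  revert this
  cases Nat.ble C.T (j + 1 + 2)
  · exact fun h => ⟨_, _, ckM_sound g.hκ g.hd (by omega) h, fun _ _ _ _ => id⟩
  cases an _ _
  · exact fun h => ⟨_, _, ckM_sound g.hκ g.hd (by omega) h, fun _ _ _ _ h => (an_iff.1 h).1⟩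
  · exact fun h => ⟨_, _, ckV_sound g.hκ g.hd (by omega) h, fun _ _ _ _ h =>
      (an_iff.1 (an_iff.1 h).2).1⟩

theorem marg (g : Gd C K k) (j : ℕ) : j < C.T → Mk C K 32 j fun _ _ => 1 := by
  induction j with
  | zero =>
    intro _ c y a _ x _
    have h1 := law (d := C.d) (c + (a : ZMod C.κ)) (F := fun _ => 1) measurable_const
    rw [lintegral_one (μ := Measure.pi _), measure_univ] at h1
    calc _ ≤ ((C.κ * vI 32 (nv C.R) 0 : ℕ) : ℝ≥0∞) * ∫⁻ σ in {σ | σ [] = c + a}, 1 ∂mu C.d C.κ :=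
          mul_le_mul' (Nat.cast_le.2 g.h0) (by
            simp only [Nat.cast_one]; exact lintegral_mono_set fun _ h => h.1)
      _ = _ := by rw [Nat.cast_mul, mul_right_comm, h1, one_mul]; rfl
  | succ j ih =>
    intro hj c y a ha x hx
    obtain ⟨G, fin, h1, h2⟩ := ckL_I g hj hx
    obtain ⟨A', G', -, -, h3, -, h4⟩ := use_cc (n := 0) g hj.le h1 ha y ((ih (by omega)).dm g (by omega) _ _)
    exact canc g ((h3 _ (mo_one _)).trans (Nat.cast_le.2 (ble_iff.1 (h2 _ _ _ _ h4))))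

theorem finT_sound {d W T SC l L i : ℕ} {t : DT} {A G : Bg} (hd : 2 ≤ d) (hl : l ≤ L)
    (oA : Ok W (fun v => ∀ j, v j ≤ d) A) (oG : Ok W (fun v => ∀ j, v j ≤ d) G)
    (h : finT d W SC l (pr A fun v => 2 ^ ic d W T l 0 v) (pr G fun v => 2 ^ ic d W T l 0 v) t i =
      true) {θ : (ℕ → ℕ) → ℕ} (hθ : Pm θ) :
    ((l ≠ 0 → θ (fun _ => 0) = 0) → pr A (fun v => θ fun c => v (T + c)) ≤
      lfs rR vR (fun ρ w => w * θ ρ) t i * SC) ∧
    pr A (fun v => if bad L fun c => v (T + c) then θ fun c => v (T + c) else 0) +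
      d * pr G (fun v => if bad L fun c => v (T + c) then θ fun c => v (T + c) else 0) ≤
      lfs rG vG (fun ρ w => w * θ ρ) t i * SC := by
  cases t with
  | F h' v =>
    obtain ⟨h1, h2⟩ := an_iff.1 h
    obtain rfl := Nat.eq_of_beq_eq_true h1
    have := cp_sound hd (L := L) h' 0 (fun _ => 0) 0 0 true A G
      (oA.mono fun v hv => ⟨hv, fun _ h => absurd h (Nat.not_lt_zero _)⟩)
      (oG.mono fun v hv => ⟨hv, fun _ h => absurd h (Nat.not_lt_zero _)⟩) (by omega) h2 θ hθ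
    exact ⟨fun k => this.1 fun _ => k, this.2⟩
  | _ => exact absurd h Bool.false_ne_true

theorem ckT_cases (g : Gd C K k) (hx : x < 2 ^ C.T) (h : C.ct.testBit (x % 2 ^ (k + 2)) = false) :
    Cc C C.T x (bag C.κ C.R (lbV C.T 32) (k + 2) x) (bag C.κ C.R (lbV C.T 64) (k + 2) x)
      (ic C.d C.W C.T 0 0) (finT C.d C.W C.SC 0) ∨ ∃ l ≤ C.κ - 1,
    Cc C C.T x (bag C.κ C.R (lbV C.T 32) (k + 2) x) 0 (fun _ => 0) (finW C.SC) ∧
    Cc C C.T x (bag C.κ C.R (lbC C.κ C.T 32 rR vR (x.testBit (k + 2))) (k + 2) x)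
      (bag C.κ C.R (lbC C.κ C.T 64 rG vG (x.testBit (k + 2))) (k + 2) x) (ic C.d C.W C.T l 0)
      (finT C.d C.W C.SC l) := by
  have h1 := g.hC x hx
  have hT := g.hT
  rw [Ce.ckT, show C.T - 1 = k + 2 by omega, h, cond_false] at h1
  revert h1
  cases Nat.beq (C.l x) 0
  · intro h1
    obtain ⟨h2, h3⟩ := an_iff.1 h1
    obtain ⟨h2, h4⟩ := an_iff.1 h2
    refine .inr ⟨_, ble_iff.1 h2, ?_, ?_⟩
    · have := ckM_sound g.hκ g.hd (show k + 2 < C.T by omega) (hT ▸ h4)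
      rwa [show k + 2 + 1 = C.T by omega] at this
    · have := ckC_sound g.hκ g.hd hT h3
      rwa [show k + 2 + 1 = C.T by omega] at this
  · intro h1
    have := ckV_sound g.hκ g.hd (show k + 2 < C.T by omega) (hT ▸ h1)
    rw [show k + 2 + 1 = C.T by omega] at this
    exact .inl this

theorem Mk.dm' (g : Gd C K k) {o : ℕ} {h : (ℕ → ZMod C.κ) → Om C.d C.κ → ℕ}
    (H : Mk C K o (k + 2) h) (c : ZMod C.κ) (y : ℕ) : Dm (mu C.d C.κ) K (Le C.T C.T)
      (lv' C.T n (col c y)) (h (col c y)) (bag C.κ C.R (lbV C.T o) (k + 2) y) := by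
  have := H.dm (n := n) g (by rw [g.hT]; omega) c y
  rwa [show k + 2 + 1 = C.T from g.hT.symm] at this

theorem margT (g : Gd C K k) (ha : a < C.κ) (hx : x < 2 ^ C.T)
    (h : C.ct.testBit (x % 2 ^ (k + 2)) = false) : Fx K (Fb (d := C.d) C.T c y a x) (fun _ => 1) ≤
      lfs rR vR (fun _ w => w * 1) (run C.κ C.R a x y C.T).2.1 (run C.κ C.R a x y C.T).2.2 := by
  have hA := (marg g (k + 2) (by rw [g.hT]; omega)).dm' (n := 0) g (c + (a : ZMod C.κ)) x
  rcases ckT_cases g hx h with h1 | ⟨l, -, h1, -⟩ <;>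
    obtain ⟨A', G', oA, oG, h3, -, h4⟩ := use_cc g le_rfl h1 ha y hA <;>
    refine canc g ((h3 _ (mo_one _)).trans (Nat.cast_le.2 ?_))
  · exact (finT_sound (by have := g.hd; omega) le_rfl oA oG h4 (θ := fun _ => 1)
      fun _ _ _ => le_rfl).1 fun h => absurd rfl h
  · rw [← lfR_eq]; exact ble_iff.1 h4

theorem lfs_up (θ : (ℕ → ℕ) → ℕ) (hθ : Pm θ) (t : DT) (i : ℕ) :
    lfs rR vR (fun _ w => w * 1) t i * θ (fun _ => 0) +
      lfs rR vR (fun ρ w => w * (θ ρ - θ fun _ => 0)) t i ≤ lfs rR vR (fun ρ w => w * θ ρ) t i := by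
  cases t with
  | F h v =>
    simp only [lfs]
    rw [← ls_mul, ← ls_add]
    refine ls_mono (fun ρ p => ?_) _ _
    rw [mul_one, ← mul_add, Nat.add_sub_cancel' (hθ _ _ fun r ε h1 h2 b hb => by
      have := h1 b; have := h2 b hb; omega)]
  | _ => simp [lfs]

/-- bound at the leaves -/
def Lk (C : Ce) (K k n : ℕ) (rp : ℕ → List (ℕ → ℕ)) (val : ℕ → ℕ → ℕ → ℕ → ℕ)
    (h : (ℕ → ZMod C.κ) → Om C.d C.κ → ℕ) : Prop :=
  ∀ (c : ZMod C.κ) y, ∀ a < C.κ, ∀ x < 2 ^ C.T, C.ct.testBit (x % 2 ^ (k + 2)) = false →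
    ∀ θ, Pm θ → Fx K (Fb C.T c y a x) (fun σ => h (col c y) σ * θ (kv C.T n σ x)) ≤
      lfs rp val (fun ρ w => w * θ ρ) (run C.κ C.R a x y C.T).2.1 (run C.κ C.R a x y C.T).2.2

theorem upg (g : Gd C K k) (H : ∀ (c : ZMod C.κ) y, ∀ a < C.κ, ∀ x < 2 ^ C.T,
    C.ct.testBit (x % 2 ^ (k + 2)) = false → ∀ θ, Pm θ → θ (fun _ => 0) = 0 →
      Fx K (Fb C.T c y a x) (fun σ : Om C.d C.κ => θ (kv C.T n σ x)) ≤
      lfs rR vR (fun ρ w => w * θ ρ) (run C.κ C.R a x y C.T).2.1 (run C.κ C.R a x y C.T).2.2) :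
    Lk C K k n rR vR fun _ _ => 1 := by
  intro c y a ha x hx h θ hθ
  refine le_trans ?_ (Nat.cast_le.2 (lfs_up θ hθ _ _))
  rw [Nat.cast_add, Nat.cast_mul]
  refine le_trans ?_ (add_le_add (mul_le_mul_left (margT (c := c) g ha hx h) _)
    (H c y a ha x hx h _ (fun k ρ e => Nat.sub_le_sub_right (hθ _ _ e) _) (Nat.sub_self _)))
  rw [← Fx_mul, ← Fx_add _ measurable_const]
  exact Fx_mono m_Fb fun σ _ => by simp only [one_mul]; omega

theorem lt2 {j x' : ℕ} (hx : x < 2 ^ j) (h : x' = x ∨ x' = 2 ^ j + x) :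
    x' < 2 ^ (j + 1) ∧ x' % 2 ^ j = x := by
  refine ⟨by rw [pow_succ]; omega, ?_⟩
  rcases h with rfl | rfl
  exacts [Nat.mod_eq_of_lt hx, (Nat.add_mod_left _ _).trans (Nat.mod_eq_of_lt hx)]

theorem Lk.dm (g : Gd C K k) {o : ℕ} {rp : ℕ → List (ℕ → ℕ)} {val : ℕ → ℕ → ℕ → ℕ → ℕ}
    {h : (ℕ → ZMod C.κ) → Om C.d C.κ → ℕ} (H : Lk C K k n rp val h) (H1 : Mk C K o (k + 2) h)
    (c : ZMod C.κ) (y : ℕ) : Dm (mu C.d C.κ) K (Le C.T C.T) (lv' C.T n (col c y)) (h (col c y))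
      (bag C.κ C.R (lbC C.κ C.T o rp val (y.testBit (k + 2))) (k + 2) y) := by
  have hT : C.T = k + 2 + 1 := g.hT
  refine dom_of (c := c) fun a ha x hx ψ hψ => ?_
  rw [Lk, hT] at H
  rw [hT] at hψ ⊢
  refine fibC g.hκ ha hx (H1 c y a ha x hx) (fun e x' hx' => H c y a ha x' (lt2 hx hx').1 ?_) hψ
  rw [(lt2 hx hx').2, ← Bool.not_eq_true]
  intro hc
  obtain ⟨_, _, -, -, -, -, h2⟩ := ckL_cut g hx hc a ha y
  have h3 := an_iff.1 (an_iff.1 h2).1
  rw [(run_top hx).1, adv] at e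
  revert e
  cases Nat.beq (run C.κ C.R a x y (k + 2)).1 (C.κ - 1)
  exacts [fun e => e h3.1, fun e => e h3.2]

theorem gS_step {j : ℕ} {A G : Bg} {base : V → ℕ} (hc : Cc C j x A G base (finS C.SC))
    (ha : a < C.κ) (hx : x < 2 ^ j) {F : Om C.d C.κ → ℕ}
    (H : ∀ x', x' = x ∨ x' = 2 ^ j + x → Fx K (Fb (j + 1) c y a x') F ≤
      gT (run C.κ C.R a x' y (j + 1)).2.1 (run C.κ C.R a x' y (j + 1)).2.2) :
    Fx K (Fb j c y a x) F ≤ vI 64 (nv (run C.κ C.R a x y j).2.1) (run C.κ C.R a x y j).2.2 := by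
  obtain ⟨_, _, -, -, -, -, h2⟩ := hc a ha y
  have h3 := an_iff.1 (an_iff.1 h2).2
  refine (Fx_split _).trans ((add_le_add (H _ (.inl rfl)) (H _ (.inr rfl))).trans ?_)
  rw [(run_top hx).1, (run_top hx).2.1, ← Nat.cast_add, Nat.cast_le, adv, adv]
  cases Nat.beq (run C.κ C.R a x y j).1 (C.κ - 1)
  exacts [ble_iff.1 h3.1, ble_iff.1 h3.2]

theorem main (g : Gd C K k) (n : ℕ) : (Lk C K k n rR vR fun _ _ => 1) ∧
    Lk C K k n rG vG (hw C.T n) ∧ Mk C K 64 (k + 2) (hw C.T n) := by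
  have hT := g.hT
  have hd : 2 ≤ C.d := by have := g.hd; omega
  induction n with
  | zero =>
    refine ⟨upg g fun c y a _ x _ _ θ _ h => ?_, fun c y a _ x _ _ θ _ => ?_, fun c y a _ x _ => ?_⟩
    all_goals simp [Fx, kv, hw, cl, *]
  | succ n ih =>
    obtain ⟨i1, i2, i3⟩ := ih
    have m2 := marg g (k + 2) (by omega)
    have key : ∀ (c : ZMod C.κ) y, ∀ a < C.κ, ∀ x < 2 ^ C.T,
        C.ct.testBit (x % 2 ^ (k + 2)) = false → ∀ θ, Pm θ → (θ (fun _ => 0) = 0 →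
        Fx K (Fb C.T c y a x) (fun σ : Om C.d C.κ => θ (kv C.T (n + 1) σ x)) ≤
        lfs rR vR (fun ρ w => w * θ ρ) (run C.κ C.R a x y C.T).2.1 (run C.κ C.R a x y C.T).2.2) ∧
        Fx K (Fb C.T c y a x) (fun σ : Om C.d C.κ =>
          hw C.T (n + 1) (col c y) σ * θ (kv C.T (n + 1) σ x)) ≤
        lfs rG vG (fun ρ w => w * θ ρ) (run C.κ C.R a x y C.T).2.1 (run C.κ C.R a x y C.T).2.2 := by
      intro c y a ha x hx h θ hθ
      obtain ⟨A, G, l, hl, hc, hA, hG⟩ : ∃ A G, ∃ l ≤ C.κ - 1,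
          Cc C C.T x A G (ic C.d C.W C.T l 0) (finT C.d C.W C.SC l) ∧ Dm (mu C.d C.κ) K (Le C.T C.T)
            (lv' C.T n (col (c + (a : ZMod C.κ)) x)) (fun _ => 1) A ∧ Dm (mu C.d C.κ) K (Le C.T C.T)
            (lv' C.T n (col (c + (a : ZMod C.κ)) x)) (hw C.T n (col (c + (a : ZMod C.κ)) x)) G := by
        rcases ckT_cases g hx h with h1 | ⟨l, hl, -, h1⟩
        exacts [⟨_, _, 0, Nat.zero_le _, h1, m2.dm' g _ _, i3.dm' g _ _⟩,
          ⟨_, _, l, hl, h1, i1.dm g m2 _ _, i2.dm g i3 _ _⟩]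
      obtain ⟨A', G', oA, oG, h3, h4, h5⟩ := use_cc g le_rfl hc ha y hA
      obtain ⟨f1, f2⟩ := finT_sound hd hl oA oG h5 hθ
      have e : ∀ σ ∈ Fb (d := C.d) C.T c y a x, kv C.T (n + 1) σ x =
          fun b => sv C.T n (col (c + (a : ZMod C.κ)) x) σ (C.T + b) := fun σ hσ => by
        rw [← hσ.1]; rfl
      have p1 : Mo (Le C.T C.T) fun v => θ fun b => v (C.T + b) := fun v v' e =>
        hθ _ _ fun r ε _ h b hb => (h b hb).trans (Nat.add_le_add_right (e.2 b) _)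
      have p2 : Mo (Le C.T C.T) fun v => if bad (C.κ - 1) fun b => v (C.T + b) then
          θ fun b => v (C.T + b) else 0 := fun v v' e => by
        dsimp only
        split_ifs with h1 h2
        exacts [p1 _ _ e, absurd (fun b hb => (h1 b hb).trans (e.2 b)) h2, Nat.zero_le _, le_rfl]
      refine ⟨fun h0 => canc g (le_trans (mul_le_mul_left (Fx_mono m_Fb fun σ hσ => ?_) _)
        ((h3 _ p1).trans (Nat.cast_le.2 (f1 fun _ => h0)))), canc g (le_trans ?_ (Nat.cast_le.2 f2))⟩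
      · rw [e σ hσ]
      · rw [Nat.cast_add]
        refine le_trans ?_ (add_le_add (h3 _ p2) (h4 _ (m_hw _ _ _) hG _ p2))
        rw [← add_mul]
        refine mul_le_mul_left ((Fx_mono m_Fb fun σ hσ => ?_).trans_eq (Fx_add _
          (m_kids (m_lab C.T n _) fun l => if bad (C.κ - 1) fun b => (∑ i, vec (l i)) (C.T + b) then
            θ fun b => (∑ i, vec (l i)) (C.T + b) else 0) _)) _
        rw [hw, hσ.2, cl, e σ hσ, hσ.1, mul_assoc, ite_mul, one_mul, zero_mul, one_add_mul]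
        exact le_rfl
    refine ⟨upg g fun c y a ha x hx h θ hθ => (key c y a ha x hx h θ hθ).1,
      fun c y a ha x hx h θ hθ => (key c y a ha x hx h θ hθ).2, fun c y a ha x hx => ?_⟩
    cases hc : C.ct.testBit x
    · refine gS_step (ckL_S g hx (.inr ⟨rfl, hc⟩)) ha hx fun x' hx' => ?_
      have := (key c y a ha x' (hT ▸ (lt2 hx hx').1) ((lt2 hx hx').2.symm ▸ hc) (fun _ => 1)
        fun _ _ _ => le_rfl).2
      rw [show k + 1 + 1 + 1 = C.T by omega]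
      simp only [mul_one] at this
      refine this.trans (Nat.cast_le.2 ?_)
      cases (run C.κ C.R a x' y C.T).2.1 with
      | F h v => exact ((lfG_eq (fun _ => 1) (.F h v) _).trans (by simp)).ge
      | _ => exact Nat.zero_le _
    · have i4 : Mk C K 64 (k + 1) (hw C.T n) := fun c y a ha x hx =>
        gS_step (ckL_S g hx (.inl rfl)) ha hx fun x' hx' =>
          (i3 c y a ha x' (lt2 hx hx').1).trans (Nat.cast_le.2 (by
            cases (run C.κ C.R a x' y (k + 2)).2.1 <;> simp [gT, nv, vI]))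
      obtain ⟨A', G', -, -, h3, h4, h5⟩ := use_cc (n := n) g (by omega) (ckL_cut g hx hc) ha y
        ((marg g (k + 1) (by omega)).dm g (by omega) _ _)
      obtain ⟨h6, h7⟩ := an_iff.1 (an_iff.1 h5).2
      refine canc g (le_trans ?_ (Nat.cast_le.2 (ble_iff.1 h7)))
      refine le_trans ?_ ((add_le_add ((h3 _ (mo_one _)).trans (Nat.cast_le.2 (ble_iff.1 h6)))
        (h4 _ (m_hw _ _ _) (i4.dm g (by omega) _ _) _ (mo_one _))).trans_eq (Nat.cast_add _ _).symm)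
      rw [← add_mul, ← Fx_add _ measurable_const]
      refine mul_le_mul_left (Fx_mono m_Fb fun σ hσ => ?_) _
      rw [hw, cl, mul_one]
      refine (Nat.mul_le_mul_left _ (show _ ≤ 1 by split_ifs <;> simp)).trans (le_of_eq ?_)
      rw [mul_one]
      refine congrArg _ (sum_congr rfl fun i _ => congrArg _ (mv_congr _ _ fun s hs => ?_))
      rw [col_mv _ _ hs.le, Fb.col hσ (by omega)]

theorem no_chain (g : Gd C K k) (hK : K ≠ 0) (c : ZMod C.κ) (y : ℕ) : ∀ᵐ σ ∂mu C.d C.κ,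
    ∃ m, ∀ a, ∃ n, a ≤ n ∧ ¬Bc C.T n m σ (mv C.T σ (col c y)) := by
  have h1 : ∀ n, Measurable fun σ : Om C.d C.κ => (K : ℝ≥0∞) * hw C.T n (col c y) σ := fun n =>
    (measurable_from_top.comp (m_hw _ _ _)).const_mul _
  have h2 := (lintegral_liminf_le (μ := mu C.d C.κ) (u := atTop) h1).trans
    (liminf_le_of_frequently_le' (Frequently.of_forall fun n => by
      have := (main g n).2.2.dm' (n := n) g c y _ (mo_one _)
      simp only [mul_one] at this
      rwa [lintegral_const_mul' _ _ (ENNReal.natCast_ne_top _)]))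
  refine (ae_lt_top (Measurable.liminf h1) (h2.trans_lt (ENNReal.natCast_lt_top _)).ne).mono
    fun σ h => ?_
  obtain ⟨m, hm⟩ := ENNReal.exists_nat_gt h.ne
  refine ⟨m, fun a => ?_⟩
  obtain ⟨n, hn, h3⟩ := frequently_atTop.1 (frequently_lt_of_liminf_lt (h := hm)) a
  refine ⟨n, hn, fun h4 => ?_⟩
  rw [← Nat.cast_mul, Nat.cast_lt] at h3
  have := Bc_cl _ _ _ _ _ h4
  have := Nat.le_mul_of_pos_left (hw C.T n (col c y) σ) (Nat.pos_of_ne_zero hK)
  rw [hw] at this h3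
  omega

theorem cca_fix (g : Gd C K k) (hK : K ≠ 0) (hd : C.d ≤ C.κ) {U : Type} {G : SimpleGraph U}
    (hG : G.IsTree) (hr : ∀ v, (G.neighborSet v).ncard = C.d + 1) :
    ∀ᵐ γ ∂PP U (ZMod C.κ), ∀ v, ∃ c, ∀ᶠ t in atTop, (ccaStep G C.κ 2)^[t] γ v = c := by
  have := countable_of hG.connected hr
  have key : ∀ p w c y, ∀ᵐ γ ∂PP U (ZMod C.κ), G.Adj p w → ∃ m, ∀ a, ∃ n, a ≤ n ∧
      ¬Bc C.T n m (fun l => γ (emb G C.d p w l))
        (mv C.T (fun l => γ (emb G C.d p w l)) (col c y)) := by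
    intro p w c y
    by_cases h : G.Adj p w
    · have hm : Measurable fun (γ : U → ZMod C.κ) l => γ (emb G C.d p w l) := by fun_prop
      have : MeasurePreserving _ (PP U (ZMod C.κ)) (mu C.d C.κ) := ⟨hm, Measure.ext fun A hA => by
        rw [Measure.map_apply hm hA]; exact pull_le hG.isAcyclic hr h hA⟩
      exact (this.quasiMeasurePreserving.ae (no_chain g hK c y)).mono fun _ h _ => h
    · exact ae_of_all _ fun _ h' => absurd h' h
  simp only [← ae_all_iff] at key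
  refine key.mono fun γ hγ => fixes g.hκ hd hr γ fun p w h => ?_
  obtain ⟨m, hm⟩ := hγ p w (γ p) (mv C.T (fun l => γ (emb G C.d w p l)) (tj G γ w)) h
  refine good g.hκ hd hr γ C.T m p w h ?_
  rwa [mv_congr (y := col (γ p) _) _ _ fun s hs => (col_mv (fun l => γ (emb G C.d w p l)) _ hs.le).trans
    (X_tj hr γ s w p h.symm)] at hm

end Pool.Agent.P.MP_5517c4_pr.Cca
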