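import Pool.Agent.P.MP_5517c4_pr.Cca.Bld

/-! Soundness of the read-out of the tensors. -/

set_option autoImplicit false

namespace Pool.Agent.P.MP_5517c4_pr.Cca

open Finset
open scoped Classical

theorem an_iff {a b : Bool} : an a b = true ↔ a = true ∧ b = true := by
  cases a <;> cases b <;> simp [an]

theorem ble_iff {a b : ℕ} : Nat.ble a b = true ↔ a ≤ b := Nat.ble_eq.to_iff

theorem dn_bit {κ δ D : ℕ} (hκ : 3 ≤ κ) (hδ : δ < κ) (h : D.testBit δ = true) (mv m' : Bool) :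
    (dn κ mv (Nat.beq δ (κ - 1)) D).testBit (dd κ m' (δ + b2 mv)) = true := by
  have h1 : ∀ D', D'.testBit δ = true → (cond mv (D' ||| (((D' <<< 1) &&& on κ) ||| (D' >>> (κ - 1))))
      (D' ||| ((D' >>> 1) ||| ((D' &&& 1) <<< (κ - 1))))).testBit (dd κ m' (δ + b2 mv)) = true := by
    intro D' hD
    have e0 : (δ + κ) % κ = δ := by rw [Nat.add_mod_right, Nat.mod_eq_of_lt hδ]
    cases mv <;> cases m'
    · change Nat.testBit _ ((δ + κ) % κ) = true
      simp [e0, hD]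
    · change Nat.testBit _ ((δ + (κ - 1)) % κ) = true
      rcases δ with _ | δ
      · rw [zero_add, Nat.mod_eq_of_lt (by omega)]
        simp only [cond_false, Nat.testBit_or, Nat.testBit_shiftLeft, Nat.testBit_and, ge_iff_le,
          le_refl, Nat.sub_self, hD]
        simp
      · rw [show δ + 1 + (κ - 1) = δ + κ by omega, Nat.add_mod_right, Nat.mod_eq_of_lt (by omega)]
        simp only [cond_false, Nat.testBit_or, Nat.testBit_shiftRight, add_comm 1 δ, hD]
        simp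
    · change Nat.testBit _ ((δ + 1 + κ) % κ) = true
      rw [Nat.add_mod_right]
      by_cases e : δ + 1 = κ
      · rw [e, Nat.mod_self]
        simp only [cond_true, Nat.testBit_or, Nat.testBit_shiftRight, add_zero,
          show κ - 1 = δ by omega, hD]
        simp
      · rw [Nat.mod_eq_of_lt (by omega)]
        simp only [cond_true, Nat.testBit_or, Nat.testBit_shiftLeft, Nat.testBit_and, on_eq,
          Nat.testBit_two_pow_sub_one, Nat.add_sub_cancel, hD]
        simp [show δ + 1 < κ by omega]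
    · change Nat.testBit _ ((δ + 1 + (κ - 1)) % κ) = true
      simp [show δ + 1 + (κ - 1) = δ + κ by omega, e0, hD]
  refine h1 _ ?_
  by_cases e : δ = κ - 1
  · rw [beq_t e]; simp [← e, h]
  · rw [beq_f e]; simp [on_eq, h, show δ < κ - 1 by omega]

theorem go_sound {α : Type} {κ : ℕ} {mv : Bool} {f : α → α → DT → ℕ → ℕ → Bool}
    {s0 g0 s1 g1 : α} {s : St} {D : ℕ} (hκ : 3 ≤ κ) (hδ : s.1 < κ) (hD : D.testBit s.1 = true)
    (h : go κ mv f s0 g0 s1 g1 s.2.1 s.2.2 D = true) (m' : Bool) :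
    ∃ D', D'.testBit (adv κ m' s mv).1 = true ∧ f (cond (Nat.beq s.1 (κ - 1)) s1 s0)
      (cond (Nat.beq s.1 (κ - 1)) g1 g0) (adv κ m' s mv).2.1 (adv κ m' s mv).2.2 D' = true := by
  obtain ⟨δ, t, i⟩ := s
  have h1 : an (@Nat.rec (fun _ => Bool) true (fun m _ => f s0 g0 (nx t false mv) (ni t i false)
      (Nat.succ m)) (dn κ mv false D)) (@Nat.rec (fun _ => Bool) true (fun m _ => f s1 g1
      (nx t true mv) (ni t i true) (Nat.succ m)) (dn κ mv true D)) = true := by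
    cases t with
    | o => exact absurd h Bool.false_ne_true
    | F => exact absurd h Bool.false_ne_true
    | N => cases mv <;> exact h
    | H => exact h
  have h2 := dn_bit hκ hδ hD mv m'
  refine ⟨_, h2, ?_⟩
  rw [an_iff] at h1
  simp only [adv] at h2 ⊢
  generalize Nat.beq δ (κ - 1) = e at h2 ⊢
  cases e
  · have h3 := h1.1
    cases e : dn κ mv false D with
    | zero => rw [e] at h2; simp at h2
    | succ m => rw [e] at h3; exact h3
  · have h3 := h1.2
    cases e : dn κ mv true D with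
    | zero => rw [e] at h2; simp at h2
    | succ m => rw [e] at h3; exact h3

def qc (mv e : Bool) (k : ℕ) (v : V) : Prop := mv = true ↔ 2 ≤ v k + b2 e

theorem qc_iff (k : ℕ) (v : V) : (qc false false k v ↔ v k < 2) ∧ (qc false true k v ↔ v k < 1) ∧
    (qc true false k v ↔ 2 ≤ v k) ∧ (qc true true k v ↔ 1 ≤ v k) := by
  simp only [qc, b2, Bool.false_eq_true, false_iff, true_iff]; omega

theorem qc_ff (k : ℕ) (A : Bg) :
    Fl (fun v => v k = 0) A + Fl (fun v => v k = 1) A = Fl (qc false false k) A :=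
  ext_pr fun φ => by
    simp only [pr_add, pr_Fl, ← pr_addf, qc_iff]
    congr 1; funext v; split_ifs <;> omega

theorem qc_ft (k : ℕ) (A : Bg) : Fl (fun v => v k = 0) A = Fl (qc false true k) A :=
  ext_pr fun φ => by
    simp only [pr_Fl, qc_iff]
    congr 1; funext v; split_ifs <;> omega

theorem qc_tf (k : ℕ) (A : Bg) : Fl (fun v => 0 + 1 + 1 ≤ v k) A = Fl (qc true false k) A :=
  ext_pr fun φ => by simp only [pr_Fl, qc_iff]

theorem qc_tt (k : ℕ) (A : Bg) :
    Fl (qc true true k) A = Fl (qc true false k) A + Fl (fun v => v k = 1) A :=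
  ext_pr fun φ => by
    simp only [pr_add, pr_Fl, ← pr_addf, qc_iff]
    congr 1; funext v; split_ifs <;> omega

theorem qc_t (k : ℕ) (A : Bg) : A = Fl (qc true true k) A + Fl (fun v => v k = 0) A :=
  ext_pr fun φ => by
    simp only [pr_add, pr_Fl, ← pr_addf, qc_iff]
    congr 1; funext v; split_ifs <;> omega

theorem rd1_f (κ : ℕ) (f : ℕ → ℕ → DT → ℕ → ℕ → Bool) (c : List Bool) (s g : Tn) :
    rd1 κ f (false :: c) s g =
      go κ false (rd1 κ f c) (tadd (c0 s) (c1 s)) (tadd (c0 g) (c1 g)) (c0 s) (c0 g) := rfl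

theorem rd1_t (κ : ℕ) (f : ℕ → ℕ → DT → ℕ → ℕ → Bool) (c : List Bool) (s g : Tn) :
    rd1 κ f (true :: c) s g = go κ true (rd1 κ f c) (tsub (tsub (c2 s) (c0 s)) (c1 s))
      (tsub (tsub (c2 g) (c0 g)) (c1 g)) (tsub (c2 s) (c0 s)) (tsub (c2 g) (c0 g)) := rfl

theorem rd2_f (κ d B : ℕ) (f : ℕ → ℕ → DT → ℕ → Bool) (c : List Bool) (s g : ℕ) :
    rd2 κ d B f (false :: c) s g = go κ false (rd2 κ d B f c)
      (Nat.land s (on (sb d B c)) + Nat.land (Nat.shiftRight s (sb d B c)) (on (sb d B c)))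
      (Nat.land g (on (sb d B c)) + Nat.land (Nat.shiftRight g (sb d B c)) (on (sb d B c)))
      (Nat.land s (on (sb d B c))) (Nat.land g (on (sb d B c))) := rfl

theorem rd2_t (κ d B : ℕ) (f : ℕ → ℕ → DT → ℕ → Bool) (c : List Bool) (s g : ℕ) :
    rd2 κ d B f (true :: c) s g = go κ true (rd2 κ d B f c)
      (sd (sb d B c) (d - 2) (Nat.shiftRight (Nat.shiftRight s (sb d B c)) (sb d B c)))
      (sd (sb d B c) (d - 2) (Nat.shiftRight (Nat.shiftRight g (sb d B c)) (sb d B c)))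
      (Nat.land (Nat.shiftRight s (sb d B c)) (on (sb d B c)) +
        sd (sb d B c) (d - 2) (Nat.shiftRight (Nat.shiftRight s (sb d B c)) (sb d B c)))
      (Nat.land (Nat.shiftRight g (sb d B c)) (on (sb d B c)) +
        sd (sb d B c) (d - 2) (Nat.shiftRight (Nat.shiftRight g (sb d B c)) (sb d B c))) := rfl

/-- the counts `v` are consistent with the moves `x` at the times `k, …, k + n - 1` -/
def cn (κ : ℕ) (R : DT) (a x y : ℕ) : ℕ → ℕ → V → Prop
  | 0, _, _ => True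
  | n + 1, k, v => qc (x.testBit k) (Nat.beq (run κ R a x y k).1 (κ - 1)) k v ∧
      cn κ R a x y n (k + 1) v

variable {κ d B W : ℕ} {R : DT} {a x y : ℕ} {base : V → ℕ}

theorem Fl_cn0 (k : ℕ) (A : Bg) : Fl (cn κ R a x y 0 k) A = A :=
  ext_pr fun φ => by simp [pr_Fl, cn]

theorem Fl_cn (n k : ℕ) (A : Bg) : Fl (cn κ R a x y (n + 1) k) A = Fl (cn κ R a x y n (k + 1))
    (Fl (qc (x.testBit k) (Nat.beq (run κ R a x y k).1 (κ - 1)) k) A) :=
  ext_pr fun φ => by
    simp only [pr_Fl, cn]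
    congr 1; funext v; split_ifs <;> simp_all

theorem cn_add (n m : ℕ) : ∀ k v, cn κ R a x y (n + m) k v ↔
    cn κ R a x y n k v ∧ cn κ R a x y m (k + n) v := by
  induction n with
  | zero => intro k v; simp [cn]
  | succ n ih => intro k v; rw [add_right_comm, cn, cn, ih, and_assoc, add_assoc k, add_comm 1]

theorem run_lt (hκ : 3 ≤ κ) (ha : a < κ) (k : ℕ) : (run κ R a x y k).1 < κ := by
  cases k with
  | zero => exact ha
  | succ k => exact Nat.mod_lt _ (by omega)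

theorem rd1_sound (hκ : 3 ≤ κ) (ha : a < κ) {ix : V → ℕ} {f : ℕ → ℕ → DT → ℕ → ℕ → Bool}
    (n : ℕ) : ∀ k s g A G D, rep ix (mkL x n k) k s A → rep ix (mkL x n k) k g G →
      Nat.testBit D (run κ R a x y k).1 = true →
      rd1 κ f (mkL x n k) s g (run κ R a x y k).2.1 (run κ R a x y k).2.2 D = true →
      ∃ D', D'.testBit (run κ R a x y (k + n)).1 = true ∧
        f (pr (Fl (cn κ R a x y n k) A) fun v => 2 ^ ix v)
          (pr (Fl (cn κ R a x y n k) G) fun v => 2 ^ ix v)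
          (run κ R a x y (k + n)).2.1 (run κ R a x y (k + n)).2.2 D' = true := by
  induction n with
  | zero =>
    intro k s g A G D rA rG hD h
    rw [Fl_cn0, Fl_cn0, ← show lv s = _ from rA, ← show lv g = _ from rG]
    exact ⟨D, hD, h⟩
  | succ n ih =>
    intro k s g A G D rA rG hD h
    rw [Fl_cn, Fl_cn, add_comm n, ← add_assoc]
    change rep ix (x.testBit k :: mkL x n (k + 1)) k s A at rA
    change rep ix (x.testBit k :: mkL x n (k + 1)) k g G at rG
    change rd1 κ f (x.testBit k :: mkL x n (k + 1)) _ _ _ _ _ = true at h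
    have hr : run κ R a x y (k + 1) = adv κ (y.testBit k) (run κ R a x y k) (x.testBit k) := rfl
    generalize x.testBit k = mv at *
    cases mv
    · rw [rd1_f] at h
      obtain ⟨D', h1, h2⟩ := go_sound hκ (run_lt hκ ha k) hD h (y.testBit k)
      rw [← hr] at h1 h2
      refine ih _ _ _ _ _ D' ?_ ?_ h1 h2 <;> cases Nat.beq (run κ R a x y k).1 (κ - 1)
      exacts [qc_ff k A ▸ rep_add _ rA.1 rA.2.1, qc_ft k A ▸ rA.1,
        qc_ff k G ▸ rep_add _ rG.1 rG.2.1, qc_ft k G ▸ rG.1]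
    · rw [rd1_t] at h
      obtain ⟨D', h1, h2⟩ := go_sound hκ (run_lt hκ ha k) hD h (y.testBit k)
      rw [← hr] at h1 h2
      have a1 := rep_sub _ (qc_t k A ▸ rA.2.2 rfl) rA.1
      have g1 := rep_sub _ (qc_t k G ▸ rG.2.2 rfl) rG.1
      refine ih _ _ _ _ _ D' ?_ ?_ h1 h2 <;> cases Nat.beq (run κ R a x y k).1 (κ - 1)
      exacts [rep_sub _ (qc_tt k A ▸ a1) rA.2.1, a1, rep_sub _ (qc_tt k G ▸ g1) rG.2.1, g1]

theorem rd2_sound (hκ : 3 ≤ κ) (hd : 2 ≤ d) (ha : a < κ)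
    (hb : ∀ v : V, (∀ j, v j ≤ d) → base v + W ≤ B) {fin : ℕ → ℕ → DT → ℕ → Bool}
    (n : ℕ) : ∀ k A G D, Ok W (Bd d (mkL x n k) k) A → Ok W (Bd d (mkL x n k) k) G →
      Nat.testBit D (run κ R a x y k).1 = true →
      rd2 κ d B fin (mkL x n k) (pr A fun v => 2 ^ ixp d B base (mkL x n k) k v)
        (pr G fun v => 2 ^ ixp d B base (mkL x n k) k v)
        (run κ R a x y k).2.1 (run κ R a x y k).2.2 D = true →
      fin (pr (Fl (cn κ R a x y n k) A) fun v => 2 ^ base v)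
          (pr (Fl (cn κ R a x y n k) G) fun v => 2 ^ base v)
          (run κ R a x y (k + n)).2.1 (run κ R a x y (k + n)).2.2 = true := by
  induction n with
  | zero =>
    intro k A G D oA oG hD h
    rw [Fl_cn0, Fl_cn0]
    exact h
  | succ n ih =>
    intro k A G D oA oG hD h
    rw [Fl_cn, Fl_cn, add_comm n, ← add_assoc]
    have hm : mkL x (n + 1) k = x.testBit k :: mkL x n (k + 1) := rfl
    have hr : run κ R a x y (k + 1) = adv κ (y.testBit k) (run κ R a x y k) (x.testBit k) := rfl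
    rw [hm] at oA oG h
    have pA := (oA.mono fun _ h => h.tl)
    have pG := (oG.mono fun _ h => h.tl)
    have qA := pA.mono (ixp_le hb _ _)
    have qG := pG.mono (ixp_le hb _ _)
    simp only [ixp, ← dg_zero] at h
    generalize x.testBit k = mv at *
    cases mv
    · rw [rd2_f] at h
      obtain ⟨D', h1, h2⟩ := go_sound hκ (run_lt hκ ha k) hD h (y.testBit k)
      rw [← hr] at h1 h2
      refine ih _ _ _ D' (pA.Fl _) (pG.Fl _) h1 ?_
      simp only [dg_shr qA, dg_shr qG, dg_land qA, dg_land qG] at h2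
      revert h2
      cases Nat.beq (run κ R a x y k).1 (κ - 1)
      · rw [← qc_ff, ← qc_ff, pr_add, pr_add]; exact id
      · rw [← qc_ft, ← qc_ft]; exact id
    · rw [rd2_t] at h
      obtain ⟨D', h1, h2⟩ := go_sound hκ (run_lt hκ ha k) hD h (y.testBit k)
      rw [← hr] at h1 h2
      refine ih _ _ _ D' (pA.Fl _) (pG.Fl _) h1 ?_
      have e : ∀ v, Bd d (mkL x n (k + 1)) (k + 1) v → v k ≤ 0 + 1 + 1 + (d - 2) :=
        fun v hv => (hv.1 k).trans (by omega)
      simp only [dg_shr qA, dg_shr qG, dg_land qA, dg_land qG, dg_sd qA k _ _ (pA.2.mono e),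
        dg_sd qG k _ _ (pG.2.mono e), qc_tf] at h2
      revert h2
      cases Nat.beq (run κ R a x y k).1 (κ - 1)
      · exact id
      · rw [qc_tt, qc_tt, pr_add, pr_add, add_comm (pr _ _), add_comm (pr (Fl _ G) _)]; exact id

theorem TB_zero (n : ℕ) : ∀ k t, TB W base (fun _ => 0) (fun _ => 0) n k t 0 := by
  induction n with
  | zero =>
    intro k t
    cases t
    exacts [rfl, ⟨by simp, fun _ => by simp⟩, rfl]
  | succ n ih =>
    intro k t
    cases t
    exacts [rfl, rfl, ⟨0, 0, by simp, Al.zero _, Al.zero _, ih _ _, ih _ _⟩]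

theorem pr_mul1 (A B : Bg) : pr (A * B) (fun _ => 1) = pr A (fun _ => 1) * pr B fun _ => 1 := by
  rw [pr_mul, ← pr_mulf]; simp

theorem cn_nd (n : ℕ) : ∀ k v, cn κ R a x y n k v → nd 1 (mkL x n k) k v := by
  induction n with
  | zero => exact fun _ _ _ => trivial
  | succ n ih =>
    refine fun k v h => ⟨fun e => ?_, ih _ _ h.2⟩
    have := h.1
    rw [qc, e] at this
    simp at this; omega

theorem pr_mask {p q : V → Prop} (h : ∀ v v', p (v + v') → q v) (A B : Bg) (φ : V → ℕ) :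
    pr (A * B) (fun v => if p v then φ v else 0) ≤
      pr (Fl q A * B) fun v => if p v then φ v else 0 := by
  rw [pr_mul, pr_mul, pr_Fl]
  refine pr_mono _ fun v => ?_
  split_ifs with e
  · rfl
  · exact (pr_mono _ fun v' => by rw [if_neg fun k => e (h _ _ k)]).trans (pr_zerof B).le

theorem ck_sound (C : Ce) (hκ : 3 ≤ C.κ) (hd : C.d = 3 ∨ C.d = 4) {k u : ℕ}
    {fin : ℕ → ℕ → DT → ℕ → Bool} {r g mr mg : SL → ℕ} {t : ST} {A G : Bg}
    (hb1 : ∀ v v', base (v + v') = base v + base v')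
    (hb : ∀ v : V, (∀ j, v j ≤ C.d) → base v + C.W ≤ B)
    (hA : TB C.W base r mr k 0 t A) (hG : TB C.W base g mg k 0 t G)
    (aA : Al A fun v => ∀ j, v j ≤ 1) (aG : Al G fun v => ∀ j, v j ≤ 1)
    (h : C.ck k x u B fin r g mr mg t = true) (ha : a < C.κ) (y : ℕ) :
    ∃ A' G', Ok C.W (fun v => ∀ j, v j ≤ C.d) A' ∧ Ok C.W (fun v => ∀ j, v j ≤ C.d) G' ∧
      (∀ φ : V → ℕ, pr (A ^ C.d) (fun v => if cn C.κ C.R a x y k 0 v then φ v else 0) ≤ pr A' φ) ∧
      (∀ φ : V → ℕ, pr (A ^ (C.d - 1) * G) (fun v => if cn C.κ C.R a x y k 0 v then φ v else 0) ≤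
        pr G' φ) ∧
      fin (pr A' fun v => 2 ^ base v) (pr G' fun v => 2 ^ base v)
        (run C.κ C.R a x y k).2.1 (run C.κ C.R a x y k).2.2 = true := by
  rw [Ce.ck, an_iff, an_iff, ble_iff, ble_iff] at h
  obtain ⟨⟨hu, hm⟩, h⟩ := h
  obtain ⟨n, rfl⟩ := Nat.exists_eq_add_of_le hu
  rw [show Nat.sub (u + n) u = n from Nat.add_sub_cancel_left ..] at h
  set c := mkL x n u with hc
  have m1 := fdm_le _ hA
  have m2 := fdm_le _ hG
  change (fdm mr t + fdm mg t) ^ C.d + 1 ≤ 2 ^ C.W - 1 at hm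
  set m := fdm mr t + fdm mg t
  have mA : pr A (fun _ => 1) ≤ m := by omega
  have mG : pr G (fun _ => 1) ≤ m := by omega
  have hp : ∀ j, 0 < j → j ≤ C.d → m ^ j < 2 ^ C.W - 1 := by
    intro j h0 hj
    rcases Nat.eq_zero_or_pos m with e | e
    · rw [e, zero_pow h0.ne']; omega
    · have := Nat.pow_le_pow_right e hj; omega
  have l1 : m < 2 ^ C.W - 1 := by simpa using hp 1 one_pos (by omega)
  have l2 : m * m < 2 ^ C.W - 1 := by simpa [pow_two] using hp 2 two_pos (by omega)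
  have rA := fd1_rep (d := C.d) (B := B) c (mkL x u 0)
    (by rw [mkL_len, hc, mkL_len]; exact hA) (by omega)
  have rG := fd1_rep (d := C.d) (B := B) c (mkL x u 0)
    (by rw [mkL_len, hc, mkL_len]; exact hG) (by omega)
  rw [mkL_len, zero_add] at rA rG
  have hix := ixp_add (d := C.d) (B := B) hb1 c u
  have n1 : ∀ v : V, (∀ j, v j ≤ 1) → nd 1 c u v := fun v hv => nd_of _ fun j _ _ => hv _
  have o2 : ∀ {X Y : Bg}, pr X (fun _ => 1) ≤ m → pr Y (fun _ => 1) ≤ m →
      Al X (fun v => ∀ j, v j ≤ 1) → Al Y (fun v => ∀ j, v j ≤ 1) →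
      Ok C.W (Bd C.d c u) (X * Y) ∧ pr (Fl (nd 1 c u) (X * Y)) (fun _ => 1) ≤ m * m ∧
        Al (Fl (nd 1 c u) (X * Y)) fun v => (∀ j, v j ≤ 2) ∧ nd 1 c u v := by
    intro X Y h1 h2 h3 h4
    have h5 := (pr_mul1 X Y).trans_le (Nat.mul_le_mul h1 h2)
    have h6 : ∀ v v' : V, (∀ j, v j ≤ 1) → (∀ j, v' j ≤ 1) → ∀ j, (v + v') j ≤ 2 :=
      fun v v' a b j => add_le_add (a j) (b j)
    exact ⟨⟨h5.trans_lt l2, h3.mul h4 fun v v' a b => ⟨fun j => (h6 v v' a b j).trans (by omega),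
      nd_add _ (n1 _ a) (n1 _ b)⟩⟩, (pr_Fl_le _ _ _).trans h5, (h3.mul h4 h6).Fl _⟩
  obtain ⟨oP, mP, aP⟩ := o2 mA mA aA aA
  obtain ⟨oQ, mQ, aQ⟩ := o2 mA mG aA aG
  have rP := rep_map (f := Nat.land (mkM C.d B c)) (Nat.and_zero _) (mkM_land hb c u) _ oP (rep_sq hix _ rA)
  have rQ := rep_map (f := Nat.land (mkM C.d B c)) (Nat.and_zero _) (mkM_land hb c u) _ oQ (rep_mul hix _ rA rG)
  set P := Fl (nd 1 c u) (A * A)
  set Q := Fl (nd 1 c u) (A * G)
  have hn : ∀ v v', cn C.κ C.R a x y (u + n) 0 (v + v') → nd 1 c u v := fun v v' k =>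
    nd_left _ (cn_nd _ _ _ (by simpa using ((cn_add _ _ _ _).1 k).2))
  have key : ∃ X Y, Ok C.W (Bd C.d c u) X ∧ Ok C.W (Bd C.d c u) Y ∧
      (∀ φ : V → ℕ, pr (A ^ C.d) (fun v => if cn C.κ C.R a x y (u + n) 0 v then φ v else 0) ≤
        pr X fun v => if cn C.κ C.R a x y (u + n) 0 v then φ v else 0) ∧
      (∀ φ : V → ℕ, pr (A ^ (C.d - 1) * G) (fun v => if cn C.κ C.R a x y (u + n) 0 v then φ v else 0) ≤
        pr Y fun v => if cn C.κ C.R a x y (u + n) 0 v then φ v else 0) ∧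
      ∃ s g, rep (ixp C.d B base c u) (mkL x u 0) 0 s X ∧
        rep (ixp C.d B base c u) (mkL x u 0) 0 g Y ∧
        rd1 C.κ (rd2 C.κ C.d B fin c) (mkL x u 0) s g C.R 0 (on C.κ) = true := by
    rcases hd with e | e
    · have o3 : ∀ {X : Bg}, pr X (fun _ => 1) ≤ m → Al X (fun v => ∀ j, v j ≤ 1) →
          Ok C.W (Bd C.d c u) (P * X) := fun h1 h2 =>
        ⟨((pr_mul1 _ _).trans_le (Nat.mul_le_mul mP h1)).trans_lt
          (by simpa [pow_succ] using hp 3 (by omega) e.ge),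
        aP.mul h2 fun v v' a b => ⟨fun j => (add_le_add (a.1 j) (b j)).trans e.ge,
          nd_add _ a.2 (n1 _ b)⟩⟩
      refine ⟨P * A, P * G, o3 mA aA, o3 mG aG, fun φ => ?_, fun φ => ?_, _, _,
        rep_mul hix _ rP rA, rep_mul hix _ rP rG, ?_⟩
      · rw [e, show A ^ 3 = A * A * A by ring]; exact pr_mask hn _ _ _
      · rw [e, show A ^ (3 - 1) * G = A * A * G by ring]; exact pr_mask hn _ _ _
      · simpa only [pw, pg, beq_t e] using h
    · have o4 : ∀ {X : Bg}, pr X (fun _ => 1) ≤ m * m →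
          Al X (fun v => (∀ j, v j ≤ 2) ∧ nd 1 c u v) → Ok C.W (Bd C.d c u) (P * X) := fun h1 h2 =>
        ⟨((pr_mul1 _ _).trans_le (Nat.mul_le_mul mP h1)).trans_lt
          (by simpa [pow_succ, mul_assoc] using hp 4 (by omega) e.ge),
        aP.mul h2 fun v v' a b => ⟨fun j => (add_le_add (a.1 j) (b.1 j)).trans e.ge,
          nd_add _ a.2 b.2⟩⟩
      refine ⟨P * P, P * Q, o4 mP aP, o4 mQ aQ, fun φ => ?_, fun φ => ?_, _, _,
        rep_sq hix _ rP, rep_mul hix _ rP rQ, ?_⟩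
      · rw [e, show A ^ 4 = A * A * (A * A) by ring]
        refine (pr_mask hn _ _ _).trans ?_
        rw [mul_comm, mul_comm P P]; exact pr_mask hn _ _ _
      · rw [e, show A ^ (4 - 1) * G = A * A * (A * G) by ring]
        refine (pr_mask hn _ _ _).trans ?_
        rw [mul_comm, mul_comm P Q]; exact pr_mask hn _ _ _
      · simpa only [pw, pg, tm, beq_f (show C.d ≠ 3 by omega)] using h
  obtain ⟨X, Y, oX, oY, h1, h2, s, g, rX, rY, h⟩ := key
  obtain ⟨D, h3, h4⟩ := rd1_sound (R := C.R) (y := y) hκ ha u 0 s g X Y _ rX rY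
    (by simp [run, on_eq, ha]) h
  rw [zero_add] at h3 h4
  have h5 := rd2_sound hκ (by omega) ha hb n u _ _ D (oX.Fl _) (oY.Fl _) h3 h4
  have e : ∀ (Z : Bg) φ, pr (Fl (cn C.κ C.R a x y n u) (Fl (cn C.κ C.R a x y u 0) Z)) φ =
      pr Z fun v => if cn C.κ C.R a x y (u + n) 0 v then φ v else 0 := by
    intro Z φ
    simp only [pr_Fl, cn_add, zero_add]
    congr 1; funext v; split_ifs <;> simp_all
  exact ⟨_, _, ((oX.Fl _).Fl _).mono fun _ h => h.1, ((oY.Fl _).Fl _).mono fun _ h => h.1,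
    fun φ => (e X φ).symm ▸ h1 φ, fun φ => (e Y φ).symm ▸ h2 φ, h5⟩

end Pool.Agent.P.MP_5517c4_pr.Cca
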