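import Pool.Agent.P.MP_5517c4_pr.Cca.Ck

/-! Checks over ranges of indices. -/

set_option autoImplicit false

namespace Pool.Agent.P.MP_5517c4_pr.Cca

def Rg (f : ℕ → Bool) (a b : ℕ) : Prop := ∀ x, a ≤ x → x < b → f x = true

theorem Rg.app {f : ℕ → Bool} {a b c : ℕ} (h : Rg f a b) (h' : Rg f b c) : Rg f a c :=
  fun x h1 h2 => (Nat.lt_or_ge x b).elim (h x h1) fun h3 => h' x h3 h2

theorem allR_sound {f : ℕ → Bool} {a : ℕ} (n : ℕ) : allR f a n = true → Rg f a (a + n) := by
  induction n with
  | zero => exact fun _ x h1 h2 => absurd h2 (Nat.not_lt.2 h1)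
  | succ n ih =>
    intro h
    change an (f (a + n)) (allR f a n) = true at h
    cases e : f (a + n)
    · rw [e] at h; exact absurd h Bool.false_ne_true
    · rw [e] at h
      exact (ih h).app fun x h1 h2 => by rwa [show x = a + n by omega]

theorem rg {f : ℕ → Bool} (a b : ℕ) (h : allR f a (b - a) = true) : Rg f a b :=
  fun x h1 h2 => allR_sound _ h x h1 (by omega)

end Pool.Agent.P.MP_5517c4_pr.Cca
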